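import Mathlib
import Pool.Agent.N417.LD.D

/-!
# Large deviations with respect to the compensator: one window

No assumption on the single conditional probabilities, except that they are small; the time is the
compensator.
-/

set_option autoImplicit false
set_option linter.unusedSectionVars false

open MeasureTheory Filter Set
open scoped ENNReal Topology

namespace Pool.Agent.N417.CL

open Pool.Agent.R528.RM Pool.Agent.N740.HK Pool.Agent.N417.LD

variable {Ω : Type} {m0 : MeasurableSpace Ω} {μ : Measure Ω} [IsProbabilityMeasure μ]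
  {ℱ : Filtration ℕ m0} {A : ℕ → Set Ω}

/-- the number of chosen integers in `(T, T + j]` -/
noncomputable def CN (A : ℕ → Set Ω) (T j : ℕ) (ω : Ω) : ℝ := ∑ i ∈ Finset.range j, J1 A (T + i + 1) ω

/-- the compensator -/
noncomputable def CV (μ : Measure Ω) (ℱ : Filtration ℕ m0) (A : ℕ → Set Ω) (T j : ℕ) (ω : Ω) : ℝ :=
  ∑ i ∈ Finset.range j, DD' μ ℱ A (T + i) ω

lemma CN_succ (T j : ℕ) (ω : Ω) : CN A T (j + 1) ω = CN A T j ω + J1 A (T + j + 1) ω := Finset.sum_range_succ _ _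

lemma CV_succ (T j : ℕ) (ω : Ω) : CV μ ℱ A T (j + 1) ω = CV μ ℱ A T j ω + DD' μ ℱ A (T + j) ω := Finset.sum_range_succ _ _

lemma CN_meas (hA : ∀ n, MeasurableSet[ℱ n] (A n)) (T j : ℕ) : StronglyMeasurable[ℱ (T + j)] (CN A T j) := by
  have e : CN A T j = fun ω => ∑ i ∈ Finset.range j, J1 A (T + i + 1) ω := rfl
  rw [e]
  refine Finset.stronglyMeasurable_fun_sum _ fun i hi => ?_
  have hi := Finset.mem_range.1 hi
  exact (J1_meas hA (T + i + 1)).mono (ℱ.mono (by omega))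

lemma CV_meas (T j : ℕ) : StronglyMeasurable[ℱ (T + j)] (CV μ ℱ A T (j + 1)) := by
  have e : CV μ ℱ A T (j + 1) = fun ω => ∑ i ∈ Finset.range (j + 1), DD' μ ℱ A (T + i) ω := rfl
  rw [e]
  refine Finset.stronglyMeasurable_fun_sum _ fun i hi => ?_
  have hi := Finset.mem_range.1 hi
  exact (DD'_meas (T + i)).mono (ℱ.mono (by omega))

lemma CV_meas' (T j : ℕ) : StronglyMeasurable[ℱ (T + j)] (CV μ ℱ A T j) := by
  have e : CV μ ℱ A T j = fun ω => ∑ i ∈ Finset.range j, DD' μ ℱ A (T + i) ω := rfl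
  rw [e]
  refine Finset.stronglyMeasurable_fun_sum _ fun i hi => ?_
  have hi := Finset.mem_range.1 hi
  exact (DD'_meas (T + i)).mono (ℱ.mono (by omega))

lemma CN_bd (T j : ℕ) (ω : Ω) : 0 ≤ CN A T j ω ∧ CN A T j ω ≤ j := by
  unfold CN
  have e : ∑ i ∈ Finset.range j, (1 : ℝ) = j := by simp
  constructor
  · exact Finset.sum_nonneg fun i _ => (J1_01 _ _).1
  · rw [← e]; exact Finset.sum_le_sum fun i _ => (J1_01 _ _).2

lemma CV_bd (T j : ℕ) (ω : Ω) : 0 ≤ CV μ ℱ A T j ω ∧ CV μ ℱ A T j ω ≤ j := by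
  unfold CV
  have e : ∑ i ∈ Finset.range j, (1 : ℝ) = j := by simp
  constructor
  · exact Finset.sum_nonneg fun i _ => (DD'_bd _ _).1
  · rw [← e]; exact Finset.sum_le_sum fun i _ => (DD'_bd _ _).2

/-- the exponential functional -/
noncomputable def EX (μ : Measure Ω) (ℱ : Filtration ℕ m0) (A : ℕ → Set Ω) (T : ℕ) (W x c : ℝ) (j : ℕ) (ω : Ω) : ℝ :=
  Real.exp (x * CN A T j ω + c * (W - CV μ ℱ A T j ω))

lemma EX_meas (hA : ∀ n, MeasurableSet[ℱ n] (A n)) (T : ℕ) (W x c : ℝ) (j : ℕ) :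
    StronglyMeasurable[ℱ (T + j)] (EX μ ℱ A T W x c j) :=
  Real.continuous_exp.comp_stronglyMeasurable (((CN_meas hA T j).const_mul x).add
    (((@stronglyMeasurable_const _ _ (ℱ (T + j)) _ W).sub (CV_meas' T j)).const_mul c))

lemma EX_abs (T : ℕ) (W x c : ℝ) (j : ℕ) (ω : Ω) : |EX μ ℱ A T W x c j ω| ≤ Real.exp (|x| * j + |c| * (|W| + j)) := by
  unfold EX
  rw [abs_of_pos (Real.exp_pos _)]
  apply Real.exp_le_exp.2
  have h1 := CN_bd (A := A) T j ω
  have h2 := CV_bd (μ := μ) (ℱ := ℱ) (A := A) T j ω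
  have h3 : x * CN A T j ω ≤ |x| * j := by
    calc x * CN A T j ω ≤ |x| * CN A T j ω := mul_le_mul_of_nonneg_right (le_abs_self x) h1.1
      _ ≤ |x| * j := mul_le_mul_of_nonneg_left h1.2 (abs_nonneg _)
  have h4 : c * (W - CV μ ℱ A T j ω) ≤ |c| * (|W| + j) := by
    calc c * (W - CV μ ℱ A T j ω) ≤ |c * (W - CV μ ℱ A T j ω)| := le_abs_self _
      _ = |c| * |W - CV μ ℱ A T j ω| := abs_mul _ _
      _ ≤ |c| * (|W| + j) := by
          apply mul_le_mul_of_nonneg_left _ (abs_nonneg _)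
          refine (abs_sub _ _).trans ?_
          rw [abs_of_nonneg h2.1]
          linarith [h2.2]
  linarith

lemma EX_int (hA : ∀ n, MeasurableSet[ℱ n] (A n)) (T : ℕ) (W x c : ℝ) (j : ℕ) : Integrable (EX μ ℱ A T W x c j) μ :=
  intb ((EX_meas hA T W x c j).mono (ℱ.le _)) (EX_abs T W x c j)

/-- one step -/
lemma EX_step (hA : ∀ n, MeasurableSet[ℱ n] (A n)) (T : ℕ) (W x c : ℝ) (j : ℕ) {C : Set Ω} (hC : MeasurableSet[ℱ (T + j)] C) :
    Integrable (fun ω => EX μ ℱ A T W x c j ω * (Real.exp (-(c * DD' μ ℱ A (T + j) ω)) *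
      (1 + DD' μ ℱ A (T + j) ω * (Real.exp x - 1)))) μ ∧
    ∫ ω in C, EX μ ℱ A T W x c (j + 1) ω ∂μ = ∫ ω in C, EX μ ℱ A T W x c j ω * (Real.exp (-(c * DD' μ ℱ A (T + j) ω)) *
      (1 + DD' μ ℱ A (T + j) ω * (Real.exp x - 1))) ∂μ := by
  have hC' : MeasurableSet C := ℱ.le _ _ hC
  set F : Ω → ℝ := fun ω => EX μ ℱ A T W x c j ω * Real.exp ((x - c) * DD' μ ℱ A (T + j) ω) with hF
  have hFm : StronglyMeasurable[ℱ (T + j)] F :=
    (EX_meas hA T W x c j).mul (Real.continuous_exp.comp_stronglyMeasurable ((DD'_meas (T + j)).const_mul _))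
  have hFb : ∀ ω, |F ω| ≤ Real.exp (|x| * j + |c| * (|W| + j)) * Real.exp (|x - c|) := by
    intro ω
    simp only [hF]
    rw [abs_mul, abs_of_pos (Real.exp_pos ((x - c) * DD' μ ℱ A (T + j) ω))]
    refine mul_le_mul (EX_abs T W x c j ω) ?_ (Real.exp_pos _).le (Real.exp_pos _).le
    apply Real.exp_le_exp.2
    have h := DD'_bd (μ := μ) (ℱ := ℱ) (A := A) (T + j) ω
    calc (x - c) * DD' μ ℱ A (T + j) ω ≤ |x - c| * DD' μ ℱ A (T + j) ω := mul_le_mul_of_nonneg_right (le_abs_self _) h.1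
      _ ≤ |x - c| * 1 := mul_le_mul_of_nonneg_left h.2 (abs_nonneg _)
      _ = _ := mul_one _
  have hK : ∀ ω, F ω * KK x (DD' μ ℱ A (T + j) ω) = EX μ ℱ A T W x c j ω * (Real.exp (-(c * DD' μ ℱ A (T + j) ω)) *
      (1 + DD' μ ℱ A (T + j) ω * (Real.exp x - 1))) := by
    intro ω
    simp only [hF]
    unfold KK
    have e : Real.exp ((x - c) * DD' μ ℱ A (T + j) ω) * Real.exp (-(x * DD' μ ℱ A (T + j) ω)) =
        Real.exp (-(c * DD' μ ℱ A (T + j) ω)) := by
      rw [← Real.exp_add]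
      congr 1
      ring
    calc _ = EX μ ℱ A T W x c j ω * (Real.exp ((x - c) * DD' μ ℱ A (T + j) ω) * Real.exp (-(x * DD' μ ℱ A (T + j) ω))) *
          (1 + DD' μ ℱ A (T + j) ω * (Real.exp x - 1)) := by ring
      _ = _ := by rw [e]; ring
  have hE : ∀ ω, F ω * Real.exp (x * (J1 A (T + j + 1) ω - DD' μ ℱ A (T + j) ω)) = EX μ ℱ A T W x c (j + 1) ω := by
    intro ω
    simp only [hF]
    unfold EX
    rw [CN_succ, CV_succ, ← Real.exp_add, ← Real.exp_add]
    congr 1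
    ring
  constructor
  · have h := (ex_step (μ := μ) hA hFm hFb x).2.1
    refine h.congr (Eventually.of_forall fun ω => ?_)
    exact hK ω
  · have hm : StronglyMeasurable[ℱ (T + j)] (C.indicator F) := hFm.indicator hC
    have hb : ∀ ω, |C.indicator F ω| ≤ Real.exp (|x| * j + |c| * (|W| + j)) * Real.exp (|x - c|) := by
      intro ω
      by_cases h : ω ∈ C
      · rw [indicator_of_mem h]; exact hFb ω
      · rw [indicator_of_notMem h, abs_zero]; positivity
    obtain ⟨_, _, h3⟩ := ex_step (μ := μ) hA hm hb x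
    rw [← integral_indicator hC', ← integral_indicator hC']
    have e1 : (fun ω => C.indicator (EX μ ℱ A T W x c (j + 1)) ω) = fun ω => C.indicator F ω *
        Real.exp (x * (J1 A (T + j + 1) ω - DD' μ ℱ A (T + j) ω)) := by
      funext ω
      by_cases h : ω ∈ C
      · rw [indicator_of_mem h, indicator_of_mem h, hE]
      · rw [indicator_of_notMem h, indicator_of_notMem h, zero_mul]
    have e2 : (fun ω => C.indicator (fun ω => EX μ ℱ A T W x c j ω * (Real.exp (-(c * DD' μ ℱ A (T + j) ω)) *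
      (1 + DD' μ ℱ A (T + j) ω * (Real.exp x - 1)))) ω) = fun ω => C.indicator F ω * KK x (DD' μ ℱ A (T + j) ω) := by
      funext ω
      by_cases h : ω ∈ C
      · rw [indicator_of_mem h, indicator_of_mem h, hK]
      · rw [indicator_of_notMem h, indicator_of_notMem h, zero_mul]
    rw [show (fun a => C.indicator (fun ω => EX μ ℱ A T W x c (j + 1) ω) a) = _ from e1, e2, h3]

lemma EX_up (hA : ∀ n, MeasurableSet[ℱ n] (A n)) (T : ℕ) (W x : ℝ) (j : ℕ) {C : Set Ω} (hC : MeasurableSet[ℱ (T + j)] C) :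
    ∫ ω in C, EX μ ℱ A T W x (Real.exp x - 1) (j + 1) ω ∂μ ≤ ∫ ω in C, EX μ ℱ A T W x (Real.exp x - 1) j ω ∂μ := by
  obtain ⟨h1, h2⟩ := EX_step (μ := μ) hA T W x (Real.exp x - 1) j hC
  rw [h2]
  refine setIntegral_mono_on h1.integrableOn (EX_int hA T W x _ j).integrableOn (ℱ.le _ _ hC) fun ω _ => ?_
  have h3 : 0 ≤ EX μ ℱ A T W x (Real.exp x - 1) j ω := (Real.exp_pos _).le
  apply mul_le_of_le_one_right h3
  set D := DD' μ ℱ A (T + j) ω
  have h4 : 1 + D * (Real.exp x - 1) ≤ Real.exp ((Real.exp x - 1) * D) := by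
    have := Real.add_one_le_exp ((Real.exp x - 1) * D)
    linarith
  calc Real.exp (-((Real.exp x - 1) * D)) * (1 + D * (Real.exp x - 1)) ≤
        Real.exp (-((Real.exp x - 1) * D)) * Real.exp ((Real.exp x - 1) * D) := mul_le_mul_of_nonneg_left h4 (Real.exp_pos _).le
    _ = 1 := by rw [← Real.exp_add, neg_add_cancel, Real.exp_zero]

lemma EX_lo (hA : ∀ n, MeasurableSet[ℱ n] (A n)) (T : ℕ) {W x u : ℝ} (j : ℕ) {C : Set Ω} (hC : MeasurableSet[ℱ (T + j)] C)
    (hu : u * |Real.exp x - 1| ≤ 1 / 2) (hCu : ∀ ω ∈ C, DD' μ ℱ A (T + j) ω ≤ u) :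
    ∫ ω in C, EX μ ℱ A T W x (Real.exp x - 1 - 2 * u * (Real.exp x - 1) ^ 2) j ω ∂μ ≤
      ∫ ω in C, EX μ ℱ A T W x (Real.exp x - 1 - 2 * u * (Real.exp x - 1) ^ 2) (j + 1) ω ∂μ := by
  set c : ℝ := Real.exp x - 1 - 2 * u * (Real.exp x - 1) ^ 2 with hc
  obtain ⟨h1, h2⟩ := EX_step (μ := μ) hA T W x c j hC
  rw [h2]
  refine setIntegral_mono_on (EX_int hA T W x _ j).integrableOn h1.integrableOn (ℱ.le _ _ hC) fun ω hω => ?_
  have h3 : 0 ≤ EX μ ℱ A T W x c j ω := (Real.exp_pos _).le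
  apply le_mul_of_one_le_right h3
  have hD := DD'_bd (μ := μ) (ℱ := ℱ) (A := A) (T + j) ω
  have hDu := hCu ω hω
  set D := DD' μ ℱ A (T + j) ω
  have hz : |D * (Real.exp x - 1)| ≤ 1 / 2 := by
    rw [abs_mul, abs_of_nonneg hD.1]
    exact (mul_le_mul_of_nonneg_right hDu (abs_nonneg _)).trans hu
  have h4 := exp_sub_sq (abs_le.1 hz).1
  have h5 : c * D ≤ D * (Real.exp x - 1) - 2 * (D * (Real.exp x - 1)) ^ 2 := by
    have : D * D ≤ D * u := mul_le_mul_of_nonneg_left hDu hD.1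
    have h6 := mul_le_mul_of_nonneg_right this (sq_nonneg (Real.exp x - 1))
    rw [hc]
    nlinarith
  have h6 : Real.exp (c * D) ≤ 1 + D * (Real.exp x - 1) := (Real.exp_le_exp.2 h5).trans h4
  calc (1 : ℝ) = Real.exp (-(c * D)) * Real.exp (c * D) := by rw [← Real.exp_add, neg_add_cancel, Real.exp_zero]
    _ ≤ _ := mul_le_mul_of_nonneg_left h6 (Real.exp_pos _).le

/-- **upper bound** -/
theorem cl_upper (hA : ∀ n, MeasurableSet[ℱ n] (A n)) (T H : ℕ) (x n v : ℝ) :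
    μ.real {ω | x * n ≤ x * CN A T H ω ∧ (Real.exp x - 1) * CV μ ℱ A T H ω ≤ (Real.exp x - 1) * v} ≤
      Real.exp (-(x * n - (Real.exp x - 1) * v)) := by
  have hmon : ∀ j, ∫ ω, EX μ ℱ A T 0 x (Real.exp x - 1) j ω ∂μ ≤ 1 := by
    intro j
    induction j with
    | zero => simp [EX, CN, CV]
    | succ j ih =>
      have h := EX_up (μ := μ) hA T 0 x j (C := univ) MeasurableSet.univ
      simp only [setIntegral_univ] at h
      exact h.trans ih
  have h1 := mul_meas_ge_le_integral_of_nonneg (Eventually.of_forall fun ω => (Real.exp_pos _).le)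
    (EX_int (μ := μ) hA T 0 x (Real.exp x - 1) H) (Real.exp (x * n - (Real.exp x - 1) * v))
  have h2 : μ.real {ω | x * n ≤ x * CN A T H ω ∧ (Real.exp x - 1) * CV μ ℱ A T H ω ≤ (Real.exp x - 1) * v} ≤
      μ.real {ω | Real.exp (x * n - (Real.exp x - 1) * v) ≤ EX μ ℱ A T 0 x (Real.exp x - 1) H ω} := by
    refine measureReal_mono ?_ (measure_ne_top _ _)
    rintro ω ⟨a1, a2⟩
    apply Real.exp_le_exp.2
    linarith
  have h3 := h1.trans (hmon H)
  have h4 := Real.exp_pos (x * n - (Real.exp x - 1) * v)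
  refine h2.trans ?_
  rw [Real.exp_neg, ← one_div, le_div_iff₀ h4, mul_comm]
  exact h3

end Pool.Agent.N417.CL
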