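import Mathlib
import Pool.Agent.N417.CL.A

/-!
# Large deviations with respect to the compensator: the lower bound in one window
-/

set_option autoImplicit false
set_option linter.unusedSectionVars false

open MeasureTheory Filter Set
open scoped ENNReal Topology

namespace Pool.Agent.N417.CL

open Pool.Agent.R528.RM Pool.Agent.N740.HK Pool.Agent.N417.LD

/-- the test function; `R` is the rest of the compensator, `N` the number of successes so far -/
noncomputable def qc (x θ a b M α β γ R N : ℝ) : ℝ :=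
  Real.exp (-M) * Real.exp (x * N + α * R)
  - Real.exp (θ * a - M) * Real.exp ((x - θ) * N + β * R)
  - Real.exp (-(θ * b) - M) * Real.exp ((x + θ) * N + γ * R)

lemma qc_le_one {x θ a b M α β γ R N : ℝ} (hθ : 0 < θ) (hMa : x * a ≤ M) (hMb : x * b ≤ M) (hR : 0 ≤ R)
    (hα : α ≤ Real.exp x - 1) (hβ : Real.exp x - 1 - θ * Real.exp x ≤ β) (hγ : Real.exp x - 1 + θ * Real.exp x ≤ γ) :
    qc x θ a b M α β γ R N ≤ 1 := by
  unfold qc
  rw [← Real.exp_add, ← Real.exp_add, ← Real.exp_add]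
  have p2 := Real.exp_pos (θ * a - M + ((x - θ) * N + β * R))
  have p3 := Real.exp_pos (-(θ * b) - M + ((x + θ) * N + γ * R))
  by_cases h : -M + (x * N + α * R) ≤ 0
  · have h1 : Real.exp (-M + (x * N + α * R)) ≤ 1 := by rwa [Real.exp_le_one_iff]
    linarith
  · push Not at h
    by_cases h2 : 0 ≤ θ * (a - N) + (β - α) * R
    · have h3 : Real.exp (-M + (x * N + α * R)) ≤ Real.exp (θ * a - M + ((x - θ) * N + β * R)) := by
        apply Real.exp_le_exp.2
        linarith
      linarith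
    · by_cases h3 : 0 ≤ θ * (N - b) + (γ - α) * R
      · have h4 : Real.exp (-M + (x * N + α * R)) ≤ Real.exp (-(θ * b) - M + ((x + θ) * N + γ * R)) := by
          apply Real.exp_le_exp.2
          linarith
        linarith
      · exfalso
        push Not at h2 h3
        have hex := Real.exp_pos x
        -- `a < N + e^x R < b`
        have k1 : a < N + Real.exp x * R := by
          have h4 : -(θ * Real.exp x) * R ≤ (β - α) * R := mul_le_mul_of_nonneg_right (by linarith) hR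
          by_contra hcon
          push Not at hcon
          have : 0 ≤ θ * (a - N - Real.exp x * R) := mul_nonneg hθ.le (by linarith)
          linarith
        have k2 : N + Real.exp x * R < b := by
          have h4 : (θ * Real.exp x) * R ≤ (γ - α) * R := mul_le_mul_of_nonneg_right (by linarith) hR
          by_contra hcon
          push Not at hcon
          have : 0 ≤ θ * (N + Real.exp x * R - b) := mul_nonneg hθ.le (by linarith)
          linarith
        have k3 : Real.exp x - 1 ≤ x * Real.exp x := by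
          have h5 := Real.add_one_le_exp (-x)
          have h6 := mul_le_mul_of_nonneg_left h5 hex.le
          rw [← Real.exp_add, add_neg_cancel, Real.exp_zero] at h6
          linarith
        have k4 : (Real.exp x - 1) * R ≤ x * Real.exp x * R := mul_le_mul_of_nonneg_right k3 hR
        have k5 : α * R ≤ (Real.exp x - 1) * R := mul_le_mul_of_nonneg_right hα hR
        rcases le_total 0 x with hx | hx
        · have h7 : x * (N + Real.exp x * R) ≤ x * b := mul_le_mul_of_nonneg_left k2.le hx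
          linarith
        · have h7 : x * (N + Real.exp x * R) ≤ x * a := mul_le_mul_of_nonpos_left k1.le hx
          linarith

lemma qc_end {x θ a b M α β γ R N ζ : ℝ} (hθ : 0 < θ) (hR : 0 ≤ R)
    (hζ : (α - β) * R ≤ θ * ζ) (hγ : α ≤ γ) (h : N < a - ζ ∨ b < N) : qc x θ a b M α β γ R N ≤ 0 := by
  unfold qc
  rw [← Real.exp_add, ← Real.exp_add, ← Real.exp_add]
  have p2 := Real.exp_pos (θ * a - M + ((x - θ) * N + β * R))
  have p3 := Real.exp_pos (-(θ * b) - M + ((x + θ) * N + γ * R))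
  rcases h with h | h
  · have h1 : Real.exp (-M + (x * N + α * R)) ≤ Real.exp (θ * a - M + ((x - θ) * N + β * R)) := by
      apply Real.exp_le_exp.2
      have : θ * ζ ≤ θ * (a - N) := mul_le_mul_of_nonneg_left (by linarith) hθ.le
      linarith
    linarith
  · have h1 : Real.exp (-M + (x * N + α * R)) ≤ Real.exp (-(θ * b) - M + ((x + θ) * N + γ * R)) := by
      apply Real.exp_le_exp.2
      have h2 : 0 ≤ θ * (N - b) := mul_nonneg hθ.le (by linarith)
      have h3 : 0 ≤ (γ - α) * R := mul_nonneg (by linarith) hR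
      linarith
    linarith

variable {Ω : Type} {m0 : MeasurableSpace Ω} {μ : Measure Ω} [IsProbabilityMeasure μ]
  {ℱ : Filtration ℕ m0} {A : ℕ → Set Ω}

/-- the conditional probabilities are at most `u`, and the compensator is at most `W` -/
def GV (μ : Measure Ω) (ℱ : Filtration ℕ m0) (A : ℕ → Set Ω) (u W : ℝ) (T j : ℕ) : Set Ω :=
  {ω | (∀ i, i < j → DD' μ ℱ A (T + i) ω ≤ u) ∧ CV μ ℱ A T j ω ≤ W}

lemma GV_meas (u W : ℝ) (T j : ℕ) : MeasurableSet[ℱ (T + j)] (GV μ ℱ A u W T (j + 1)) := by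
  have e : GV μ ℱ A u W T (j + 1) = (⋂ i ∈ Finset.range (j + 1), {ω | DD' μ ℱ A (T + i) ω ≤ u}) ∩
      {ω | CV μ ℱ A T (j + 1) ω ≤ W} := by
    ext ω
    simp [GV]
  rw [e]
  refine MeasurableSet.inter (Finset.measurableSet_biInter _ fun i hi => ?_)
    (measurableSet_le (CV_meas T j).measurable (@measurable_const _ _ _ (ℱ (T + j)) _))
  have hi := Finset.mem_range.1 hi
  have h1 : Measurable[ℱ (T + j)] (DD' μ ℱ A (T + i)) := ((DD'_meas (T + i)).mono (ℱ.mono (by omega))).measurable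
  exact measurableSet_le h1 (@measurable_const _ _ _ (ℱ (T + j)) _)

lemma GV_meas' {u W : ℝ} (hW : 0 ≤ W) (T j : ℕ) : MeasurableSet[ℱ (T + j)] (GV μ ℱ A u W T j) := by
  cases j with
  | zero =>
    have : GV μ ℱ A u W T 0 = univ := by ext ω; simp [GV, CV, hW]
    rw [this]
    exact MeasurableSet.univ
  | succ j => exact ℱ.mono (by omega) _ (GV_meas u W T j)

lemma GV_anti (u W : ℝ) (T j : ℕ) : GV μ ℱ A u W T (j + 1) ⊆ GV μ ℱ A u W T j := fun ω h =>
  ⟨fun i hi => h.1 i (by omega), le_trans (by rw [CV_succ]; linarith [(DD'_bd (μ := μ) (ℱ := ℱ) (A := A) (T + j) ω).1]) h.2⟩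

/-- the test process -/
noncomputable def QC (μ : Measure Ω) (ℱ : Filtration ℕ m0) (A : ℕ → Set Ω) (T : ℕ) (W x θ a b M α β γ : ℝ) (j : ℕ)
    (ω : Ω) : ℝ := qc x θ a b M α β γ (W - CV μ ℱ A T j ω) (CN A T j ω)

lemma QC_eq (T : ℕ) (W x θ a b M α β γ : ℝ) (j : ℕ) : QC μ ℱ A T W x θ a b M α β γ j = fun ω =>
    Real.exp (-M) * EX μ ℱ A T W x α j ω - Real.exp (θ * a - M) * EX μ ℱ A T W (x - θ) β j ω
    - Real.exp (-(θ * b) - M) * EX μ ℱ A T W (x + θ) γ j ω := rfl

lemma QC_int (hA : ∀ n, MeasurableSet[ℱ n] (A n)) (T : ℕ) (W x θ a b M α β γ : ℝ) (j : ℕ) :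
    Integrable (QC μ ℱ A T W x θ a b M α β γ j) μ := by
  rw [QC_eq]
  exact (((EX_int hA T W x α j).const_mul _).sub ((EX_int hA T W (x - θ) β j).const_mul _)).sub
    ((EX_int hA T W (x + θ) γ j).const_mul _)

lemma QC_set (hA : ∀ n, MeasurableSet[ℱ n] (A n)) (T : ℕ) (W x θ a b M α β γ : ℝ) (j : ℕ)
    (C : Set Ω) : ∫ ω in C, QC μ ℱ A T W x θ a b M α β γ j ω ∂μ =
    Real.exp (-M) * ∫ ω in C, EX μ ℱ A T W x α j ω ∂μ
    - Real.exp (θ * a - M) * ∫ ω in C, EX μ ℱ A T W (x - θ) β j ω ∂μ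
    - Real.exp (-(θ * b) - M) * ∫ ω in C, EX μ ℱ A T W (x + θ) γ j ω ∂μ := by
  have i1 := (((EX_int (μ := μ) hA T W x α j).const_mul (Real.exp (-M))).integrableOn (s := C))
  have i2 := (((EX_int (μ := μ) hA T W (x - θ) β j).const_mul (Real.exp (θ * a - M))).integrableOn (s := C))
  have i3 := (((EX_int (μ := μ) hA T W (x + θ) γ j).const_mul (Real.exp (-(θ * b) - M))).integrableOn (s := C))
  rw [QC_eq]
  have h1 := integral_sub (i1.sub i2) i3
  have h2 := integral_sub i1 i2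
  simp only [Pi.sub_apply] at h1 h2
  rw [h1, h2, integral_const_mul, integral_const_mul, integral_const_mul]

/-- **large deviations with respect to the compensator, lower bound** -/
theorem cl_lower (hA : ∀ n, MeasurableSet[ℱ n] (A n)) {T H : ℕ} {x θ a b M u W r ζ : ℝ} (hθ : 0 < θ)
    (hMa : x * a ≤ M) (hMb : x * b ≤ M) (hu0 : 0 ≤ u) (hu : u * |Real.exp x - 1| ≤ 1 / 2) (hW : 0 ≤ W) (_hr : 0 ≤ r)
    (hζ : Real.exp x * r ≤ ζ) {C : Set Ω} (hC : MeasurableSet[ℱ T] C) :
    qc x θ a b M (Real.exp x - 1 - 2 * u * (Real.exp x - 1) ^ 2) (Real.exp (x - θ) - 1) (Real.exp (x + θ) - 1) W 0 * μ.real C ≤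
      μ.real (C ∩ ({ω | a - ζ ≤ CN A T H ω ∧ CN A T H ω ≤ b} ∪ (GV μ ℱ A u W T H)ᶜ ∪ {ω | CV μ ℱ A T H ω < W - r})) := by
  set α : ℝ := Real.exp x - 1 - 2 * u * (Real.exp x - 1) ^ 2 with hα
  set β : ℝ := Real.exp (x - θ) - 1 with hβ
  set γ : ℝ := Real.exp (x + θ) - 1 with hγ
  have hex := Real.exp_pos x
  have hα1 : α ≤ Real.exp x - 1 := by
    have : 0 ≤ 2 * u * (Real.exp x - 1) ^ 2 := by positivity
    rw [hα]; linarith
  have hβ1 : Real.exp x - 1 - θ * Real.exp x ≤ β := by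
    have h := Real.add_one_le_exp (-θ)
    have e : Real.exp (x - θ) = Real.exp x * Real.exp (-θ) := by rw [← Real.exp_add]; congr 1
    have h2 := mul_le_mul_of_nonneg_left h hex.le
    rw [hβ, e]; linarith
  have hγ1 : Real.exp x - 1 + θ * Real.exp x ≤ γ := by
    have h := Real.add_one_le_exp θ
    have e : Real.exp (x + θ) = Real.exp x * Real.exp θ := Real.exp_add _ _
    have h2 := mul_le_mul_of_nonneg_left h hex.le
    rw [hγ, e]; linarith
  have hγα : α ≤ γ := by
    have : 0 ≤ θ * Real.exp x := by positivity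
    linarith
  set Q : ℕ → Ω → ℝ := QC μ ℱ A T W x θ a b M α β γ with hQ
  set G : ℕ → Set Ω := GV μ ℱ A u W T with hG
  have hC0 : MeasurableSet C := ℱ.le _ _ hC
  have hG0 : ∀ j, MeasurableSet (G j) := fun j => ℱ.le _ _ (GV_meas' hW T j)
  have hQ1 : ∀ j ω, ω ∈ G j → Q j ω ≤ 1 := fun j ω hω =>
    qc_le_one hθ hMa hMb (by have := hω.2; linarith) hα1 hβ1 hγ1
  have hQi : ∀ j, Integrable (Q j) μ := fun j => QC_int hA T W x θ a b M α β γ j
  have setle : ∀ j (C' : Set Ω), MeasurableSet C' → C' ⊆ G j → ∫ ω in C', Q j ω ∂μ ≤ μ.real C' := by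
    intro j C' hC' hsub
    have h1 : ∫ ω in C', Q j ω ∂μ ≤ ∫ ω in C', (1 : ℝ) ∂μ :=
      setIntegral_mono_on (hQi j).integrableOn (integrable_const _).integrableOn hC' fun ω hω => hQ1 j ω (hsub hω)
    simpa using h1
  set Φ : ℕ → ℝ := fun j => ∫ ω in C ∩ G j, Q j ω ∂μ + μ.real (C \ G j) with hΦ
  have step : ∀ j, Φ j ≤ Φ (j + 1) := by
    intro j
    have hsub : G (j + 1) ⊆ G j := GV_anti u W T j
    have e1 : C ∩ G j ∩ G (j + 1) = C ∩ G (j + 1) := by
      rw [inter_assoc, inter_eq_right.2 hsub]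
    have e2 := integral_inter_add_sdiff (μ := μ) (s := C ∩ G j) (hG0 (j + 1)) (hQi j).integrableOn
    rw [e1] at e2
    have e3 : ∫ ω in (C ∩ G j) \ G (j + 1), Q j ω ∂μ ≤ μ.real ((C ∩ G j) \ G (j + 1)) :=
      setle j _ ((hC0.inter (hG0 j)).diff (hG0 (j + 1))) (sdiff_subset.trans inter_subset_right)
    have hCm : MeasurableSet[ℱ (T + j)] (C ∩ G (j + 1)) := (ℱ.mono (by omega) _ hC).inter (GV_meas u W T j)
    have e4 : ∫ ω in C ∩ G (j + 1), Q j ω ∂μ ≤ ∫ ω in C ∩ G (j + 1), Q (j + 1) ω ∂μ := by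
      rw [hQ, QC_set hA, QC_set hA]
      have k1 := mul_le_mul_of_nonneg_left (EX_lo (μ := μ) hA T (W := W) (x := x) j hCm hu
        (fun ω hω => hω.2.1 j (by omega))) (Real.exp_pos (-M)).le
      have k2 := mul_le_mul_of_nonneg_left (EX_up (μ := μ) hA T W (x - θ) j hCm) (Real.exp_pos (θ * a - M)).le
      have k3 := mul_le_mul_of_nonneg_left (EX_up (μ := μ) hA T W (x + θ) j hCm) (Real.exp_pos (-(θ * b) - M)).le
      linarith
    have e5 : μ.real (C \ G (j + 1)) = μ.real ((C ∩ G j) \ G (j + 1)) + μ.real (C \ G j) := by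
      have e6 : C \ G (j + 1) = (C ∩ G j) \ G (j + 1) ∪ C \ G j := by
        ext ω
        simp only [Set.mem_sdiff, mem_union, mem_inter_iff]
        constructor
        · rintro ⟨a1, a2⟩
          by_cases a3 : ω ∈ G j
          · exact Or.inl ⟨⟨a1, a3⟩, a2⟩
          · exact Or.inr ⟨a1, a3⟩
        · rintro (⟨⟨a1, _⟩, a2⟩ | ⟨a1, a2⟩)
          · exact ⟨a1, a2⟩
          · exact ⟨a1, fun a3 => a2 (hsub a3)⟩
      rw [e6]
      refine measureReal_union ?_ (hC0.diff (hG0 j))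
      rw [Set.disjoint_left]
      rintro ω ⟨⟨_, a1⟩, _⟩ ⟨_, a2⟩
      exact a2 a1
    simp only [hΦ]
    rw [e5, ← e2]
    linarith
  have hmon : ∀ j, Φ 0 ≤ Φ j := by
    intro j
    induction j with
    | zero => exact le_rfl
    | succ j ih => exact ih.trans (step j)
  have hfin := hmon H
  have hG00 : G 0 = univ := by ext ω; simp [hG, GV, CV, hW]
  have e0 : Φ 0 = qc x θ a b M α β γ W 0 * μ.real C := by
    simp only [hΦ, hG00, inter_univ, sdiff_univ, measureReal_empty, add_zero]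
    have : ∀ ω, Q 0 ω = qc x θ a b M α β γ W 0 := by
      intro ω
      simp [hQ, QC, CN, CV]
    simp only [this]
    rw [setIntegral_const, smul_eq_mul, mul_comm]
  set S : Set Ω := {ω | a - ζ ≤ CN A T H ω ∧ CN A T H ω ≤ b} ∪ {ω | CV μ ℱ A T H ω < W - r} with hS
  have hNm : Measurable (CN A T H) := ((CN_meas hA T H).mono (ℱ.le _)).measurable
  have hVm : Measurable (CV μ ℱ A T H) := ((CV_meas' (μ := μ) (ℱ := ℱ) (A := A) T H).mono (ℱ.le _)).measurable
  have hSm : MeasurableSet S :=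
    ((measurableSet_le measurable_const hNm).inter (measurableSet_le hNm measurable_const)).union
      (measurableSet_lt hVm measurable_const)
  have e7 : ∫ ω in C ∩ G H, Q H ω ∂μ ≤ μ.real ((C ∩ G H) ∩ S) := by
    have e8 := integral_inter_add_sdiff (μ := μ) (s := C ∩ G H) hSm (hQi H).integrableOn
    have e9 : ∫ ω in (C ∩ G H) \ S, Q H ω ∂μ ≤ 0 := by
      apply setIntegral_nonpos (((hC0.inter (hG0 H))).diff hSm)
      rintro ω ⟨⟨_, hω1⟩, hω⟩
      simp only [hS, mem_union, mem_ofPred_eq, not_or, not_and_or, not_le, not_lt] at hω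
      obtain ⟨hω2, hω3⟩ := hω
      have hR0 : 0 ≤ W - CV μ ℱ A T H ω := by have := hω1.2; linarith
      have hR1 : W - CV μ ℱ A T H ω ≤ r := by linarith
      refine qc_end hθ hR0 ?_ hγα hω2
      have h1 : (α - β) * (W - CV μ ℱ A T H ω) ≤ (θ * Real.exp x) * (W - CV μ ℱ A T H ω) :=
        mul_le_mul_of_nonneg_right (by linarith) hR0
      have h2 : (θ * Real.exp x) * (W - CV μ ℱ A T H ω) ≤ (θ * Real.exp x) * r :=
        mul_le_mul_of_nonneg_left hR1 (by positivity)
      have h3 : θ * (Real.exp x * r) ≤ θ * ζ := mul_le_mul_of_nonneg_left hζ hθ.le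
      linarith
    have e10 := setle H ((C ∩ G H) ∩ S) ((hC0.inter (hG0 H)).inter hSm) (inter_subset_left.trans inter_subset_right)
    linarith
  have e11 : μ.real (C ∩ ({ω | a - ζ ≤ CN A T H ω ∧ CN A T H ω ≤ b} ∪ (G H)ᶜ ∪ {ω | CV μ ℱ A T H ω < W - r})) =
      μ.real ((C ∩ G H) ∩ S) + μ.real (C \ G H) := by
    have e12 : C ∩ ({ω | a - ζ ≤ CN A T H ω ∧ CN A T H ω ≤ b} ∪ (G H)ᶜ ∪ {ω | CV μ ℱ A T H ω < W - r}) =
        (C ∩ G H) ∩ S ∪ C \ G H := by
      ext ω
      simp only [hS, Set.mem_sdiff, mem_union, mem_inter_iff, mem_compl_iff]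
      tauto
    rw [e12]
    refine measureReal_union ?_ (hC0.diff (hG0 H))
    rw [Set.disjoint_left]
    rintro ω ⟨⟨_, a1⟩, _⟩ ⟨_, a2⟩
    exact a2 a1
  rw [e11, ← e0]
  refine hfin.trans ?_
  simp only [hΦ]
  linarith

end Pool.Agent.N417.CL
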