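import Mathlib
import Pool.Agent.N417.CL.B

/-!
# Large deviations with respect to the compensator: sequences of windows
-/

set_option autoImplicit false
set_option linter.unusedSectionVars false

open MeasureTheory Filter Set
open scoped ENNReal Topology

namespace Pool.Agent.N417.CL

open Pool.Agent.R528.RM Pool.Agent.N740.HK Pool.Agent.N417.LD

lemma hh_exp (x : ℝ) : hh (Real.exp x) = x * Real.exp x - Real.exp x + 1 := by
  unfold hh
  rw [Real.log_exp]
  ring

lemma params_cl {x c ε : ℝ} (hc : 0 < c) (h : c * hh (Real.exp x) < 1) (hε : 0 < ε) :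
    ∃ θ η δ : ℝ, 0 < θ ∧ 0 < η ∧ η < c ∧ 0 < δ ∧ η * |Real.exp x - 1| ≤ 1 / 2 ∧
      (c + η) * (max (x * Real.exp (x - 2 * θ)) (x * Real.exp (x + 2 * θ)) - (Real.exp x - 1 - 2 * η * (Real.exp x - 1) ^ 2)) < 1 ∧
      c * Real.exp x - ε < (c + η) * Real.exp (x - 2 * θ) - Real.exp x * (2 * η) ∧
      (c + η) * Real.exp (x + 2 * θ) < c * Real.exp x + ε ∧
      θ * Real.exp (x - 2 * θ) + (Real.exp (x - θ) - 1) ≤ (Real.exp x - 1 - 2 * η * (Real.exp x - 1) ^ 2) - δ ∧
      -(θ * Real.exp (x + 2 * θ)) + (Real.exp (x + θ) - 1) ≤ (Real.exp x - 1 - 2 * η * (Real.exp x - 1) ^ 2) - δ := by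
  have m1 : Tendsto (fun θ : ℝ => c * (max (x * Real.exp (x - 2 * θ)) (x * Real.exp (x + 2 * θ)) - (Real.exp x - 1))) (𝓝 0)
      (𝓝 (c * hh (Real.exp x))) := by
    have : Continuous (fun θ : ℝ => c * (max (x * Real.exp (x - 2 * θ)) (x * Real.exp (x + 2 * θ)) - (Real.exp x - 1))) := by
      fun_prop
    have h := this.tendsto 0
    simp only [mul_zero, sub_zero, add_zero, max_self] at h
    rw [hh_exp]
    convert h using 2
    ring
  have m2 : Tendsto (fun θ : ℝ => c * Real.exp (x - 2 * θ)) (𝓝 0) (𝓝 (c * Real.exp x)) := by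
    have : Continuous (fun θ : ℝ => c * Real.exp (x - 2 * θ)) := by fun_prop
    have h := this.tendsto 0
    simpa only [mul_zero, sub_zero] using h
  have m3 : Tendsto (fun θ : ℝ => c * Real.exp (x + 2 * θ)) (𝓝 0) (𝓝 (c * Real.exp x)) := by
    have : Continuous (fun θ : ℝ => c * Real.exp (x + 2 * θ)) := by fun_prop
    have h := this.tendsto 0
    simpa only [mul_zero, add_zero] using h
  obtain ⟨θ, hθ, t1, t2, t3⟩ : ∃ θ : ℝ, 0 < θ ∧
      c * (max (x * Real.exp (x - 2 * θ)) (x * Real.exp (x + 2 * θ)) - (Real.exp x - 1)) < 1 ∧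
      c * Real.exp x - ε < c * Real.exp (x - 2 * θ) ∧ c * Real.exp (x + 2 * θ) < c * Real.exp x + ε := by
    have j1 : ∀ᶠ θ : ℝ in 𝓝[>] 0, 0 < θ := eventually_mem_nhdsWithin
    have j2 := (m1.eventually_lt_const h).filter_mono (nhdsWithin_le_nhds (s := Ioi (0 : ℝ)))
    have j3 := (m2.eventually_const_lt (show c * Real.exp x - ε < c * Real.exp x by linarith)).filter_mono
      (nhdsWithin_le_nhds (s := Ioi (0 : ℝ)))
    have j4 := (m3.eventually_lt_const (show c * Real.exp x < c * Real.exp x + ε by linarith)).filter_mono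
      (nhdsWithin_le_nhds (s := Ioi (0 : ℝ)))
    obtain ⟨θ, a1, a2, a3, a4⟩ := (j1.and (j2.and (j3.and j4))).exists
    exact ⟨θ, a1, a2, a3, a4⟩
  have d1 : 0 < θ * (Real.exp (x - θ) - Real.exp (x - 2 * θ)) := by
    have := Real.exp_lt_exp.2 (show x - 2 * θ < x - θ by linarith)
    exact mul_pos hθ (by linarith)
  have d2 : 0 < θ * (Real.exp (x + 2 * θ) - Real.exp (x + θ)) := by
    have := Real.exp_lt_exp.2 (show x + θ < x + 2 * θ by linarith)
    exact mul_pos hθ (by linarith)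
  have f1 : Real.exp (x - θ) - 1 ≤ Real.exp x - 1 - θ * Real.exp (x - θ) := by
    have h := Real.add_one_le_exp θ
    have e : Real.exp x = Real.exp (x - θ) * Real.exp θ := by rw [← Real.exp_add]; congr 1; ring
    have h2 := mul_le_mul_of_nonneg_left h (Real.exp_pos (x - θ)).le
    rw [e]; linarith
  have f2 : Real.exp (x + θ) - 1 ≤ Real.exp x - 1 + θ * Real.exp (x + θ) := by
    have h := Real.add_one_le_exp (-θ)
    have e : Real.exp x = Real.exp (x + θ) * Real.exp (-θ) := by rw [← Real.exp_add]; congr 1; ring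
    have h2 := mul_le_mul_of_nonneg_left h (Real.exp_pos (x + θ)).le
    rw [e]; linarith
  set d : ℝ := min (θ * (Real.exp (x - θ) - Real.exp (x - 2 * θ))) (θ * (Real.exp (x + 2 * θ) - Real.exp (x + θ))) with hd
  have hd0 : 0 < d := lt_min d1 d2
  have n1 : Tendsto (fun η : ℝ => (c + η) * (max (x * Real.exp (x - 2 * θ)) (x * Real.exp (x + 2 * θ)) -
      (Real.exp x - 1 - 2 * η * (Real.exp x - 1) ^ 2))) (𝓝 0)
      (𝓝 (c * (max (x * Real.exp (x - 2 * θ)) (x * Real.exp (x + 2 * θ)) - (Real.exp x - 1)))) := by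
    have : Continuous (fun η : ℝ => (c + η) * (max (x * Real.exp (x - 2 * θ)) (x * Real.exp (x + 2 * θ)) -
      (Real.exp x - 1 - 2 * η * (Real.exp x - 1) ^ 2))) := by fun_prop
    have h := this.tendsto 0
    simpa only [mul_zero, zero_mul, sub_zero, add_zero] using h
  have n2 : Tendsto (fun η : ℝ => (c + η) * Real.exp (x - 2 * θ) - Real.exp x * (2 * η)) (𝓝 0) (𝓝 (c * Real.exp (x - 2 * θ))) := by
    have : Continuous (fun η : ℝ => (c + η) * Real.exp (x - 2 * θ) - Real.exp x * (2 * η)) := by fun_prop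
    have h := this.tendsto 0
    simpa only [mul_zero, sub_zero, add_zero] using h
  have n3 : Tendsto (fun η : ℝ => (c + η) * Real.exp (x + 2 * θ)) (𝓝 0) (𝓝 (c * Real.exp (x + 2 * θ))) := by
    have : Continuous (fun η : ℝ => (c + η) * Real.exp (x + 2 * θ)) := by fun_prop
    have h := this.tendsto 0
    simpa only [add_zero] using h
  have n4 : Tendsto (fun η : ℝ => η * |Real.exp x - 1|) (𝓝 0) (𝓝 0) := by
    have : Continuous (fun η : ℝ => η * |Real.exp x - 1|) := by fun_prop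
    have h := this.tendsto 0
    simpa only [zero_mul] using h
  have n5 : Tendsto (fun η : ℝ => 2 * η * (Real.exp x - 1) ^ 2) (𝓝 0) (𝓝 0) := by
    have : Continuous (fun η : ℝ => 2 * η * (Real.exp x - 1) ^ 2) := by fun_prop
    have h := this.tendsto 0
    simpa only [mul_zero, zero_mul] using h
  have k1 : ∀ᶠ η : ℝ in 𝓝[>] 0, 0 < η := eventually_mem_nhdsWithin
  have k2 : ∀ᶠ η : ℝ in 𝓝[>] 0, η < c := (eventually_lt_nhds hc).filter_mono nhdsWithin_le_nhds
  have k3 := (n1.eventually_lt_const t1).filter_mono (nhdsWithin_le_nhds (s := Ioi (0 : ℝ)))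
  have k4 := (n2.eventually_const_lt t2).filter_mono (nhdsWithin_le_nhds (s := Ioi (0 : ℝ)))
  have k5 := (n3.eventually_lt_const t3).filter_mono (nhdsWithin_le_nhds (s := Ioi (0 : ℝ)))
  have k6 := (n4.eventually_le_const (show (0 : ℝ) < 1 / 2 by norm_num)).filter_mono (nhdsWithin_le_nhds (s := Ioi (0 : ℝ)))
  have k7 := (n5.eventually_le_const (show (0 : ℝ) < d / 2 by positivity)).filter_mono (nhdsWithin_le_nhds (s := Ioi (0 : ℝ)))
  obtain ⟨η, a1, a2, a3, a4, a5, a6, a7⟩ := (k1.and (k2.and (k3.and (k4.and (k5.and (k6.and k7)))))).exists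
  have g1 : d ≤ θ * (Real.exp (x - θ) - Real.exp (x - 2 * θ)) := min_le_left _ _
  have g2 : d ≤ θ * (Real.exp (x + 2 * θ) - Real.exp (x + θ)) := min_le_right _ _
  refine ⟨θ, η, d / 2, hθ, a1, a2, by positivity, a6, a3, a4, a5, ?_, ?_⟩ <;> linarith

variable {Ω : Type} {m0 : MeasurableSpace Ω} {μ : Measure Ω} [IsProbabilityMeasure μ]
  {ℱ : Filtration ℕ m0} {A : ℕ → Set Ω}

/-- the compensators of the windows are asymptotic to `c log k`, and the conditional probabilities tend to `0` -/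
def GoodC (μ : Measure Ω) (ℱ : Filtration ℕ m0) (A : ℕ → Set Ω) (T H : ℕ → ℕ) (c : ℝ) (ω : Ω) : Prop :=
  Tendsto (fun k : ℕ => CV μ ℱ A (T k) (H k) ω / Real.log k) atTop (𝓝 c) ∧
    ∀ η : ℝ, 0 < η → ∀ᶠ k : ℕ in atTop, ∀ i, i < H k → DD' μ ℱ A (T k + i) ω ≤ η

/-- **lower bound** -/
theorem cl_io (hA : ∀ n, MeasurableSet[ℱ n] (A n)) {T H : ℕ → ℕ} {c : ℝ} (hc : 0 < c)
    (hTH : ∀ k, T k + H k ≤ T (k + 1)) (hg : ∀ᵐ ω ∂μ, GoodC μ ℱ A T H c ω) {x : ℝ} (hx : c * hh (Real.exp x) < 1) :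
    ∀ᵐ ω ∂μ, ∀ ε : ℝ, 0 < ε → ∀ K : ℕ, ∃ k, K ≤ k ∧ |CN A (T k) (H k) ω / Real.log k - c * Real.exp x| < ε := by
  have hmono : Monotone T := monotone_nat_of_le_succ fun k => by have := hTH k; omega
  have hΛl : Tendsto (fun k : ℕ => Real.log (k : ℝ)) atTop atTop := Real.tendsto_log_atTop.comp tendsto_natCast_atTop_atTop
  have main : ∀ ε : ℝ, 0 < ε → ∀ᵐ ω ∂μ, ∀ K : ℕ, ∃ k, K ≤ k ∧
      |CN A (T k) (H k) ω / Real.log k - c * Real.exp x| < ε := by
    intro ε hε
    obtain ⟨θ, η, δ, hθ, hη, hηc, hδ, hu, c1, c2, c3, c4, c5⟩ := params_cl hc hx hε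
    set w : ℝ := c + η with hw
    have hw0 : 0 < w := by positivity
    set Λ : ℕ → ℝ := fun k => max (Real.log k) 0 with hΛ
    have hΛ0 : ∀ k, 0 ≤ Λ k := fun k => le_max_right _ _
    set m : ℝ := max (x * Real.exp (x - 2 * θ)) (x * Real.exp (x + 2 * θ)) with hm
    set D : ℕ → Set Ω := fun k => {ω | w * Λ k * Real.exp (x - 2 * θ) - Real.exp x * (2 * η * Λ k) ≤ CN A (T k) (H k) ω ∧
        CN A (T k) (H k) ω ≤ w * Λ k * Real.exp (x + 2 * θ)} ∪ (GV μ ℱ A η (w * Λ k) (T k) (H k))ᶜ ∪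
        {ω | CV μ ℱ A (T k) (H k) ω < w * Λ k - 2 * η * Λ k} with hD
    have hDm : ∀ k, MeasurableSet[ℱ (T (k + 1))] (D k) := by
      intro k
      refine ℱ.mono (hTH k) _ ?_
      have hN := (CN_meas hA (T k) (H k)).measurable
      have hV := (CV_meas' (μ := μ) (ℱ := ℱ) (A := A) (T k) (H k)).measurable
      exact (((measurableSet_le (@measurable_const _ _ _ (ℱ (T k + H k)) _) hN).inter
        (measurableSet_le hN (@measurable_const _ _ _ (ℱ (T k + H k)) _))).union
          (GV_meas' (mul_nonneg hw0.le (hΛ0 k)) _ _).compl).union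
          (measurableSet_lt hV (@measurable_const _ _ _ (ℱ (T k + H k)) _))
    have hpk : ∃ k₀, ∀ k, k₀ ≤ k → ∀ C, MeasurableSet[ℱ (T k)] C → (1 / 2 * (1 / ((k : ℝ) + 1))) * μ.real C ≤ μ.real (C ∩ D k) := by
      apply eventually_atTop.1
      filter_upwards [hΛl.eventually_ge_atTop (2 / (δ * w)), hΛl.eventually_gt_atTop 0, eventually_ge_atTop 2] with k q1 q2 q3 C hC
      have hk0 : (0 : ℝ) < k := by exact_mod_cast (by omega : 0 < k)
      have hΛk : Λ k = Real.log k := max_eq_left q2.le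
      have hL : 2 ≤ δ * (w * Λ k) := by
        rw [div_le_iff₀ (by positivity)] at q1
        rw [hΛk]
        linarith
      have hWk : 0 < w * Λ k := by rw [hΛk]; positivity
      have key := cl_lower (μ := μ) (T := T k) (H := H k) (x := x) (θ := θ) (a := w * Λ k * Real.exp (x - 2 * θ))
        (b := w * Λ k * Real.exp (x + 2 * θ)) (M := w * Λ k * m) (u := η) (W := w * Λ k) (r := 2 * η * Λ k)
        (ζ := Real.exp x * (2 * η * Λ k)) hA hθ
        (by
          have : x * Real.exp (x - 2 * θ) ≤ m := le_max_left _ _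
          calc x * (w * Λ k * Real.exp (x - 2 * θ)) = w * Λ k * (x * Real.exp (x - 2 * θ)) := by ring
            _ ≤ _ := mul_le_mul_of_nonneg_left this hWk.le)
        (by
          have : x * Real.exp (x + 2 * θ) ≤ m := le_max_right _ _
          calc x * (w * Λ k * Real.exp (x + 2 * θ)) = w * Λ k * (x * Real.exp (x + 2 * θ)) := by ring
            _ ≤ _ := mul_le_mul_of_nonneg_left this hWk.le)
        hη.le hu hWk.le (mul_nonneg (by positivity) (hΛ0 k)) le_rfl hC
      refine le_trans (mul_le_mul_of_nonneg_right ?_ measureReal_nonneg) key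
      unfold qc
      simp only [mul_zero, zero_add]
      rw [← Real.exp_add, ← Real.exp_add, ← Real.exp_add]
      set α : ℝ := Real.exp x - 1 - 2 * η * (Real.exp x - 1) ^ 2 with hα
      set E : ℝ := Real.exp (-(w * Λ k * m) + α * (w * Λ k)) with hE
      have hE0 : 0 < E := Real.exp_pos _
      have hsm : Real.exp (-2 : ℝ) ≤ 1 / 4 := by
        rw [Real.exp_neg, inv_eq_one_div]
        apply one_div_le_one_div_of_le (by norm_num)
        have h3 := Real.quadratic_le_exp_of_nonneg (show (0 : ℝ) ≤ 2 by norm_num)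
        linarith
      have t2 : Real.exp (θ * (w * Λ k * Real.exp (x - 2 * θ)) - w * Λ k * m + (Real.exp (x - θ) - 1) * (w * Λ k)) ≤ E * (1 / 4) := by
        refine le_trans ?_ (mul_le_mul_of_nonneg_left hsm hE0.le)
        rw [hE, ← Real.exp_add]
        apply Real.exp_le_exp.2
        have := mul_le_mul_of_nonneg_left c4 hWk.le
        linarith
      have t3 : Real.exp (-(θ * (w * Λ k * Real.exp (x + 2 * θ))) - w * Λ k * m + (Real.exp (x + θ) - 1) * (w * Λ k)) ≤ E * (1 / 4) := by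
        refine le_trans ?_ (mul_le_mul_of_nonneg_left hsm hE0.le)
        rw [hE, ← Real.exp_add]
        apply Real.exp_le_exp.2
        have := mul_le_mul_of_nonneg_left c5 hWk.le
        linarith
      have t4 : 1 / ((k : ℝ) + 1) ≤ E := by
        have e1 : w * (m - α) * Λ k ≤ 1 * Λ k := mul_le_mul_of_nonneg_right c1.le (hΛ0 k)
        have e2 : Real.exp (-Real.log k) ≤ E := by
          rw [hE]
          apply Real.exp_le_exp.2
          rw [← hΛk]
          linarith
        rw [Real.exp_neg, Real.exp_log hk0, ← one_div] at e2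
        exact (one_div_le_one_div_of_le hk0 (by linarith)).trans e2
      linarith
    obtain ⟨k₀, hk₀⟩ := hpk
    have hsum : Tendsto (fun n => ∑ k ∈ Finset.range n, (1 / 2 * (1 / ((k : ℝ) + 1)))) atTop atTop := by
      have h1 := Real.tendsto_sum_range_one_div_nat_succ_atTop.const_mul_atTop (show (0 : ℝ) < 1 / 2 by norm_num)
      refine h1.congr fun n => ?_
      rw [Finset.mul_sum]
    have h1 := trials_io (μ := μ) (ℱ := ℱ) hmono hDm hk₀ hsum
    filter_upwards [h1, hg] with ω h2 h3 K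
    obtain ⟨K', hK'⟩ := eventually_atTop.1 ((h3.2 η hη).and ((h3.1.eventually_le_const (show c < c + η by linarith)).and
      ((h3.1.eventually_const_le (show c - η < c by linarith)).and (hΛl.eventually_gt_atTop 0))))
    obtain ⟨k, hk, hk2⟩ := h2 (max K K')
    obtain ⟨g1, g2, g3, g4⟩ := hK' k ((le_max_right _ _).trans hk)
    refine ⟨k, (le_max_left _ _).trans hk, ?_⟩
    have hΛk : Λ k = Real.log k := max_eq_left g4.le
    rw [div_le_iff₀ g4] at g2
    rw [le_div_iff₀ g4] at g3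
    simp only [hD, hΛk] at hk2
    rcases hk2 with (h5 | h5) | h5
    · obtain ⟨h6, h7⟩ := h5
      have f1 : w * Real.exp (x - 2 * θ) - Real.exp x * (2 * η) ≤ CN A (T k) (H k) ω / Real.log k := by
        rw [le_div_iff₀ g4]
        linarith
      have f2 : CN A (T k) (H k) ω / Real.log k ≤ w * Real.exp (x + 2 * θ) := by
        rw [div_le_iff₀ g4]
        linarith
      rw [abs_lt]
      constructor <;> linarith
    · exact absurd ⟨g1, by rw [hw]; exact g2⟩ h5
    · exfalso
      have h6 : CV μ ℱ A (T k) (H k) ω < w * Real.log k - 2 * η * Real.log k := h5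
      rw [hw] at h6
      linarith
  have hall : ∀ᵐ ω ∂μ, ∀ m : ℕ, ∀ K : ℕ, ∃ k, K ≤ k ∧
      |CN A (T k) (H k) ω / Real.log k - c * Real.exp x| < 1 / ((m : ℝ) + 1) := by
    rw [ae_all_iff]
    intro m
    exact main _ (by positivity)
  filter_upwards [hall] with ω hω ε hε K
  obtain ⟨m, hm⟩ := exists_nat_one_div_lt hε
  obtain ⟨k, hk, hk2⟩ := hω m K
  exact ⟨k, hk, hk2.trans hm⟩

/-- **upper bound** -/
theorem cl_ub (hA : ∀ n, MeasurableSet[ℱ n] (A n)) {T H : ℕ → ℕ} {c : ℝ}
    (hg : ∀ᵐ ω ∂μ, GoodC μ ℱ A T H c ω) {x : ℝ} (hx0 : x ≠ 0) (hx : 1 < c * hh (Real.exp x)) :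
    ∀ᵐ ω ∂μ, ∀ᶠ k : ℕ in atTop, x * (CN A (T k) (H k) ω / Real.log k) < x * (c * Real.exp x) := by
  have hΛl : Tendsto (fun k : ℕ => Real.log (k : ℝ)) atTop atTop := Real.tendsto_log_atTop.comp tendsto_natCast_atTop_atTop
  set z : ℝ := Real.exp x - 1 with hz
  have hz0 : z ≠ 0 := by
    rw [hz]
    intro h
    have : Real.exp x = 1 := by linarith
    exact hx0 (Real.exp_eq_one_iff x |>.1 this)
  obtain ⟨η, hη, hηI⟩ : ∃ η : ℝ, 0 < η ∧ 1 < c * hh (Real.exp x) - η * z ^ 2 := by
    have m1 : Tendsto (fun η : ℝ => c * hh (Real.exp x) - η * z ^ 2) (𝓝 0) (𝓝 (c * hh (Real.exp x))) := by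
      have : Continuous (fun η : ℝ => c * hh (Real.exp x) - η * z ^ 2) := by fun_prop
      have h := this.tendsto 0
      simpa using h
    have j1 : ∀ᶠ η : ℝ in 𝓝[>] 0, 0 < η := eventually_mem_nhdsWithin
    have j3 := (m1.eventually_const_lt hx).filter_mono (nhdsWithin_le_nhds (s := Ioi (0 : ℝ)))
    obtain ⟨η, a1, a3⟩ := (j1.and j3).exists
    exact ⟨η, a1, a3⟩
  set δ : ℝ := c * hh (Real.exp x) - η * z ^ 2 with hδ
  set E : ℕ → Set Ω := fun k => {ω | x * (c * Real.exp x * Real.log k) ≤ x * CN A (T k) (H k) ω ∧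
    (Real.exp x - 1) * CV μ ℱ A (T k) (H k) ω ≤ (Real.exp x - 1) * ((c + η * z) * Real.log k)} with hE
  have hbd : ∀ᶠ k : ℕ in atTop, μ.real (E k) ≤ (k : ℝ) ^ (-δ) := by
    filter_upwards [eventually_ge_atTop 2] with k q5
    have hk0 : (0 : ℝ) < k := by exact_mod_cast (by omega : 0 < k)
    have h1 := cl_upper (μ := μ) (ℱ := ℱ) (A := A) hA (T k) (H k) x (c * Real.exp x * Real.log k) ((c + η * z) * Real.log k)
    refine h1.trans ?_
    rw [Real.rpow_def_of_pos hk0]
    apply Real.exp_le_exp.2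
    rw [hδ, hh_exp]
    apply le_of_eq
    rw [hz]
    ring
  have hsum : ∑' k : ℕ, μ (E k) ≠ ∞ := by
    have h1 : Summable (fun k : ℕ => (k : ℝ) ^ (-δ)) := Real.summable_nat_rpow.2 (by linarith)
    have h2 : Summable (fun k : ℕ => μ.real (E k)) := by
      refine Summable.of_norm_bounded_eventually_nat h1 ?_
      filter_upwards [hbd] with k hk
      rw [Real.norm_of_nonneg measureReal_nonneg]
      exact hk
    have h3 : ∑' n : ℕ, μ (E n) = ENNReal.ofReal (∑' n : ℕ, μ.real (E n)) := by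
      rw [ENNReal.ofReal_tsum_of_nonneg (fun _ => measureReal_nonneg) h2]
      congr 1
      funext i
      exact (ofReal_measureReal (measure_ne_top _ _)).symm
    rw [h3]
    exact ENNReal.ofReal_ne_top
  filter_upwards [ae_eventually_notMem hsum, hg] with ω h1 h2
  have h3 : Tendsto (fun k : ℕ => z * (CV μ ℱ A (T k) (H k) ω / Real.log k)) atTop (𝓝 (z * c)) := h2.1.const_mul z
  have h4 : z * c < z * (c + η * z) := by
    have : 0 < η * z ^ 2 := by positivity
    nlinarith
  filter_upwards [h1, h3.eventually_lt_const h4, hΛl.eventually_gt_atTop 0] with k h5 h6 h7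
  by_contra hcon
  push Not at hcon
  apply h5
  have e1 : x * CN A (T k) (H k) ω = x * (CN A (T k) (H k) ω / Real.log k) * Real.log k := by field_simp
  have e2 : z * CV μ ℱ A (T k) (H k) ω = z * (CV μ ℱ A (T k) (H k) ω / Real.log k) * Real.log k := by field_simp
  refine ⟨?_, ?_⟩
  · rw [e1]
    calc x * (c * Real.exp x * Real.log k) = x * (c * Real.exp x) * Real.log k := by ring
      _ ≤ _ := mul_le_mul_of_nonneg_right hcon h7.le
  · show z * CV μ ℱ A (T k) (H k) ω ≤ z * ((c + η * z) * Real.log k)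
    rw [e2]
    calc z * (CV μ ℱ A (T k) (H k) ω / Real.log k) * Real.log k ≤ z * (c + η * z) * Real.log k :=
          mul_le_mul_of_nonneg_right h6.le h7.le
      _ = _ := by ring

end Pool.Agent.N417.CL
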