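import Mathlib
import Pool.Agent.N417.CL.C

/-!
# Large deviations with respect to the compensator: the limit points; windows without success
-/

set_option autoImplicit false
set_option linter.unusedSectionVars false

open MeasureTheory Filter Set
open scoped ENNReal Topology

namespace Pool.Agent.N417.CL

open Pool.Agent.R528.RM Pool.Agent.N740.HK Pool.Agent.N417.LD

variable {Ω : Type} {m0 : MeasurableSpace Ω} {μ : Measure Ω} [IsProbabilityMeasure μ]
  {ℱ : Filtration ℕ m0} {A : ℕ → Set Ω}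

/-- **the limit points of the counts** -/
theorem cl_law (hA : ∀ n, MeasurableSet[ℱ n] (A n)) {T H : ℕ → ℕ} {c : ℝ} (hc : 0 < c)
    (hTH : ∀ k, T k + H k ≤ T (k + 1)) (hg : ∀ᵐ ω ∂μ, GoodC μ ℱ A T H c ω) :
    ∀ᵐ ω ∂μ, (∀ x : ℝ, 0 ≤ x → c * hh x ≤ 1 → ∀ ε : ℝ, 0 < ε → ∀ K : ℕ, ∃ k, K ≤ k ∧
        |CN A (T k) (H k) ω / Real.log k - c * x| < ε) ∧
      ∀ ε : ℝ, 0 < ε → ∀ᶠ k : ℕ in atTop, ∃ x : ℝ, 0 ≤ x ∧ c * hh x ≤ 1 ∧ |CN A (T k) (H k) ω / Real.log k - c * x| < ε := by
  obtain ⟨a, b, ha0, ha1, hb1, hb2, ha2, ha3, hab⟩ := interval hc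
  have hΛl : Tendsto (fun k : ℕ => Real.log (k : ℝ)) atTop atTop := Real.tendsto_log_atTop.comp tendsto_natCast_atTop_atTop
  have low : ∀ᵐ ω ∂μ, ∀ q : ℚ, (0 : ℝ) < q → c * hh q < 1 → ∀ ε : ℝ, 0 < ε → ∀ K : ℕ, ∃ k, K ≤ k ∧
      |CN A (T k) (H k) ω / Real.log k - c * q| < ε := by
    rw [ae_all_iff]
    intro q
    by_cases hq : (0 : ℝ) < q ∧ c * hh q < 1
    swap
    · filter_upwards with ω h1 h3
      exact absurd ⟨h1, h3⟩ hq
    obtain ⟨q0, q2⟩ := hq
    filter_upwards [cl_io hA hc hTH hg (x := Real.log q) (by rw [Real.exp_log q0]; exact q2)] with ω g2 _ _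
    rw [Real.exp_log q0] at g2
    exact g2
  have up : ∀ᵐ ω ∂μ, ∀ q : ℚ, (1 : ℝ) < q → 1 < c * hh q → ∀ᶠ k : ℕ in atTop, CN A (T k) (H k) ω / Real.log k < c * q := by
    rw [ae_all_iff]
    intro q
    by_cases hq : (1 : ℝ) < q ∧ 1 < c * hh q
    swap
    · filter_upwards with ω h1 h2
      exact absurd ⟨h1, h2⟩ hq
    obtain ⟨q1, q2⟩ := hq
    have q0 : (0 : ℝ) < q := by linarith
    have hl : 0 < Real.log (q : ℝ) := Real.log_pos q1
    filter_upwards [cl_ub hA hg (x := Real.log q) hl.ne' (by rw [Real.exp_log q0]; exact q2)] with ω g2 _ _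
    rw [Real.exp_log q0] at g2
    filter_upwards [g2] with k hk
    exact lt_of_mul_lt_mul_left hk hl.le
  have dn : ∀ᵐ ω ∂μ, ∀ q : ℚ, (0 : ℝ) < q → (q : ℝ) < 1 → 1 < c * hh q → ∀ᶠ k : ℕ in atTop,
      c * q < CN A (T k) (H k) ω / Real.log k := by
    rw [ae_all_iff]
    intro q
    by_cases hq : (0 : ℝ) < q ∧ (q : ℝ) < 1 ∧ 1 < c * hh q
    swap
    · filter_upwards with ω h1 h2 h3
      exact absurd ⟨h1, h2, h3⟩ hq
    obtain ⟨q0, q1, q2⟩ := hq
    have hl : Real.log (q : ℝ) < 0 := Real.log_neg q0 q1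
    filter_upwards [cl_ub hA hg (x := Real.log q) hl.ne (by rw [Real.exp_log q0]; exact q2)] with ω g2 _ _ _
    rw [Real.exp_log q0] at g2
    filter_upwards [g2] with k hk
    exact lt_of_mul_lt_mul_of_nonpos_left hk hl.le
  filter_upwards [low, up, dn] with ω h1 h2 h3
  have cnt0 : ∀ k : ℕ, 0 ≤ CN A (T k) (H k) ω := fun k => (CN_bd _ _ _).1
  constructor
  · intro x hx0 hx1 ε hε K
    obtain ⟨hax, hxb⟩ := (hab x).1 ⟨hx0, hx1⟩
    obtain ⟨q, hq0, hq2, hq3⟩ : ∃ q : ℚ, (0 : ℝ) < q ∧ c * hh q < 1 ∧ c * |(q : ℝ) - x| < ε / 2 := by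
      have hδ : 0 < ε / (2 * c) := by positivity
      rcases lt_or_ge x 1 with hlt | hge
      · obtain ⟨q, hq1, hq2⟩ := exists_rat_btwn (show x < min 1 (x + ε / (2 * c)) from lt_min hlt (by linarith))
        obtain ⟨hq3, hq4⟩ := lt_min_iff.1 hq2
        refine ⟨q, by linarith, ?_, ?_⟩
        · have := mul_lt_mul_of_pos_left (hh_lt_of_lt hx0 hq1 hq3) hc
          linarith
        · rw [abs_of_pos (by linarith)]
          have := mul_lt_mul_of_pos_left (show (q : ℝ) - x < ε / (2 * c) by linarith) hc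
          have e : c * (ε / (2 * c)) = ε / 2 := by field_simp
          linarith
      · rcases hge.eq_or_lt with h | hgt
        · subst h
          obtain ⟨q, hq1, hq2⟩ := exists_rat_btwn (show (1 : ℝ) < min b (1 + ε / (2 * c)) from lt_min hb1 (by linarith))
          obtain ⟨hq3, hq4⟩ := lt_min_iff.1 hq2
          refine ⟨q, by linarith, ?_, ?_⟩
          · have := mul_lt_mul_of_pos_left (hh_lt_of_gt hq1 hq3) hc
            linarith
          · rw [abs_of_pos (by linarith)]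
            have := mul_lt_mul_of_pos_left (show (q : ℝ) - 1 < ε / (2 * c) by linarith) hc
            have e : c * (ε / (2 * c)) = ε / 2 := by field_simp
            linarith
        · obtain ⟨q, hq1, hq2⟩ := exists_rat_btwn (show max 1 (x - ε / (2 * c)) < x from max_lt hgt (by linarith))
          obtain ⟨hq3, hq4⟩ := max_lt_iff.1 hq1
          refine ⟨q, by linarith, ?_, ?_⟩
          · have := mul_lt_mul_of_pos_left (hh_lt_of_gt hq3 hq2) hc
            linarith
          · rw [abs_of_neg (by linarith)]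
            have := mul_lt_mul_of_pos_left (show -((q : ℝ) - x) < ε / (2 * c) by linarith) hc
            have e : c * (ε / (2 * c)) = ε / 2 := by field_simp
            linarith
    obtain ⟨k, k1, k2⟩ := h1 q hq0 hq2 (ε / 2) (by positivity) K
    refine ⟨k, k1, ?_⟩
    have e : CN A (T k) (H k) ω / Real.log k - c * x = (CN A (T k) (H k) ω / Real.log k - c * q) + c * (q - x) := by ring
    rw [e]
    refine (abs_add_le _ _).trans_lt ?_
    rw [abs_mul, abs_of_pos hc]
    linarith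
  · intro ε hε
    have hδ : 0 < ε / (2 * c) := by positivity
    have ece : c * (ε / (2 * c)) = ε / 2 := by field_simp
    have U : ∀ᶠ k : ℕ in atTop, CN A (T k) (H k) ω / Real.log k < c * b + ε := by
      obtain ⟨q, hq1, hq2⟩ := exists_rat_btwn (show b < b + ε / (2 * c) by linarith)
      have hq3 : 1 < c * hh q := by
        have := mul_lt_mul_of_pos_left (hh_lt_of_gt hb1 hq1) hc
        linarith
      filter_upwards [h2 q (by linarith) hq3] with k hk
      have := mul_lt_mul_of_pos_left hq2 hc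
      rw [mul_add, ece] at this
      linarith
    have L : ∀ᶠ k : ℕ in atTop, c * a - ε < CN A (T k) (H k) ω / Real.log k := by
      rcases ha0.eq_or_lt with h | h
      · rw [← h]
        filter_upwards [hΛl.eventually_gt_atTop 0] with k hk
        have := div_nonneg (cnt0 k) hk.le
        linarith
      · have hc1 : 1 < c := by
          by_contra hcc
          rw [ha2 (not_lt.1 hcc)] at h
          exact lt_irrefl _ h
        obtain ⟨q, hq1, hq2⟩ := exists_rat_btwn (show max 0 (a - ε / (2 * c)) < a from max_lt h (by linarith))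
        obtain ⟨hq4, hq5⟩ := max_lt_iff.1 hq1
        have hq3 : 1 < c * hh q := by
          have := mul_lt_mul_of_pos_left (hh_lt_of_lt hq4.le hq2 ha1) hc
          rw [(ha3 hc1).2] at this
          exact this
        filter_upwards [h3 q hq4 (by linarith) hq3] with k hk
        have := mul_lt_mul_of_pos_left hq5 hc
        rw [mul_sub, ece] at this
        linarith
    filter_upwards [U, L] with k u1 l1
    set y : ℝ := CN A (T k) (H k) ω / Real.log k / c with hy
    have ey : CN A (T k) (H k) ω / Real.log k = c * y := by rw [hy]; field_simp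
    rw [ey] at u1 l1 ⊢
    rcases le_or_gt y a with h | h
    · obtain ⟨i1, i2⟩ := (hab a).2 ⟨le_rfl, by linarith⟩
      refine ⟨a, i1, i2, ?_⟩
      have := mul_le_mul_of_nonneg_left h hc.le
      rw [abs_lt]
      constructor <;> linarith
    · rcases le_or_gt y b with h' | h'
      · obtain ⟨i1, i2⟩ := (hab y).2 ⟨h.le, h'⟩
        exact ⟨y, i1, i2, by simpa using hε⟩
      · obtain ⟨i1, i2⟩ := (hab b).2 ⟨by linarith, le_rfl⟩
        refine ⟨b, i1, i2, ?_⟩
        have := mul_lt_mul_of_pos_left h' hc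
        rw [abs_lt]
        constructor <;> linarith

/-- `1` if there is no success in the first `j` trials, `0` otherwise -/
noncomputable def PZ (A : ℕ → Set Ω) (T j : ℕ) (ω : Ω) : ℝ := ∏ i ∈ Finset.range j, (1 - J1 A (T + i + 1) ω)

lemma PZ_01 (T j : ℕ) (ω : Ω) : 0 ≤ PZ A T j ω ∧ PZ A T j ω ≤ 1 := by
  unfold PZ
  constructor
  · exact Finset.prod_nonneg fun i _ => by linarith [(J1_01 (A := A) (T + i + 1) ω).2]
  · exact Finset.prod_le_one (fun i _ => by linarith [(J1_01 (A := A) (T + i + 1) ω).2])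
      fun i _ => by linarith [(J1_01 (A := A) (T + i + 1) ω).1]

lemma PZ_zero {T j : ℕ} {ω : Ω} (h : PZ A T j ω ≠ 0) : CN A T j ω = 0 := by
  unfold PZ at h
  rw [Finset.prod_ne_zero_iff] at h
  unfold CN
  refine Finset.sum_eq_zero fun i hi => ?_
  have h1 := h i hi
  unfold J1 at h1 ⊢
  by_cases h2 : ω ∈ A (T + i + 1)
  · rw [indicator_of_mem h2] at h1
    simp at h1
  · rw [indicator_of_notMem h2]

lemma PZ_meas (hA : ∀ n, MeasurableSet[ℱ n] (A n)) (T j : ℕ) : StronglyMeasurable[ℱ (T + j)] (PZ A T j) := by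
  have e : PZ A T j = fun ω => ∏ i ∈ Finset.range j, (1 - J1 A (T + i + 1) ω) := rfl
  rw [e]
  refine Finset.stronglyMeasurable_fun_prod _ fun i hi => ?_
  have hi := Finset.mem_range.1 hi
  exact (@stronglyMeasurable_const _ _ (ℱ (T + j)) _ (1 : ℝ)).sub ((J1_meas hA (T + i + 1)).mono (ℱ.mono (by omega)))

/-- **no success in a window, lower bound** -/
theorem zero_lower (hA : ∀ n, MeasurableSet[ℱ n] (A n)) {T H : ℕ} {u W : ℝ} (hu0 : 0 ≤ u) (hu : u ≤ 1 / 2) (hW : 0 ≤ W)
    {C : Set Ω} (hC : MeasurableSet[ℱ T] C) :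
    Real.exp (-((1 + 2 * u) * W)) * μ.real C ≤ μ.real (C ∩ ({ω | CN A T H ω = 0} ∪ (GV μ ℱ A u W T H)ᶜ)) := by
  set l : ℝ := 1 + 2 * u with hl
  have hl0 : 0 < l := by positivity
  set Q : ℕ → Ω → ℝ := fun j ω => PZ A T j ω * Real.exp (l * (CV μ ℱ A T j ω - W)) with hQ
  set G : ℕ → Set Ω := GV μ ℱ A u W T with hG
  have hC0 : MeasurableSet C := ℱ.le _ _ hC
  have hG0 : ∀ j, MeasurableSet (G j) := fun j => ℱ.le _ _ (GV_meas' hW T j)
  have hQm : ∀ j, StronglyMeasurable[ℱ (T + j)] (Q j) := fun j =>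
    (PZ_meas hA T j).mul (Real.continuous_exp.comp_stronglyMeasurable (((CV_meas' T j).sub
      (@stronglyMeasurable_const _ _ (ℱ (T + j)) _ W)).const_mul l))
  have hQb : ∀ j ω, |Q j ω| ≤ Real.exp (l * j) := by
    intro j ω
    have h1 := PZ_01 (A := A) T j ω
    have h2 := CV_bd (μ := μ) (ℱ := ℱ) (A := A) T j ω
    simp only [hQ]
    rw [abs_mul, abs_of_nonneg h1.1, abs_of_pos (Real.exp_pos _)]
    calc _ ≤ 1 * Real.exp (l * (CV μ ℱ A T j ω - W)) := mul_le_mul_of_nonneg_right h1.2 (Real.exp_pos _).le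
      _ = Real.exp (l * (CV μ ℱ A T j ω - W)) := one_mul _
      _ ≤ _ := Real.exp_le_exp.2 (mul_le_mul_of_nonneg_left (by linarith) hl0.le)
  have hQi : ∀ j, Integrable (Q j) μ := fun j => intb ((hQm j).mono (ℱ.le _)) (hQb j)
  have hQ1 : ∀ j ω, ω ∈ G j → Q j ω ≤ 1 := by
    intro j ω hω
    have h1 := PZ_01 (A := A) T j ω
    have h2 : Real.exp (l * (CV μ ℱ A T j ω - W)) ≤ 1 := by
      rw [Real.exp_le_one_iff]
      exact mul_nonpos_of_nonneg_of_nonpos hl0.le (by have := hω.2; linarith)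
    exact mul_le_one₀ h1.2 (Real.exp_pos _).le h2
  have setle : ∀ j (C' : Set Ω), MeasurableSet C' → C' ⊆ G j → ∫ ω in C', Q j ω ∂μ ≤ μ.real C' := by
    intro j C' hC' hsub
    have h1 : ∫ ω in C', Q j ω ∂μ ≤ ∫ ω in C', (1 : ℝ) ∂μ :=
      setIntegral_mono_on (hQi j).integrableOn (integrable_const _).integrableOn hC' fun ω hω => hQ1 j ω (hsub hω)
    simpa using h1
  have qstep : ∀ j (C' : Set Ω), MeasurableSet[ℱ (T + j)] C' → C' ⊆ G (j + 1) →
      ∫ ω in C', Q j ω ∂μ ≤ ∫ ω in C', Q (j + 1) ω ∂μ := by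
    intro j C' hC' hsub
    have hC'' : MeasurableSet C' := ℱ.le _ _ hC'
    set D : Ω → ℝ := DD' μ ℱ A (T + j) with hD
    set f : Ω → ℝ := C'.indicator (fun ω => Q j ω * Real.exp (l * D ω)) with hf
    have hfm : StronglyMeasurable[ℱ (T + j)] f :=
      ((hQm j).mul (Real.continuous_exp.comp_stronglyMeasurable ((DD'_meas (T + j)).const_mul l))).indicator hC'
    have hfb : ∀ ω, |f ω| ≤ Real.exp (l * j) * Real.exp l := by
      intro ω
      by_cases h : ω ∈ C'
      · simp only [hf]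
        rw [indicator_of_mem h, abs_mul, abs_of_pos (Real.exp_pos (l * D ω))]
        refine mul_le_mul (hQb j ω) ?_ (Real.exp_pos _).le (Real.exp_pos _).le
        apply Real.exp_le_exp.2
        have := (DD'_bd (μ := μ) (ℱ := ℱ) (A := A) (T + j) ω).2
        calc l * D ω ≤ l * 1 := mul_le_mul_of_nonneg_left this hl0.le
          _ = l := mul_one _
      · simp only [hf]
        rw [indicator_of_notMem h, abs_zero]
        positivity
    have k1 := jkey_int (μ := μ) hA (n := T + j) hfm hfb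
    have i1 : Integrable (fun ω => f ω * (J1 A (T + j + 1) ω - D ω)) μ := by
      refine intb (c := (Real.exp (l * j) * Real.exp l) * 1) ?_ fun ω => ?_
      · exact (hfm.mono (ℱ.le _)).mul (((J1_meas hA (T + j + 1)).mono (ℱ.le _)).sub ((DD'_meas (T + j)).mono (ℱ.le _)))
      · rw [abs_mul]
        exact mul_le_mul (hfb ω) (JD_abs (T + j) ω) (abs_nonneg _) (by positivity)
    have i2 : Integrable (fun ω => f ω * (1 - D ω)) μ := by
      refine intb (c := (Real.exp (l * j) * Real.exp l) * 1) ?_ fun ω => ?_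
      · exact (hfm.mono (ℱ.le _)).mul ((stronglyMeasurable_const).sub ((DD'_meas (T + j)).mono (ℱ.le _)))
      · rw [abs_mul]
        refine mul_le_mul (hfb ω) ?_ (abs_nonneg _) (by positivity)
        have := DD'_bd (μ := μ) (ℱ := ℱ) (A := A) (T + j) ω
        rw [abs_le]
        constructor <;> linarith
    have e1 : (fun ω => C'.indicator (Q (j + 1)) ω) = fun ω => f ω * (1 - D ω) - f ω * (J1 A (T + j + 1) ω - D ω) := by
      funext ω
      by_cases h : ω ∈ C'
      · simp only [hf]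
        rw [indicator_of_mem h, indicator_of_mem h]
        simp only [hQ]
        have e2 : PZ A T (j + 1) ω = PZ A T j ω * (1 - J1 A (T + j + 1) ω) := Finset.prod_range_succ _ _
        have e3 : Real.exp (l * (CV μ ℱ A T (j + 1) ω - W)) = Real.exp (l * (CV μ ℱ A T j ω - W)) * Real.exp (l * D ω) := by
          rw [← Real.exp_add, CV_succ]
          congr 1
          simp only [hD]
          ring
        rw [e2, e3]
        ring
      · simp only [hf]
        rw [indicator_of_notMem h, indicator_of_notMem h]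
        ring
    have e2 : ∫ ω in C', Q (j + 1) ω ∂μ = ∫ ω, f ω * (1 - D ω) ∂μ := by
      rw [← integral_indicator hC'']
      have : ∫ ω, C'.indicator (fun ω => Q (j + 1) ω) ω ∂μ = ∫ ω, (f ω * (1 - D ω) - f ω * (J1 A (T + j + 1) ω - D ω)) ∂μ := by
        congr 1
      rw [this, integral_sub i2 i1, k1, sub_zero]
    rw [e2, ← integral_indicator hC'']
    refine integral_mono ((hQi j).indicator hC'') i2 fun ω => ?_
    by_cases h : ω ∈ C'
    · simp only [hf]
      rw [indicator_of_mem h, indicator_of_mem h]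
      have hq0 : 0 ≤ Q j ω := mul_nonneg (PZ_01 (A := A) T j ω).1 (Real.exp_pos _).le
      rw [mul_assoc]
      apply le_mul_of_one_le_right hq0
      have hDb := DD'_bd (μ := μ) (ℱ := ℱ) (A := A) (T + j) ω
      have hDu : D ω ≤ u := (hsub h).1 j (by omega)
      have hD0 : 0 ≤ D ω := hDb.1
      have h4 := exp_sub_sq (z := -D ω) (by linarith)
      have h5 : -(l * D ω) ≤ -D ω - 2 * (-D ω) ^ 2 := by
        rw [hl]
        nlinarith
      have h6 : Real.exp (-(l * D ω)) ≤ 1 - D ω := (Real.exp_le_exp.2 h5).trans (by linarith)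
      calc (1 : ℝ) = Real.exp (l * D ω) * Real.exp (-(l * D ω)) := by rw [← Real.exp_add, add_neg_cancel, Real.exp_zero]
        _ ≤ _ := mul_le_mul_of_nonneg_left h6 (Real.exp_pos _).le
    · simp only [hf]
      rw [indicator_of_notMem h, indicator_of_notMem h]
      simp
  set Φ : ℕ → ℝ := fun j => ∫ ω in C ∩ G j, Q j ω ∂μ + μ.real (C \ G j) with hΦ
  have step : ∀ j, Φ j ≤ Φ (j + 1) := by
    intro j
    have hsub : G (j + 1) ⊆ G j := GV_anti u W T j
    have e1 : C ∩ G j ∩ G (j + 1) = C ∩ G (j + 1) := by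
      rw [inter_assoc, inter_eq_right.2 hsub]
    have e2 := integral_inter_add_sdiff (μ := μ) (s := C ∩ G j) (hG0 (j + 1)) (hQi j).integrableOn
    rw [e1] at e2
    have e3 : ∫ ω in (C ∩ G j) \ G (j + 1), Q j ω ∂μ ≤ μ.real ((C ∩ G j) \ G (j + 1)) :=
      setle j _ ((hC0.inter (hG0 j)).diff (hG0 (j + 1))) (sdiff_subset.trans inter_subset_right)
    have hCm : MeasurableSet[ℱ (T + j)] (C ∩ G (j + 1)) := (ℱ.mono (by omega) _ hC).inter (GV_meas u W T j)
    have e4 := qstep j _ hCm inter_subset_right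
    have e5 : μ.real (C \ G (j + 1)) = μ.real ((C ∩ G j) \ G (j + 1)) + μ.real (C \ G j) := by
      have e6 : C \ G (j + 1) = (C ∩ G j) \ G (j + 1) ∪ C \ G j := by
        ext ω
        simp only [Set.mem_sdiff, mem_union, mem_inter_iff]
        constructor
        · rintro ⟨a1, a2⟩
          by_cases a3 : ω ∈ G j
          · exact Or.inl ⟨⟨a1, a3⟩, a2⟩
          · exact Or.inr ⟨a1, a3⟩
        · rintro (⟨⟨a1, _⟩, a2⟩ | ⟨a1, a2⟩)
          · exact ⟨a1, a2⟩
          · exact ⟨a1, fun a3 => a2 (hsub a3)⟩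
      rw [e6]
      refine measureReal_union ?_ (hC0.diff (hG0 j))
      rw [Set.disjoint_left]
      rintro ω ⟨⟨_, a1⟩, _⟩ ⟨_, a2⟩
      exact a2 a1
    simp only [hΦ]
    rw [e5, ← e2]
    linarith
  have hmon : ∀ j, Φ 0 ≤ Φ j := by
    intro j
    induction j with
    | zero => exact le_rfl
    | succ j ih => exact ih.trans (step j)
  have hfin := hmon H
  have hG00 : G 0 = univ := by ext ω; simp [hG, GV, CV, hW]
  have e0 : Φ 0 = Real.exp (-(l * W)) * μ.real C := by
    simp only [hΦ, hG00, inter_univ, sdiff_univ, measureReal_empty, add_zero]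
    have : ∀ ω, Q 0 ω = Real.exp (-(l * W)) := by
      intro ω
      simp [hQ, PZ, CV]
    simp only [this]
    rw [setIntegral_const, smul_eq_mul, mul_comm]
  set S : Set Ω := {ω | CN A T H ω = 0} with hS
  have hNm : Measurable (CN A T H) := ((CN_meas hA T H).mono (ℱ.le _)).measurable
  have hSm : MeasurableSet S := hNm (measurableSet_singleton 0)
  have e7 : ∫ ω in C ∩ G H, Q H ω ∂μ ≤ μ.real ((C ∩ G H) ∩ S) := by
    have e8 := integral_inter_add_sdiff (μ := μ) (s := C ∩ G H) hSm (hQi H).integrableOn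
    have e9 : ∫ ω in (C ∩ G H) \ S, Q H ω ∂μ ≤ 0 := by
      apply setIntegral_nonpos (((hC0.inter (hG0 H))).diff hSm)
      rintro ω ⟨_, hω⟩
      have : PZ A T H ω = 0 := by
        by_contra h
        exact hω (PZ_zero h)
      simp only [hQ]
      rw [this, zero_mul]
    have e10 := setle H ((C ∩ G H) ∩ S) ((hC0.inter (hG0 H)).inter hSm) (inter_subset_left.trans inter_subset_right)
    linarith
  have e11 : μ.real (C ∩ (S ∪ (G H)ᶜ)) = μ.real ((C ∩ G H) ∩ S) + μ.real (C \ G H) := by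
    have e12 : C ∩ (S ∪ (G H)ᶜ) = (C ∩ G H) ∩ S ∪ C \ G H := by
      ext ω
      simp only [Set.mem_sdiff, mem_union, mem_inter_iff, mem_compl_iff]
      tauto
    rw [e12]
    refine measureReal_union ?_ (hC0.diff (hG0 H))
    rw [Set.disjoint_left]
    rintro ω ⟨⟨_, a1⟩, _⟩ ⟨_, a2⟩
    exact a2 a1
  rw [e11, ← e0]
  refine hfin.trans ?_
  simp only [hΦ]
  linarith

/-- **windows without success** -/
theorem zero_io (hA : ∀ n, MeasurableSet[ℱ n] (A n)) {T H : ℕ → ℕ} {c : ℝ} (hc : 0 < c) (hc1 : c < 1)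
    (hTH : ∀ k, T k + H k ≤ T (k + 1)) (hg : ∀ᵐ ω ∂μ, (∀ᶠ k : ℕ in atTop, CV μ ℱ A (T k) (H k) ω ≤ c * Real.log k) ∧
      ∀ η : ℝ, 0 < η → ∀ᶠ k : ℕ in atTop, ∀ i, i < H k → DD' μ ℱ A (T k + i) ω ≤ η) :
    ∀ᵐ ω ∂μ, ∀ K : ℕ, ∃ k, K ≤ k ∧ CN A (T k) (H k) ω = 0 := by
  have hmono : Monotone T := monotone_nat_of_le_succ fun k => by have := hTH k; omega
  have hΛl : Tendsto (fun k : ℕ => Real.log (k : ℝ)) atTop atTop := Real.tendsto_log_atTop.comp tendsto_natCast_atTop_atTop
  obtain ⟨η, hη, hη1, hηc⟩ : ∃ η : ℝ, 0 < η ∧ η < 1 / 2 ∧ (1 + 2 * η) * c < 1 := by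
    have m1 : Tendsto (fun η : ℝ => (1 + 2 * η) * c) (𝓝 0) (𝓝 c) := by
      have : Continuous (fun η : ℝ => (1 + 2 * η) * c) := by fun_prop
      have h := this.tendsto 0
      simpa using h
    have j1 : ∀ᶠ η : ℝ in 𝓝[>] 0, 0 < η := eventually_mem_nhdsWithin
    have j2 : ∀ᶠ η : ℝ in 𝓝[>] 0, η < 1 / 2 := (eventually_lt_nhds (by norm_num)).filter_mono nhdsWithin_le_nhds
    have j3 := (m1.eventually_lt_const hc1).filter_mono (nhdsWithin_le_nhds (s := Ioi (0 : ℝ)))
    obtain ⟨η, a1, a2, a3⟩ := (j1.and (j2.and j3)).exists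
    exact ⟨η, a1, a2, a3⟩
  set Λ : ℕ → ℝ := fun k => max (Real.log k) 0 with hΛ
  have hΛ0 : ∀ k, 0 ≤ Λ k := fun k => le_max_right _ _
  set D : ℕ → Set Ω := fun k => {ω | CN A (T k) (H k) ω = 0} ∪ (GV μ ℱ A η (c * Λ k) (T k) (H k))ᶜ with hD
  have hDm : ∀ k, MeasurableSet[ℱ (T (k + 1))] (D k) := by
    intro k
    refine ℱ.mono (hTH k) _ ?_
    have hN := (CN_meas hA (T k) (H k)).measurable
    exact (hN (measurableSet_singleton 0)).union (GV_meas' (mul_nonneg hc.le (hΛ0 k)) _ _).compl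
  have hpk : ∃ k₀, ∀ k, k₀ ≤ k → ∀ C, MeasurableSet[ℱ (T k)] C → (1 / ((k : ℝ) + 1)) * μ.real C ≤ μ.real (C ∩ D k) := by
    apply eventually_atTop.1
    filter_upwards [hΛl.eventually_gt_atTop 0, eventually_ge_atTop 2] with k q2 q3 C hC
    have hk0 : (0 : ℝ) < k := by exact_mod_cast (by omega : 0 < k)
    have hΛk : Λ k = Real.log k := max_eq_left q2.le
    have key := zero_lower (μ := μ) (T := T k) (H := H k) (u := η) (W := c * Λ k) hA hη.le hη1.le
      (mul_nonneg hc.le (hΛ0 k)) hC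
    refine le_trans (mul_le_mul_of_nonneg_right ?_ measureReal_nonneg) key
    have e2 : Real.exp (-Real.log k) ≤ Real.exp (-((1 + 2 * η) * (c * Λ k))) := by
      apply Real.exp_le_exp.2
      rw [hΛk]
      have := mul_le_mul_of_nonneg_right hηc.le q2.le
      linarith
    rw [Real.exp_neg (Real.log k), Real.exp_log hk0, ← one_div] at e2
    exact (one_div_le_one_div_of_le hk0 (by linarith)).trans e2
  obtain ⟨k₀, hk₀⟩ := hpk
  have hsum : Tendsto (fun n => ∑ k ∈ Finset.range n, (1 / ((k : ℝ) + 1))) atTop atTop :=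
    Real.tendsto_sum_range_one_div_nat_succ_atTop
  have h1 := trials_io (μ := μ) (ℱ := ℱ) hmono hDm hk₀ hsum
  filter_upwards [h1, hg] with ω h2 h3 K
  obtain ⟨K', hK'⟩ := eventually_atTop.1 ((h3.2 η hη).and (h3.1.and (hΛl.eventually_gt_atTop 0)))
  obtain ⟨k, hk, hk2⟩ := h2 (max K K')
  obtain ⟨g1, g2, g4⟩ := hK' k ((le_max_right _ _).trans hk)
  refine ⟨k, (le_max_left _ _).trans hk, ?_⟩
  have hΛk : Λ k = Real.log k := max_eq_left g4.le
  simp only [hD, hΛk] at hk2
  rcases hk2 with h5 | h5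
  · exact h5
  · exact absurd ⟨g1, g2⟩ h5

/-- **windows with a success** -/
theorem pos_all (hA : ∀ n, MeasurableSet[ℱ n] (A n)) {T H : ℕ → ℕ} {c : ℝ} (hc1 : 1 < c)
    (hg : ∀ᵐ ω ∂μ, ∀ᶠ k : ℕ in atTop, c * Real.log k ≤ CV μ ℱ A (T k) (H k) ω) :
    ∀ᵐ ω ∂μ, ∀ᶠ k : ℕ in atTop, 0 < CN A (T k) (H k) ω := by
  obtain ⟨x, hx, hxc⟩ : ∃ x : ℝ, x < 0 ∧ 1 < (1 - Real.exp x) * c := by
    have m1 : Tendsto (fun x : ℝ => (1 - Real.exp x) * c) atBot (𝓝 ((1 - 0) * c)) :=
      (tendsto_const_nhds.sub Real.tendsto_exp_atBot).mul_const c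
    rw [sub_zero, one_mul] at m1
    obtain ⟨x, a1, a2⟩ := ((m1.eventually_const_lt hc1).and (eventually_lt_atBot 0)).exists
    exact ⟨x, a2, a1⟩
  set δ : ℝ := (1 - Real.exp x) * c with hδ
  have hex : Real.exp x < 1 := by rw [← Real.exp_zero]; exact Real.exp_lt_exp.2 hx
  set E : ℕ → Set Ω := fun k => {ω | x * 0 ≤ x * CN A (T k) (H k) ω ∧
    (Real.exp x - 1) * CV μ ℱ A (T k) (H k) ω ≤ (Real.exp x - 1) * (c * Real.log k)} with hE
  have hbd : ∀ᶠ k : ℕ in atTop, μ.real (E k) ≤ (k : ℝ) ^ (-δ) := by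
    filter_upwards [eventually_ge_atTop 2] with k q5
    have hk0 : (0 : ℝ) < k := by exact_mod_cast (by omega : 0 < k)
    have h1 := cl_upper (μ := μ) (ℱ := ℱ) (A := A) hA (T k) (H k) x 0 (c * Real.log k)
    refine h1.trans ?_
    rw [Real.rpow_def_of_pos hk0]
    apply Real.exp_le_exp.2
    rw [hδ]
    apply le_of_eq
    ring
  have hsum : ∑' k : ℕ, μ (E k) ≠ ∞ := by
    have h1 : Summable (fun k : ℕ => (k : ℝ) ^ (-δ)) := Real.summable_nat_rpow.2 (by linarith)
    have h2 : Summable (fun k : ℕ => μ.real (E k)) := by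
      refine Summable.of_norm_bounded_eventually_nat h1 ?_
      filter_upwards [hbd] with k hk
      rw [Real.norm_of_nonneg measureReal_nonneg]
      exact hk
    have h3 : ∑' n : ℕ, μ (E n) = ENNReal.ofReal (∑' n : ℕ, μ.real (E n)) := by
      rw [ENNReal.ofReal_tsum_of_nonneg (fun _ => measureReal_nonneg) h2]
      congr 1
      funext i
      exact (ofReal_measureReal (measure_ne_top _ _)).symm
    rw [h3]
    exact ENNReal.ofReal_ne_top
  filter_upwards [ae_eventually_notMem hsum, hg] with ω h1 h2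
  filter_upwards [h1, h2] with k h5 h6
  by_contra hcon
  push Not at hcon
  apply h5
  have h0 : CN A (T k) (H k) ω = 0 := le_antisymm hcon (CN_bd _ _ _).1
  refine ⟨by rw [h0], ?_⟩
  exact mul_le_mul_of_nonpos_left h6 (by linarith)

end Pool.Agent.N417.CL
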