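import Mathlib
import Pool.Agent.N417.CL.D
import Pool.Agent.N417.LD.H

/-!
# Predictable selections; densities `sqrt (log n) / n^(1/4)` between consecutive squares
-/

set_option autoImplicit false
set_option linter.unusedSectionVars false

open MeasureTheory Filter Set
open scoped ENNReal Topology

namespace Pool.Agent.N417.CL

open Pool.Agent.R528.RM Pool.Agent.N740.HK Pool.Agent.N417.LD

variable {Ω : Type} {m0 : MeasurableSpace Ω} {μ : Measure Ω} [IsProbabilityMeasure μ]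
  {ℱ : Filtration ℕ m0} {A : ℕ → Set Ω}

/-- the conditional probabilities of a predictable selection -/
lemma dens_select (hA : ∀ n, MeasurableSet[ℱ n] (A n)) {B : ℕ → Set Ω} {n : ℕ} {S : Set Ω} (hS : MeasurableSet[ℱ n] S)
    (hB : B (n + 1) = A (n + 1) ∩ S) : dens μ ℱ B n =ᵐ[μ] S.indicator (dens μ ℱ A n) := by
  unfold dens
  have e : (B (n + 1)).indicator (fun _ => (1 : ℝ)) = S.indicator ((A (n + 1)).indicator (fun _ => (1 : ℝ))) := by
    rw [hB, indicator_indicator, inter_comm]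
  rw [e]
  refine condExp_indicator ?_ hS
  exact (integrable_const (1 : ℝ)).indicator (ℱ.le _ _ (hA (n + 1)))

lemma DD_select (hA : ∀ n, MeasurableSet[ℱ n] (A n)) {B : ℕ → Set Ω} (hB0 : ∀ n, MeasurableSet[ℱ n] (B n)) {S : ℕ → Set Ω}
    (hS : ∀ n, MeasurableSet[ℱ n] (S n)) (hB : ∀ n, B (n + 1) = A (n + 1) ∩ S n) :
    ∀ᵐ ω ∂μ, ∀ n, DD' μ ℱ B n ω = (S n).indicator (DD' μ ℱ A n) ω := by
  have h : ∀ᵐ ω ∂μ, ∀ n, dens μ ℱ B n ω = (S n).indicator (dens μ ℱ A n) ω := by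
    rw [ae_all_iff]
    intro n
    exact dens_select hA (hS n) (hB n)
  filter_upwards [h, DD'_ae (μ := μ) hA, DD'_ae (μ := μ) hB0] with ω h1 h2 h3 n
  rw [h3 n, h1 n]
  by_cases hω : ω ∈ S n
  · rw [indicator_of_mem hω, indicator_of_mem hω, h2 n]
  · rw [indicator_of_notMem hω, indicator_of_notMem hω]

/-- `log r` and `√r` between two squares -/
lemma near_sq' {k r : ℕ} (hk : 2 ≤ k) (h1 : k ^ 2 ≤ r) (h2 : r ≤ (k + 1) ^ 2) :
    (k : ℝ) ≤ √(r : ℝ) ∧ √(r : ℝ) ≤ k + 1 ∧ 2 * Real.log k ≤ Real.log r ∧ Real.log r ≤ 2 * Real.log k + 1 := by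
  have hk' : (2 : ℝ) ≤ k := by exact_mod_cast hk
  have h1' : (k : ℝ) ^ 2 ≤ r := by exact_mod_cast h1
  have h2' : (r : ℝ) ≤ ((k : ℝ) + 1) ^ 2 := by exact_mod_cast h2
  have hr0 : (0 : ℝ) < r := by nlinarith
  refine ⟨?_, ?_, ?_, ?_⟩
  · exact Real.le_sqrt_of_sq_le h1'
  · rw [Real.sqrt_le_left (by linarith)]
    exact h2'
  · have h4 : Real.log ((k : ℝ) ^ 2) ≤ Real.log r := Real.log_le_log (by positivity) h1'
    rw [Real.log_pow] at h4
    push_cast at h4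
    exact h4
  · have h4 : Real.log r ≤ Real.log (((k : ℝ) + 1) ^ 2) := Real.log_le_log hr0 h2'
    rw [Real.log_pow] at h4
    push_cast at h4
    have h5 : Real.log ((k : ℝ) + 1) ≤ Real.log k + 1 / 2 := by
      have e : (k : ℝ) + 1 = k * (1 + 1 / k) := by field_simp
      rw [e, Real.log_mul (by positivity) (by positivity)]
      have h6 := Real.log_le_sub_one_of_pos (show (0 : ℝ) < 1 + 1 / k by positivity)
      have h7 : (1 : ℝ) / k ≤ 1 / 2 := one_div_le_one_div_of_le (by norm_num) hk'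
      linarith
    linarith

/-- the density near `k ^ 2` -/
noncomputable def qq2 (κ : ℝ) (k : ℕ) : ℝ := κ * (√(2 * Real.log k) / √(k : ℝ))

/-- `√(log r) / √√r` for `r` between `k ^ 2` and `(k + 1) ^ 2` -/
lemma quarter {η : ℝ} (hη : 0 < η) : ∀ᶠ k : ℕ in atTop, ∀ r : ℕ, k ^ 2 ≤ r → r ≤ (k + 1) ^ 2 →
    (1 - η) * (√(2 * Real.log k) / √(k : ℝ)) ≤ √(Real.log r) / √(√(r : ℝ)) ∧
    √(Real.log r) / √(√(r : ℝ)) ≤ (1 + η) * (√(2 * Real.log k) / √(k : ℝ)) := by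
  have lo : Tendsto (fun k : ℕ => √((k : ℝ) / (k + 1))) atTop (𝓝 1) := by
    have := (k_lim 1).sqrt
    rwa [Real.sqrt_one] at this
  have up : Tendsto (fun k : ℕ => √((2 * Real.log k + 1) / (2 * Real.log k))) atTop (𝓝 1) := by
    have := (log_lim 1).sqrt
    rwa [Real.sqrt_one] at this
  filter_upwards [eventually_ge_atTop 3, tendsto_logN.eventually_ge_atTop 1,
    lo.eventually_const_le (show 1 - η < 1 by linarith), up.eventually_le_const (show 1 < 1 + η by linarith)]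
    with k hk hL hlo hup r hr1 hr2
  obtain ⟨a1, a2, a3, a4⟩ := near_sq' (by omega : 2 ≤ k) hr1 hr2
  have hk' : (3 : ℝ) ≤ k := by exact_mod_cast hk
  have hL0 : 0 < Real.log k := by linarith
  have b1 : √(k : ℝ) ≤ √(√(r : ℝ)) := Real.sqrt_le_sqrt a1
  have b2 : √(√(r : ℝ)) ≤ √((k : ℝ) + 1) := Real.sqrt_le_sqrt a2
  have b3 : √(2 * Real.log k) ≤ √(Real.log r) := Real.sqrt_le_sqrt a3
  have b4 : √(Real.log r) ≤ √(2 * Real.log k + 1) := Real.sqrt_le_sqrt a4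
  have hk0 : 0 < √(k : ℝ) := Real.sqrt_pos.2 (by linarith)
  have hk1 : 0 < √((k : ℝ) + 1) := Real.sqrt_pos.2 (by linarith)
  have hl0 : 0 < √(2 * Real.log k) := Real.sqrt_pos.2 (by linarith)
  constructor
  · have h1 : √(2 * Real.log k) / √((k : ℝ) + 1) ≤ √(Real.log r) / √(√(r : ℝ)) :=
      div_le_div₀ (by positivity) b3 (by linarith) b2
    refine le_trans ?_ h1
    have e : √(2 * Real.log k) / √((k : ℝ) + 1) = √((k : ℝ) / (k + 1)) * (√(2 * Real.log k) / √(k : ℝ)) := by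
      rw [Real.sqrt_div (by linarith)]
      field_simp
    rw [e]
    exact mul_le_mul_of_nonneg_right hlo (by positivity)
  · have h1 : √(Real.log r) / √(√(r : ℝ)) ≤ √(2 * Real.log k + 1) / √(k : ℝ) :=
      div_le_div₀ (by positivity) b4 hk0 b1
    refine le_trans h1 ?_
    have e : √(2 * Real.log k + 1) / √(k : ℝ) = √((2 * Real.log k + 1) / (2 * Real.log k)) * (√(2 * Real.log k) / √(k : ℝ)) := by
      rw [Real.sqrt_div (by linarith)]
      field_simp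
    rw [e]
    exact mul_le_mul_of_nonneg_right hup (by positivity)

/-- one sided bounds for the densities between consecutive squares -/
lemma sq_lower (hA : ∀ n, MeasurableSet[ℱ n] (A n)) {κ κ' : ℝ} (hκ : 0 < κ) (hκ' : κ < κ')
    (hd : ∀ᵐ ω ∂μ, ∀ᶠ n : ℕ in atTop, κ' ≤ dens μ ℱ A n ω * √(√(n : ℝ)) / √(Real.log n)) :
    ∀ᵐ ω ∂μ, ∀ᶠ k : ℕ in atTop, ∀ r : ℕ, k ^ 2 ≤ r → r ≤ (k + 1) ^ 2 → qq2 κ k ≤ DD' μ ℱ A r ω := by
  filter_upwards [hd, DD'_ae (μ := μ) hA] with ω h1 h2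
  obtain ⟨n0, hn0⟩ := eventually_atTop.1 h1
  have hη : 0 < 1 - κ / κ' := by
    rw [sub_pos, div_lt_one (by linarith)]
    exact hκ'
  filter_upwards [quarter hη, eventually_ge_atTop (n0 + 3), tendsto_logN.eventually_ge_atTop 1] with k hq hk hL r hr1 hr2
  rw [h2 r]
  have hkk : k ≤ k ^ 2 := by rw [sq]; exact Nat.le_mul_self k
  have h3 := hn0 r (by omega)
  obtain ⟨a1, a2, a3, a4⟩ := near_sq' (by omega : 2 ≤ k) hr1 hr2
  have hk' : (3 : ℝ) ≤ k := by exact_mod_cast (by omega : 3 ≤ k)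
  have hs : 0 < √(√(r : ℝ)) := Real.sqrt_pos.2 (by linarith)
  have hl : 0 < √(Real.log r) := Real.sqrt_pos.2 (by linarith)
  rw [le_div_iff₀ hl] at h3
  have h4 : κ' * (√(Real.log r) / √(√(r : ℝ))) ≤ dens μ ℱ A r ω := by
    rw [mul_div_assoc', div_le_iff₀ hs]
    exact h3
  refine le_trans ?_ h4
  have h5 := mul_le_mul_of_nonneg_left (hq r hr1 hr2).1 (by linarith : 0 ≤ κ')
  refine le_trans (le_of_eq ?_) h5
  unfold qq2
  have : κ' ≠ 0 := by linarith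
  field_simp
  ring

lemma sq_upper (hA : ∀ n, MeasurableSet[ℱ n] (A n)) {κ κ' : ℝ} (hκ' : 0 < κ') (hκ : κ' < κ)
    (hd : ∀ᵐ ω ∂μ, ∀ᶠ n : ℕ in atTop, dens μ ℱ A n ω * √(√(n : ℝ)) / √(Real.log n) ≤ κ') :
    ∀ᵐ ω ∂μ, ∀ᶠ k : ℕ in atTop, ∀ r : ℕ, k ^ 2 ≤ r → r ≤ (k + 1) ^ 2 → DD' μ ℱ A r ω ≤ qq2 κ k := by
  filter_upwards [hd, DD'_ae (μ := μ) hA] with ω h1 h2
  obtain ⟨n0, hn0⟩ := eventually_atTop.1 h1
  have hη : 0 < κ / κ' - 1 := by
    rw [sub_pos, one_lt_div hκ']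
    exact hκ
  filter_upwards [quarter hη, eventually_ge_atTop (n0 + 3), tendsto_logN.eventually_ge_atTop 1] with k hq hk hL r hr1 hr2
  rw [h2 r]
  have hkk : k ≤ k ^ 2 := by rw [sq]; exact Nat.le_mul_self k
  have h3 := hn0 r (by omega)
  obtain ⟨a1, a2, a3, a4⟩ := near_sq' (by omega : 2 ≤ k) hr1 hr2
  have hk' : (3 : ℝ) ≤ k := by exact_mod_cast (by omega : 3 ≤ k)
  have hs : 0 < √(√(r : ℝ)) := Real.sqrt_pos.2 (by linarith)
  have hl : 0 < √(Real.log r) := Real.sqrt_pos.2 (by linarith)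
  rw [div_le_iff₀ hl] at h3
  have h4 : dens μ ℱ A r ω ≤ κ' * (√(Real.log r) / √(√(r : ℝ))) := by
    rw [mul_div_assoc', le_div_iff₀ hs]
    exact h3
  refine le_trans h4 ?_
  have h5 := mul_le_mul_of_nonneg_left (hq r hr1 hr2).2 hκ'.le
  refine le_trans h5 (le_of_eq ?_)
  unfold qq2
  field_simp
  ring

lemma qq2_sq {κ : ℝ} {k : ℕ} (hk : 0 < k) (hL : 0 ≤ Real.log k) : k * qq2 κ k ^ 2 = 2 * κ ^ 2 * Real.log k := by
  unfold qq2
  have hk' : (0 : ℝ) < k := by exact_mod_cast hk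
  rw [mul_pow, div_pow, Real.sq_sqrt (by linarith), Real.sq_sqrt hk'.le]
  field_simp

lemma qq2_lim (κ : ℝ) : Tendsto (qq2 κ) atTop (𝓝 0) := by
  have hlk : Tendsto (fun k : ℕ => 2 * (Real.log k / k)) atTop (𝓝 0) := by
    have h : Tendsto (fun x : ℝ => Real.log x / x) atTop (𝓝 0) := Real.isLittleO_log_id_atTop.tendsto_div_nhds_zero
    have := (h.comp tendsto_natCast_atTop_atTop).const_mul 2
    rwa [mul_zero] at this
  have h1 := (hlk.sqrt).const_mul κ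
  rw [Real.sqrt_zero, mul_zero] at h1
  refine h1.congr' ?_
  filter_upwards [tendsto_logN.eventually_ge_atTop 1] with k hL
  unfold qq2
  rw [← Real.sqrt_div (by linarith), mul_div_assoc]

lemma kqq2_lim {κ : ℝ} (hκ : 0 < κ) : Tendsto (fun k : ℕ => k * qq2 κ k / Real.log k) atTop atTop := by
  -- `k q = 2 κ ^ 2 log k / q`
  have h1 : Tendsto (fun k : ℕ => (qq2 κ k)⁻¹) atTop atTop := by
    refine Tendsto.inv_tendsto_nhdsGT_zero ?_
    rw [tendsto_nhdsWithin_iff]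
    refine ⟨qq2_lim κ, ?_⟩
    filter_upwards [tendsto_logN.eventually_ge_atTop 1, eventually_gt_atTop 0] with k hL hk
    have hk' : (0 : ℝ) < k := by exact_mod_cast hk
    exact Set.mem_Ioi.2 (mul_pos hκ (div_pos (Real.sqrt_pos.2 (by linarith)) (Real.sqrt_pos.2 hk')))
  have h2 := h1.const_mul_atTop (show 0 < 2 * κ ^ 2 by positivity)
  refine h2.congr' ?_
  filter_upwards [tendsto_logN.eventually_ge_atTop 1, eventually_gt_atTop 0] with k hL hk
  have hk' : (0 : ℝ) < k := by exact_mod_cast hk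
  have hq : 0 < qq2 κ k := mul_pos hκ (div_pos (Real.sqrt_pos.2 (by linarith)) (Real.sqrt_pos.2 hk'))
  have h3 := qq2_sq (κ := κ) hk (by linarith)
  have hL0 : 0 < Real.log k := by linarith
  have e : k * qq2 κ k / Real.log k = k * qq2 κ k ^ 2 / Real.log k * (qq2 κ k)⁻¹ := by field_simp
  rw [e, h3]
  field_simp

end Pool.Agent.N417.CL
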