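import Mathlib
import Pool.Agent.N417.CL.E

/-!
# Pairs between consecutive squares
-/

set_option autoImplicit false
set_option linter.unusedSectionVars false

open MeasureTheory Filter Set
open scoped ENNReal Topology

namespace Pool.Agent.N417.CL

open Pool.Agent.R528.RM Pool.Agent.N740.HK Pool.Agent.N417.LD

variable {Ω : Type} {m0 : MeasurableSpace Ω} {μ : Measure Ω} [IsProbabilityMeasure μ]
  {ℱ : Filtration ℕ m0} {A : ℕ → Set Ω}

/-- concentration of the counts in windows -/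
lemma cnt_conc (hA : ∀ n, MeasurableSet[ℱ n] (A n)) (T H : ℕ → ℕ) :
    ∀ᵐ ω ∂μ, ∀ ε : ℝ, 0 < ε → ∃ C : ℝ, 0 < C ∧ ∀ᶠ k : ℕ in atTop,
      |CN A (T k) (H k) ω - CV μ ℱ A (T k) (H k) ω| ≤ ε * CV μ ℱ A (T k) (H k) ω + C * Real.log k := by
  classical
  have h1 : ∀ᵐ ω ∂μ, ∀ m : ℕ, ∀ᶠ n : ℕ in atTop,
      |∑ t ∈ Finset.range (T n + H n), (if T n ≤ t then (1 : ℝ) else 0) * J1 A (t + 1) ω -
        ∑ t ∈ Finset.range (T n + H n), (if T n ≤ t then (1 : ℝ) else 0) * dens μ ℱ A t ω| ≤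
        (1 / ((m : ℝ) + 1)) * (∑ t ∈ Finset.range (T n + H n), (if T n ≤ t then (1 : ℝ) else 0) * dens μ ℱ A t ω) +
          (2 / min 1 (1 / ((m : ℝ) + 1))) * Real.log n := by
    rw [ae_all_iff]
    intro m
    exact conc hA (by positivity) (fun n t _ => if T n ≤ t then (1 : ℝ) else 0) (fun n => T n + H n)
      (fun n t => stronglyMeasurable_const) (fun n t ω => by split_ifs <;> norm_num)
  have key : ∀ (a b : ℕ) (f : ℕ → ℝ), ∑ t ∈ Finset.range (a + b), (if a ≤ t then (1 : ℝ) else 0) * f t =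
      ∑ i ∈ Finset.range b, f (a + i) := by
    intro a b f
    rw [Finset.sum_range_add]
    have e1 : ∑ x ∈ Finset.range a, (if a ≤ x then (1 : ℝ) else 0) * f x = 0 := by
      refine Finset.sum_eq_zero fun i hi => ?_
      have := Finset.mem_range.1 hi
      rw [if_neg (by omega), zero_mul]
    rw [e1, zero_add]
    refine Finset.sum_congr rfl fun i _ => ?_
    rw [if_pos (by omega), one_mul]
  filter_upwards [h1, DD'_ae (μ := μ) hA] with ω h1 h2 ε hε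
  obtain ⟨m, hm⟩ := exists_nat_one_div_lt hε
  have hC0 : 0 < 2 / min (1 : ℝ) (1 / ((m : ℝ) + 1)) := by
    have : 0 < min (1 : ℝ) (1 / ((m : ℝ) + 1)) := lt_min one_pos (by positivity)
    positivity
  refine ⟨2 / min (1 : ℝ) (1 / ((m : ℝ) + 1)), hC0, ?_⟩
  filter_upwards [h1 m] with k h3
  rw [key, key] at h3
  have e1 : ∑ i ∈ Finset.range (H k), dens μ ℱ A (T k + i) ω = CV μ ℱ A (T k) (H k) ω := by
    unfold CV
    exact Finset.sum_congr rfl fun i _ => (h2 _).symm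
  rw [e1] at h3
  refine h3.trans ?_
  have := mul_le_mul_of_nonneg_right hm.le (CV_bd (μ := μ) (ℱ := ℱ) (A := A) (T k) (H k) ω).1
  linarith

/-- the number `2 m ^ 2 + 2 m + 2 - n`, `m ^ 2 < n ≤ (m + 1) ^ 2` -/
def partner (n : ℕ) : ℕ := 2 * Nat.sqrt (n - 1) ^ 2 + 2 * Nat.sqrt (n - 1) + 2 - n

lemma partner_eq {N i : ℕ} (hi : i ≤ N) : partner (N ^ 2 + N + i + 1) = N ^ 2 + N + 1 - i := by
  have h : Nat.sqrt (N ^ 2 + N + i) = N := by
    symm
    rw [Nat.eq_sqrt]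
    constructor <;> nlinarith
  unfold partner
  rw [show N ^ 2 + N + i + 1 - 1 = N ^ 2 + N + i by omega, h]
  omega

open Classical in
/-- the larger member of a chosen pair -/
def BB (A : ℕ → Set Ω) (n : ℕ) : Set Ω := if partner n ≤ n then A n ∩ A (partner n) else ∅

open Classical in
/-- the selection -/
def SS' (A : ℕ → Set Ω) (n : ℕ) : Set Ω :=
  if partner (n + 1) ≤ n then A (partner (n + 1)) else if partner (n + 1) = n + 1 then univ else ∅

lemma BB_meas (hA : ∀ n, MeasurableSet[ℱ n] (A n)) (n : ℕ) : MeasurableSet[ℱ n] (BB A n) := by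
  unfold BB
  split_ifs with h
  · exact (hA n).inter (ℱ.mono h _ (hA _))
  · exact @MeasurableSet.empty _ (ℱ n)

lemma SS'_meas (hA : ∀ n, MeasurableSet[ℱ n] (A n)) (n : ℕ) : MeasurableSet[ℱ n] (SS' A n) := by
  unfold SS'
  split_ifs with h h2
  · exact ℱ.mono h _ (hA _)
  · exact @MeasurableSet.univ _ (ℱ n)
  · exact @MeasurableSet.empty _ (ℱ n)

lemma BB_eq (n : ℕ) : BB A (n + 1) = A (n + 1) ∩ SS' A n := by
  unfold BB SS'
  by_cases h : partner (n + 1) ≤ n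
  · rw [if_pos (by omega), if_pos h]
  · rw [if_neg h]
    by_cases h2 : partner (n + 1) = n + 1
    · rw [if_pos (by omega), if_pos h2, h2]
      simp
    · rw [if_neg (by omega), if_neg h2]
      simp

/-- the number of pairs -/
lemma CN_BB (N : ℕ) (ω : Ω) : CN (BB A) (N ^ 2 + N) (N + 1) ω =
    ∑ i ∈ Finset.range (N + 1), J1 A (N ^ 2 + N + i + 1) ω * J1 A (N ^ 2 + N + 1 - i) ω := by
  unfold CN
  refine Finset.sum_congr rfl fun i hi => ?_
  have hi := Finset.mem_range.1 hi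
  have hp := partner_eq (N := N) (i := i) (by omega)
  have e : BB A (N ^ 2 + N + i + 1) = A (N ^ 2 + N + i + 1) ∩ A (N ^ 2 + N + 1 - i) := by
    unfold BB
    rw [hp, if_pos (by omega)]
  unfold J1
  rw [e]
  by_cases h1 : ω ∈ A (N ^ 2 + N + i + 1)
  · by_cases h2 : ω ∈ A (N ^ 2 + N + 1 - i)
    · rw [indicator_of_mem h1, indicator_of_mem h2, indicator_of_mem (show ω ∈ _ ∩ _ from ⟨h1, h2⟩), one_mul]
    · rw [indicator_of_notMem h2, indicator_of_notMem (fun h => h2 h.2), mul_zero]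
  · rw [indicator_of_notMem h1, indicator_of_notMem (fun h => h1 h.1), zero_mul]

/-- the selected trials are counted by the chosen integers of the first half -/
lemma sel_sum (N : ℕ) (ω : Ω) : ∑ i ∈ Finset.range (N + 1), (SS' A (N ^ 2 + N + i)).indicator (fun _ => (1 : ℝ)) ω =
    1 + CN A (N ^ 2) N ω := by
  rw [Finset.sum_range_succ']
  have e0 : (SS' A (N ^ 2 + N + 0)).indicator (fun _ => (1 : ℝ)) ω = 1 := by
    have hp := partner_eq (N := N) (i := 0) (by omega)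
    have : SS' A (N ^ 2 + N + 0) = univ := by
      unfold SS'
      rw [hp, if_neg (by omega), if_pos (by omega)]
    rw [this, indicator_univ]
  rw [e0, add_comm]
  congr 1
  unfold CN
  rw [← Finset.sum_range_reflect (fun i => J1 A (N ^ 2 + i + 1) ω)]
  refine Finset.sum_congr rfl fun i hi => ?_
  have hi := Finset.mem_range.1 hi
  have hp := partner_eq (N := N) (i := i + 1) (by omega)
  have e : SS' A (N ^ 2 + N + (i + 1)) = A (N ^ 2 + (N - 1 - i) + 1) := by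
    unfold SS'
    rw [hp, if_pos (by omega)]
    congr 1
    omega
  unfold J1
  rw [e]

lemma CV_BB_ae (hA : ∀ n, MeasurableSet[ℱ n] (A n)) : ∀ᵐ ω ∂μ, ∀ N : ℕ, CV μ ℱ (BB A) (N ^ 2 + N) (N + 1) ω =
    ∑ i ∈ Finset.range (N + 1), (SS' A (N ^ 2 + N + i)).indicator (fun _ => (1 : ℝ)) ω * DD' μ ℱ A (N ^ 2 + N + i) ω := by
  filter_upwards [DD_select (μ := μ) hA (BB_meas hA) (SS'_meas hA) (BB_eq (A := A))] with ω hω N
  unfold CV
  refine Finset.sum_congr rfl fun i _ => ?_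
  rw [hω]
  by_cases h : ω ∈ SS' A (N ^ 2 + N + i)
  · rw [indicator_of_mem h, indicator_of_mem h, one_mul]
  · rw [indicator_of_notMem h, indicator_of_notMem h, zero_mul]

lemma DD_BB_le (hA : ∀ n, MeasurableSet[ℱ n] (A n)) : ∀ᵐ ω ∂μ, ∀ n : ℕ, DD' μ ℱ (BB A) n ω ≤ DD' μ ℱ A n ω := by
  filter_upwards [DD_select (μ := μ) hA (BB_meas hA) (SS'_meas hA) (BB_eq (A := A))] with ω hω n
  rw [hω]
  exact indicator_le_self' (fun _ _ => (DD'_bd _ _).1) ω

lemma qq2_pos {κ : ℝ} (hκ : 0 < κ) : ∀ᶠ k : ℕ in atTop, 0 < qq2 κ k := by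
  filter_upwards [tendsto_logN.eventually_ge_atTop 1, eventually_gt_atTop 0] with k hL hk
  have hk' : (0 : ℝ) < k := by exact_mod_cast hk
  exact mul_pos hκ (div_pos (Real.sqrt_pos.2 (by linarith)) (Real.sqrt_pos.2 hk'))

/-- the compensator of the pairs, lower bound -/
lemma V_lower (hA : ∀ n, MeasurableSet[ℱ n] (A n)) {κ : ℝ} (hκ : 0 < κ)
    (hq : ∀ᵐ ω ∂μ, ∀ᶠ k : ℕ in atTop, ∀ r : ℕ, k ^ 2 ≤ r → r ≤ (k + 1) ^ 2 → qq2 κ k ≤ DD' μ ℱ A r ω) :
    ∀ᵐ ω ∂μ, ∀ ε : ℝ, 0 < ε → ∀ᶠ k : ℕ in atTop,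
      (1 - ε) * (2 * κ ^ 2 * Real.log k) ≤ CV μ ℱ (BB A) (k ^ 2 + k) (k + 1) ω := by
  filter_upwards [hq, cnt_conc (μ := μ) hA (fun k => k ^ 2) (fun k => k), CV_BB_ae (μ := μ) hA] with ω h1 h2 h3 ε hε
  obtain ⟨C, hC, h4⟩ := h2 (min (ε / 2) 1) (lt_min (by positivity) one_pos)
  have hq0 : Tendsto (fun k : ℕ => C * qq2 κ k) atTop (𝓝 0) := by
    have := (qq2_lim κ).const_mul C
    rwa [mul_zero] at this
  filter_upwards [h1, h4, qq2_pos hκ, tendsto_logN.eventually_ge_atTop 1, eventually_gt_atTop 0,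
    hq0.eventually_le_const (show 0 < ε / 2 * (2 * κ ^ 2) by positivity)] with k g1 g2 g3 g4 g5 g6
  rw [h3 k]
  have hVk : k * qq2 κ k ≤ CV μ ℱ A (k ^ 2) k ω := by
    unfold CV
    have e : ∑ i ∈ Finset.range k, qq2 κ k = k * qq2 κ k := by simp
    rw [← e]
    refine Finset.sum_le_sum fun i hi => g1 _ (by omega) ?_
    have := Finset.mem_range.1 hi
    nlinarith
  have hCN : (1 - ε / 2) * (k * qq2 κ k) - C * Real.log k ≤ CN A (k ^ 2) k ω := by
    have h5 := (abs_le.1 g2).1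
    have h6 : min (ε / 2) 1 ≤ ε / 2 := min_le_left _ _
    have h7 : min (ε / 2) 1 ≤ 1 := min_le_right _ _
    have h8 : (1 - min (ε / 2) 1) * (k * qq2 κ k) ≤ (1 - min (ε / 2) 1) * CV μ ℱ A (k ^ 2) k ω :=
      mul_le_mul_of_nonneg_left hVk (by linarith)
    have h9 : (1 - ε / 2) * (k * qq2 κ k) ≤ (1 - min (ε / 2) 1) * (k * qq2 κ k) :=
      mul_le_mul_of_nonneg_right (by linarith) (by positivity)
    linarith
  have hsum : (1 + CN A (k ^ 2) k ω) * qq2 κ k ≤ ∑ i ∈ Finset.range (k + 1),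
      (SS' A (k ^ 2 + k + i)).indicator (fun _ => (1 : ℝ)) ω * DD' μ ℱ A (k ^ 2 + k + i) ω := by
    rw [← sel_sum, Finset.sum_mul]
    refine Finset.sum_le_sum fun i hi => ?_
    have := Finset.mem_range.1 hi
    exact mul_le_mul_of_nonneg_left (g1 _ (by omega) (by nlinarith)) (indicator_nonneg (fun _ _ => zero_le_one) _)
  refine le_trans ?_ hsum
  have h10 := mul_le_mul_of_nonneg_right hCN g3.le
  have h11 := qq2_sq (κ := κ) g5 (by linarith)
  have h12 : C * qq2 κ k * Real.log k ≤ ε / 2 * (2 * κ ^ 2) * Real.log k := mul_le_mul_of_nonneg_right g6 (by linarith)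
  have e1 : ((1 - ε / 2) * (k * qq2 κ k) - C * Real.log k) * qq2 κ k =
      (1 - ε / 2) * (k * qq2 κ k ^ 2) - C * qq2 κ k * Real.log k := by ring
  rw [e1, h11] at h10
  nlinarith

/-- the compensator of the pairs, upper bound -/
lemma V_upper (hA : ∀ n, MeasurableSet[ℱ n] (A n)) {κ : ℝ} (hκ : 0 < κ)
    (hq : ∀ᵐ ω ∂μ, ∀ᶠ k : ℕ in atTop, ∀ r : ℕ, k ^ 2 ≤ r → r ≤ (k + 1) ^ 2 → DD' μ ℱ A r ω ≤ qq2 κ k) :
    ∀ᵐ ω ∂μ, ∀ ε : ℝ, 0 < ε → ∀ᶠ k : ℕ in atTop,
      CV μ ℱ (BB A) (k ^ 2 + k) (k + 1) ω ≤ (1 + ε) * (2 * κ ^ 2 * Real.log k) := by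
  filter_upwards [hq, cnt_conc (μ := μ) hA (fun k => k ^ 2) (fun k => k), CV_BB_ae (μ := μ) hA] with ω h1 h2 h3 ε hε
  obtain ⟨C, hC, h4⟩ := h2 (ε / 2) (by positivity)
  have hq0 : Tendsto (fun k : ℕ => (C + 1) * qq2 κ k) atTop (𝓝 0) := by
    have := (qq2_lim κ).const_mul (C + 1)
    rwa [mul_zero] at this
  filter_upwards [h1, h4, qq2_pos hκ, tendsto_logN.eventually_ge_atTop 1, eventually_gt_atTop 0,
    hq0.eventually_le_const (show 0 < ε / 2 * (2 * κ ^ 2) by positivity)] with k g1 g2 g3 g4 g5 g6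
  rw [h3 k]
  have hVk : CV μ ℱ A (k ^ 2) k ω ≤ k * qq2 κ k := by
    unfold CV
    have e : ∑ i ∈ Finset.range k, qq2 κ k = k * qq2 κ k := by simp
    rw [← e]
    refine Finset.sum_le_sum fun i hi => g1 _ (by omega) ?_
    have := Finset.mem_range.1 hi
    nlinarith
  have hCN : CN A (k ^ 2) k ω ≤ (1 + ε / 2) * (k * qq2 κ k) + C * Real.log k := by
    have h5 := (abs_le.1 g2).2
    have h8 : (1 + ε / 2) * CV μ ℱ A (k ^ 2) k ω ≤ (1 + ε / 2) * (k * qq2 κ k) :=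
      mul_le_mul_of_nonneg_left hVk (by linarith)
    linarith
  have hsum : ∑ i ∈ Finset.range (k + 1), (SS' A (k ^ 2 + k + i)).indicator (fun _ => (1 : ℝ)) ω *
      DD' μ ℱ A (k ^ 2 + k + i) ω ≤ (1 + CN A (k ^ 2) k ω) * qq2 κ k := by
    rw [← sel_sum, Finset.sum_mul]
    refine Finset.sum_le_sum fun i hi => ?_
    have := Finset.mem_range.1 hi
    exact mul_le_mul_of_nonneg_left (g1 _ (by omega) (by nlinarith)) (indicator_nonneg (fun _ _ => zero_le_one) _)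
  refine hsum.trans ?_
  have h10 := mul_le_mul_of_nonneg_right (add_le_add (show (1 : ℝ) ≤ Real.log k from g4) hCN) g3.le
  have h11 := qq2_sq (κ := κ) g5 (by linarith)
  have h12 : (C + 1) * qq2 κ k * Real.log k ≤ ε / 2 * (2 * κ ^ 2) * Real.log k := mul_le_mul_of_nonneg_right g6 (by linarith)
  have e1 : (Real.log k + ((1 + ε / 2) * (k * qq2 κ k) + C * Real.log k)) * qq2 κ k =
      (1 + ε / 2) * (k * qq2 κ k ^ 2) + (C + 1) * qq2 κ k * Real.log k := by ring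
  rw [e1, h11] at h10
  nlinarith

end Pool.Agent.N417.CL
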