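import Mathlib
import Pool.Agent.N417.CL.F

/-!
# Pairs between consecutive squares: the critical density
-/

set_option autoImplicit false
set_option linter.unusedSectionVars false

open MeasureTheory Filter Set
open scoped ENNReal Topology

namespace Pool.Agent.N417.CL

open Pool.Agent.R528.RM Pool.Agent.N740.HK Pool.Agent.N417.LD

variable {Ω : Type} {m0 : MeasurableSpace Ω} {μ : Measure Ω} [IsProbabilityMeasure μ]
  {ℱ : Filtration ℕ m0} {A : ℕ → Set Ω}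

/-- above the critical density -/
theorem pairs_pos (hA : ∀ n, MeasurableSet[ℱ n] (A n)) {κ' : ℝ} (hκ0 : 0 < κ') (hκ : 1 < 2 * κ' ^ 2)
    (hd : ∀ᵐ ω ∂μ, ∀ᶠ n : ℕ in atTop, κ' ≤ dens μ ℱ A n ω * √(√(n : ℝ)) / √(Real.log n)) :
    ∀ᵐ ω ∂μ, ∀ᶠ N : ℕ in atTop, 0 < CN (BB A) (N ^ 2 + N) (N + 1) ω := by
  obtain ⟨κ, k1, k2, k3⟩ : ∃ κ : ℝ, 0 < κ ∧ κ < κ' ∧ 1 < 2 * κ ^ 2 := by
    have m1 : Tendsto (fun κ : ℝ => 2 * κ ^ 2) (𝓝 κ') (𝓝 (2 * κ' ^ 2)) := by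
      have : Continuous (fun κ : ℝ => 2 * κ ^ 2) := by fun_prop
      exact this.tendsto κ'
    have j1 : ∀ᶠ κ : ℝ in 𝓝[<] κ', κ < κ' := eventually_mem_nhdsWithin
    have j2 : ∀ᶠ κ : ℝ in 𝓝[<] κ', 0 < κ := (eventually_gt_nhds hκ0).filter_mono nhdsWithin_le_nhds
    have j3 := (m1.eventually_const_lt hκ).filter_mono (nhdsWithin_le_nhds (s := Iio κ'))
    obtain ⟨κ, a1, a2, a3⟩ := (j1.and (j2.and j3)).exists
    exact ⟨κ, a2, a1, a3⟩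
  obtain ⟨ε, e1, e2⟩ : ∃ ε : ℝ, 0 < ε ∧ 1 < (1 - ε) * (2 * κ ^ 2) := by
    have m1 : Tendsto (fun ε : ℝ => (1 - ε) * (2 * κ ^ 2)) (𝓝 0) (𝓝 (2 * κ ^ 2)) := by
      have : Continuous (fun ε : ℝ => (1 - ε) * (2 * κ ^ 2)) := by fun_prop
      have h := this.tendsto 0
      simpa using h
    have j1 : ∀ᶠ ε : ℝ in 𝓝[>] 0, 0 < ε := eventually_mem_nhdsWithin
    have j3 := (m1.eventually_const_lt k3).filter_mono (nhdsWithin_le_nhds (s := Ioi (0 : ℝ)))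
    obtain ⟨ε, a1, a3⟩ := (j1.and j3).exists
    exact ⟨ε, a1, a3⟩
  refine pos_all (T := fun N => N ^ 2 + N) (H := fun N => N + 1) (BB_meas hA) e2 ?_
  filter_upwards [V_lower hA k1 (sq_lower hA k1 k2 hd)] with ω hω
  filter_upwards [hω ε e1] with k hk
  rw [mul_assoc]
  exact hk

/-- below the critical density -/
theorem pairs_zero (hA : ∀ n, MeasurableSet[ℱ n] (A n)) {κ' : ℝ} (hκ0 : 0 < κ') (hκ : 2 * κ' ^ 2 < 1)
    (hd : ∀ᵐ ω ∂μ, ∀ᶠ n : ℕ in atTop, dens μ ℱ A n ω * √(√(n : ℝ)) / √(Real.log n) ≤ κ') :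
    ∀ᵐ ω ∂μ, ∀ K : ℕ, ∃ N, K ≤ N ∧ CN (BB A) (N ^ 2 + N) (N + 1) ω = 0 := by
  obtain ⟨κ, k2, k3⟩ : ∃ κ : ℝ, κ' < κ ∧ 2 * κ ^ 2 < 1 := by
    have m1 : Tendsto (fun κ : ℝ => 2 * κ ^ 2) (𝓝 κ') (𝓝 (2 * κ' ^ 2)) := by
      have : Continuous (fun κ : ℝ => 2 * κ ^ 2) := by fun_prop
      exact this.tendsto κ'
    have j1 : ∀ᶠ κ : ℝ in 𝓝[>] κ', κ' < κ := eventually_mem_nhdsWithin
    have j3 := (m1.eventually_lt_const hκ).filter_mono (nhdsWithin_le_nhds (s := Ioi κ'))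
    obtain ⟨κ, a1, a3⟩ := (j1.and j3).exists
    exact ⟨κ, a1, a3⟩
  have k1 : 0 < κ := by linarith
  obtain ⟨ε, e1, e2⟩ : ∃ ε : ℝ, 0 < ε ∧ (1 + ε) * (2 * κ ^ 2) < 1 := by
    have m1 : Tendsto (fun ε : ℝ => (1 + ε) * (2 * κ ^ 2)) (𝓝 0) (𝓝 (2 * κ ^ 2)) := by
      have : Continuous (fun ε : ℝ => (1 + ε) * (2 * κ ^ 2)) := by fun_prop
      have h := this.tendsto 0
      simpa using h
    have j1 : ∀ᶠ ε : ℝ in 𝓝[>] 0, 0 < ε := eventually_mem_nhdsWithin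
    have j3 := (m1.eventually_lt_const k3).filter_mono (nhdsWithin_le_nhds (s := Ioi (0 : ℝ)))
    obtain ⟨ε, a1, a3⟩ := (j1.and j3).exists
    exact ⟨ε, a1, a3⟩
  refine zero_io (T := fun N => N ^ 2 + N) (H := fun N => N + 1) (c := (1 + ε) * (2 * κ ^ 2)) (BB_meas hA) (by positivity) e2
    (fun k => ?_) ?_
  · show k ^ 2 + k + (k + 1) ≤ (k + 1) ^ 2 + (k + 1)
    nlinarith
  filter_upwards [V_upper hA k1 (sq_upper hA hκ0 k2 hd), sq_upper hA hκ0 k2 hd, DD_BB_le (μ := μ) hA] with ω hω h2 h3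
  constructor
  · filter_upwards [hω ε e1] with k hk
    rw [mul_assoc]
    exact hk
  · intro η hη
    filter_upwards [h2, (qq2_lim κ).eventually_le_const hη] with k g1 g2 i hi
    have hi' : i < k + 1 := hi
    exact (h3 _).trans ((g1 _ (by omega) (by nlinarith)).trans g2)

/-- at the critical density -/
theorem pairs_law (hA : ∀ n, MeasurableSet[ℱ n] (A n)) {κ : ℝ} (hκ : 0 < κ)
    (hd : ∀ᵐ ω ∂μ, Tendsto (fun n : ℕ => dens μ ℱ A n ω * √(√(n : ℝ)) / √(Real.log n)) atTop (𝓝 κ)) :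
    ∀ᵐ ω ∂μ, (∀ x : ℝ, 0 ≤ x → 2 * κ ^ 2 * hh x ≤ 1 → ∀ ε : ℝ, 0 < ε → ∀ K : ℕ, ∃ k, K ≤ k ∧
        |CN (BB A) (k ^ 2 + k) (k + 1) ω / Real.log k - 2 * κ ^ 2 * x| < ε) ∧
      ∀ ε : ℝ, 0 < ε → ∀ᶠ k : ℕ in atTop, ∃ x : ℝ, 0 ≤ x ∧ 2 * κ ^ 2 * hh x ≤ 1 ∧
        |CN (BB A) (k ^ 2 + k) (k + 1) ω / Real.log k - 2 * κ ^ 2 * x| < ε := by
  refine cl_law (T := fun N => N ^ 2 + N) (H := fun N => N + 1) (c := 2 * κ ^ 2) (BB_meas hA) (by positivity) (fun k => ?_) ?_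
  · show k ^ 2 + k + (k + 1) ≤ (k + 1) ^ 2 + (k + 1)
    nlinarith
  -- rational multiples of `κ`
  have lo : ∀ᵐ ω ∂μ, ∀ m : ℕ, ∀ ε : ℝ, 0 < ε → ∀ᶠ k : ℕ in atTop,
      (1 - ε) * (2 * (κ * (1 - 1 / ((m : ℝ) + 3))) ^ 2 * Real.log k) ≤ CV μ ℱ (BB A) (k ^ 2 + k) (k + 1) ω := by
    rw [ae_all_iff]
    intro m
    have hm1 : (1 : ℝ) / ((m : ℝ) + 3) ≤ 1 / 2 := one_div_le_one_div_of_le (by norm_num) (by
      have : (0 : ℝ) ≤ m := Nat.cast_nonneg m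
      linarith)
    have hm0 : (0 : ℝ) < 1 / ((m : ℝ) + 3) := by positivity
    have hx0 : 0 < κ * (1 - 1 / ((m : ℝ) + 3)) := mul_pos hκ (by linarith)
    have hx1 : κ * (1 - 1 / ((m : ℝ) + 3)) < κ * (1 - 1 / ((m : ℝ) + 3) / 2) := mul_lt_mul_of_pos_left (by linarith) hκ
    refine V_lower hA hx0 (sq_lower hA hx0 hx1 ?_)
    filter_upwards [hd] with ω hω
    refine hω.eventually_const_le ?_
    nlinarith
  have hi : ∀ᵐ ω ∂μ, ∀ m : ℕ, ∀ ε : ℝ, 0 < ε → ∀ᶠ k : ℕ in atTop,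
      CV μ ℱ (BB A) (k ^ 2 + k) (k + 1) ω ≤ (1 + ε) * (2 * (κ * (1 + 1 / ((m : ℝ) + 3))) ^ 2 * Real.log k) := by
    rw [ae_all_iff]
    intro m
    have hm0 : (0 : ℝ) < 1 / ((m : ℝ) + 3) := by positivity
    have hx0 : 0 < κ * (1 + 1 / ((m : ℝ) + 3)) := by positivity
    have hx2 : 0 < κ * (1 + 1 / ((m : ℝ) + 3) / 2) := by positivity
    have hx1 : κ * (1 + 1 / ((m : ℝ) + 3) / 2) < κ * (1 + 1 / ((m : ℝ) + 3)) := mul_lt_mul_of_pos_left (by linarith) hκ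
    refine V_upper hA hx0 (sq_upper hA hx2 hx1 ?_)
    filter_upwards [hd] with ω hω
    refine hω.eventually_le_const ?_
    nlinarith
  have sm : ∀ᵐ ω ∂μ, ∀ᶠ k : ℕ in atTop, ∀ r : ℕ, k ^ 2 ≤ r → r ≤ (k + 1) ^ 2 → DD' μ ℱ A r ω ≤ qq2 (2 * κ) k := by
    refine sq_upper hA (κ' := 3 / 2 * κ) (by positivity) (by linarith) ?_
    filter_upwards [hd] with ω hω
    refine hω.eventually_le_const ?_
    linarith
  filter_upwards [lo, hi, sm, DD_BB_le (μ := μ) hA] with ω h1 h2 h3 h4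
  constructor
  · rw [Metric.tendsto_nhds]
    intro ε hε
    have m1 : Tendsto (fun t : ℝ => (1 - t) * (2 * (κ * (1 - t)) ^ 2)) (𝓝 0) (𝓝 (2 * κ ^ 2)) := by
      have : Continuous (fun t : ℝ => (1 - t) * (2 * (κ * (1 - t)) ^ 2)) := by fun_prop
      have h := this.tendsto 0
      simpa using h
    have m2 : Tendsto (fun t : ℝ => (1 + t) * (2 * (κ * (1 + t)) ^ 2)) (𝓝 0) (𝓝 (2 * κ ^ 2)) := by
      have : Continuous (fun t : ℝ => (1 + t) * (2 * (κ * (1 + t)) ^ 2)) := by fun_prop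
      have h := this.tendsto 0
      simpa using h
    have hseq : Tendsto (fun m : ℕ => 1 / ((m : ℝ) + 3)) atTop (𝓝 0) :=
      Tendsto.const_div_atTop (tendsto_atTop_add_const_right _ _ tendsto_natCast_atTop_atTop) 1
    obtain ⟨m, q1, q2⟩ := (((m1.comp hseq).eventually_const_lt (show 2 * κ ^ 2 - ε < 2 * κ ^ 2 by linarith)).and
      ((m2.comp hseq).eventually_lt_const (show 2 * κ ^ 2 < 2 * κ ^ 2 + ε by linarith))).exists
    simp only [Function.comp] at q1 q2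
    have hm0 : (0 : ℝ) < 1 / ((m : ℝ) + 3) := by positivity
    filter_upwards [h1 m _ hm0, h2 m _ hm0, tendsto_logN.eventually_gt_atTop 0] with k g1 g2 g3
    rw [Real.dist_eq, abs_lt]
    have f1 : (1 - 1 / ((m : ℝ) + 3)) * (2 * (κ * (1 - 1 / ((m : ℝ) + 3))) ^ 2) ≤
        CV μ ℱ (BB A) (k ^ 2 + k) (k + 1) ω / Real.log k := by
      rw [le_div_iff₀ g3]
      linarith
    have f2 : CV μ ℱ (BB A) (k ^ 2 + k) (k + 1) ω / Real.log k ≤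
        (1 + 1 / ((m : ℝ) + 3)) * (2 * (κ * (1 + 1 / ((m : ℝ) + 3))) ^ 2) := by
      rw [div_le_iff₀ g3]
      linarith
    constructor <;> linarith
  · intro η hη
    filter_upwards [h3, (qq2_lim (2 * κ)).eventually_le_const hη] with k g1 g2 i hi
    have hi' : i < k + 1 := hi
    exact (h4 _).trans ((g1 _ (by omega) (by nlinarith)).trans g2)

/-- `k` between `2` and `2 N`, against the pairs -/
lemma sum_pairs {J : ℕ → ℝ} (h01 : ∀ n, 0 ≤ J n ∧ J n ≤ 1) {N : ℕ} (hN : 2 ≤ N) :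
    ∑ i ∈ Finset.range (N + 1), J (N ^ 2 + N + i + 1) * J (N ^ 2 + N + 1 - i) ≤
      ∑ k ∈ Finset.Icc 2 (2 * N), J (N ^ 2 + k + 1) * J ((N + 1) ^ 2 - k) ∧
    ∑ k ∈ Finset.Icc 2 (2 * N), J (N ^ 2 + k + 1) * J ((N + 1) ^ 2 - k) ≤
      2 * ∑ i ∈ Finset.range (N + 1), J (N ^ 2 + N + i + 1) * J (N ^ 2 + N + 1 - i) ∧
    2 * ∑ i ∈ Finset.range (N + 1), J (N ^ 2 + N + i + 1) * J (N ^ 2 + N + 1 - i) - 3 ≤
      ∑ k ∈ Finset.Icc 2 (2 * N), J (N ^ 2 + k + 1) * J ((N + 1) ^ 2 - k) := by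
  set g : ℕ → ℝ := fun k => J (N ^ 2 + k + 1) * J ((N + 1) ^ 2 - k) with hg
  have g01 : ∀ k, 0 ≤ g k ∧ g k ≤ 1 := fun k =>
    ⟨mul_nonneg (h01 _).1 (h01 _).1, mul_le_one₀ (h01 _).2 (h01 _).1 (h01 _).2⟩
  have hsq : (N + 1) ^ 2 = N ^ 2 + 2 * N + 1 := by ring
  have hrep : ∑ i ∈ Finset.range (N + 1), J (N ^ 2 + N + i + 1) * J (N ^ 2 + N + 1 - i) = ∑ i ∈ Finset.range (N + 1), g (N + i) := by
    refine Finset.sum_congr rfl fun i hi => ?_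
    have hi := Finset.mem_range.1 hi
    simp only [hg]
    rw [hsq, show N ^ 2 + N + i + 1 = N ^ 2 + (N + i) + 1 by omega,
      show N ^ 2 + N + 1 - i = N ^ 2 + 2 * N + 1 - (N + i) by omega]
  rw [hrep]
  set R : ℝ := ∑ i ∈ Finset.range (N + 1), g (N + i) with hR
  have hsym : ∀ k, k ≤ 2 * N → g (2 * N - k) = g k := by
    intro k hk
    simp only [hg]
    rw [hsq, mul_comm]
    congr 1
    · congr 1; omega
    · congr 1; omega
  have htot : ∑ k ∈ Finset.range (2 * N + 1), g k = 2 * R - g N := by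
    rw [show 2 * N + 1 = N + (N + 1) by omega, Finset.sum_range_add]
    have h1 : ∑ x ∈ Finset.range N, g x = R - g N := by
      rw [hR, Finset.sum_range_succ', ← Finset.sum_range_reflect (fun i => g i)]
      simp only [add_zero, add_sub_cancel_right]
      refine Finset.sum_congr rfl fun i hi => ?_
      have hi := Finset.mem_range.1 hi
      rw [← hsym (N - 1 - i) (by omega)]
      congr 1
      omega
    rw [h1]
    ring
  have hsplit : ∑ k ∈ Finset.range (2 * N + 1), g k = g 0 + g 1 + ∑ k ∈ Finset.Icc 2 (2 * N), g k := by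
    rw [show Finset.Icc 2 (2 * N) = Finset.Ico 2 (2 * N + 1) from by ext; simp,
      ← Finset.sum_range_add_sum_Ico g (show 2 ≤ 2 * N + 1 by omega)]
    simp [Finset.sum_range_succ]
  have hge : R ≤ ∑ k ∈ Finset.Icc 2 (2 * N), g k := by
    have e : R = ∑ k ∈ Finset.Ico N (2 * N + 1), g k := by
      rw [Finset.sum_Ico_eq_sum_range, show 2 * N + 1 - N = N + 1 by omega]
    rw [e]
    refine Finset.sum_le_sum_of_subset_of_nonneg (fun k hk => ?_) fun k _ _ => (g01 k).1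
    have := Finset.mem_Ico.1 hk
    exact Finset.mem_Icc.2 (by omega)
  have g0 := g01 0
  have g1 := g01 1
  have gN := g01 N
  refine ⟨hge, ?_, ?_⟩ <;> linarith

end Pool.Agent.N417.CL
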