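import Mathlib
import Pool.Agent.N417.CL.F

/-!
# Densities between consecutive powers
-/

set_option autoImplicit false
set_option linter.unusedSectionVars false

open MeasureTheory Filter Set
open scoped ENNReal Topology

namespace Pool.Agent.N417.CL

open Pool.Agent.R528.RM Pool.Agent.N740.HK Pool.Agent.N417.LD

/-- the exponent `(s - 1) / (2 s)` -/
noncomputable def ex (s : ℕ) : ℝ := ((s : ℝ) - 1) / (2 * s)

/-- `√(s log n) / n ^ ((s - 1) / 2)` -/
noncomputable def q1 (s n : ℕ) : ℝ := √(s * Real.log n) / (n : ℝ) ^ (((s : ℝ) - 1) / 2)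

/-- the number of integers strictly between `n ^ s` and `(n + 1) ^ s` -/
def Ls (s n : ℕ) : ℕ := (n + 1) ^ s - n ^ s - 1

lemma log_shift (a : ℝ) : Tendsto (fun n : ℕ => Real.log ((n : ℝ) + a) / Real.log n) atTop (𝓝 1) := by
  have h1 : Tendsto (fun n : ℕ => Real.log (((n : ℝ) / (n + a))⁻¹)) atTop (𝓝 0) := by
    have h2 := (k_lim a).inv₀ one_ne_zero
    have h3 := (Real.continuousAt_log (inv_ne_zero one_ne_zero)).tendsto.comp h2
    rw [inv_one, Real.log_one] at h3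
    exact h3
  have h4 : Tendsto (fun n : ℕ => 1 + Real.log (((n : ℝ) / (n + a))⁻¹) / Real.log n) atTop (𝓝 (1 + 0)) :=
    tendsto_const_nhds.add (h1.div_atTop tendsto_logN)
  rw [add_zero] at h4
  have h5 : Tendsto (fun k : ℕ => (k : ℝ) + a) atTop atTop :=
    tendsto_atTop_add_const_right _ _ tendsto_natCast_atTop_atTop
  refine h4.congr' ?_
  filter_upwards [h5.eventually_gt_atTop 0, eventually_gt_atTop 0, tendsto_logN.eventually_gt_atTop 0] with n h6 h7 h8
  have h7' : (0 : ℝ) < n := by exact_mod_cast h7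
  rw [inv_div, Real.log_div h6.ne' h7'.ne']
  field_simp
  ring

lemma pow_ex {s : ℕ} (hs : 2 ≤ s) {x : ℝ} (hx : 0 ≤ x) : (x ^ s) ^ ex s = x ^ (((s : ℝ) - 1) / 2) := by
  have hs0 : (s : ℝ) ≠ 0 := by positivity
  rw [← Real.rpow_natCast, ← Real.rpow_mul hx]
  congr 1
  unfold ex
  field_simp

lemma ex_pos {s : ℕ} (hs : 2 ≤ s) : 0 < ex s := by
  have : (2 : ℝ) ≤ s := by exact_mod_cast hs
  unfold ex
  apply div_pos <;> linarith

/-- `√(log r) / r ^ ((s - 1) / (2 s))` for `r` near `n ^ s` -/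
lemma near_pow {s : ℕ} (hs : 2 ≤ s) {η : ℝ} (hη : 0 < η) : ∀ᶠ n : ℕ in atTop, ∀ r : ℕ, (n - 1) ^ s ≤ r → r ≤ (n + 1) ^ s →
    1 < r ∧ (1 - η) * q1 s n ≤ √(Real.log r) / (r : ℝ) ^ ex s ∧ √(Real.log r) / (r : ℝ) ^ ex s ≤ (1 + η) * q1 s n := by
  have hs' : (2 : ℝ) ≤ s := by exact_mod_cast hs
  set t : ℝ := ((s : ℝ) - 1) / 2 with ht
  have ht0 : 0 < t := by rw [ht]; linarith
  have lo : Tendsto (fun n : ℕ => √(Real.log ((n : ℝ) + -1) / Real.log n) * ((n : ℝ) / (n + 1)) ^ t) atTop (𝓝 1) := by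
    have h1 := (log_shift (-1)).sqrt
    have h2 := (k_lim 1).rpow_const (p := t) (Or.inl one_ne_zero)
    have h3 := h1.mul h2
    rwa [Real.sqrt_one, Real.one_rpow, one_mul] at h3
  have up : Tendsto (fun n : ℕ => √(Real.log ((n : ℝ) + 1) / Real.log n) * ((n : ℝ) / (n + -1)) ^ t) atTop (𝓝 1) := by
    have h1 := (log_shift 1).sqrt
    have h2 := (k_lim (-1)).rpow_const (p := t) (Or.inl one_ne_zero)
    have h3 := h1.mul h2
    rwa [Real.sqrt_one, Real.one_rpow, one_mul] at h3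
  filter_upwards [eventually_ge_atTop 4, tendsto_logN.eventually_ge_atTop 1,
    lo.eventually_const_le (show 1 - η < 1 by linarith), up.eventually_le_const (show 1 < 1 + η by linarith)]
    with n hn hL hlo hup r hr1 hr2
  have hn' : (4 : ℝ) ≤ n := by exact_mod_cast hn
  have hr3 : ((n : ℝ) + -1) ^ s ≤ r := by
    have h : (((n - 1) ^ s : ℕ) : ℝ) ≤ r := by exact_mod_cast hr1
    rw [Nat.cast_pow, Nat.cast_sub (by omega)] at h
    push_cast at h
    exact h
  have hr4 : (r : ℝ) ≤ ((n : ℝ) + 1) ^ s := by exact_mod_cast hr2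
  have h1r : 1 < r := by
    have h1 : 3 ^ 2 ≤ (n - 1) ^ s := le_trans (Nat.pow_le_pow_right (by norm_num) hs) (Nat.pow_le_pow_left (by omega) s)
    omega
  have hr0 : (0 : ℝ) < r := by exact_mod_cast (by omega : 0 < r)
  have hm0 : (0 : ℝ) < (n : ℝ) + -1 := by linarith
  have hp0 : (0 : ℝ) < (n : ℝ) + 1 := by linarith
  have hn0 : (0 : ℝ) < n := by linarith
  have hL0 : 0 < Real.log n := by linarith
  have hlm : 0 < Real.log ((n : ℝ) + -1) := Real.log_pos (by linarith)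
  have e1 : s * Real.log ((n : ℝ) + -1) ≤ Real.log r := by
    have := Real.log_le_log (by positivity) hr3
    rwa [Real.log_pow] at this
  have e2 : Real.log r ≤ s * Real.log ((n : ℝ) + 1) := by
    have := Real.log_le_log hr0 hr4
    rwa [Real.log_pow] at this
  have f1 : ((n : ℝ) + -1) ^ t ≤ (r : ℝ) ^ ex s := by
    rw [← pow_ex hs hm0.le]
    exact Real.rpow_le_rpow (by positivity) hr3 (ex_pos hs).le
  have f2 : (r : ℝ) ^ ex s ≤ ((n : ℝ) + 1) ^ t := by
    rw [← pow_ex hs hp0.le]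
    exact Real.rpow_le_rpow hr0.le hr4 (ex_pos hs).le
  have g1 : √(s * Real.log ((n : ℝ) + -1)) ≤ √(Real.log r) := Real.sqrt_le_sqrt e1
  have g2 : √(Real.log r) ≤ √(s * Real.log ((n : ℝ) + 1)) := Real.sqrt_le_sqrt e2
  have hq : 0 < q1 s n := by
    unfold q1
    have : 0 < √(s * Real.log n) := Real.sqrt_pos.2 (by positivity)
    positivity
  refine ⟨h1r, ?_, ?_⟩
  · have h1 : √(s * Real.log ((n : ℝ) + -1)) / ((n : ℝ) + 1) ^ t ≤ √(Real.log r) / (r : ℝ) ^ ex s :=
      div_le_div₀ (Real.sqrt_nonneg _) g1 (by positivity) f2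
    refine le_trans ?_ h1
    have e : √(s * Real.log ((n : ℝ) + -1)) / ((n : ℝ) + 1) ^ t =
        (√(Real.log ((n : ℝ) + -1) / Real.log n) * ((n : ℝ) / (n + 1)) ^ t) * q1 s n := by
      unfold q1
      rw [Real.div_rpow hn0.le hp0.le, Real.sqrt_div hlm.le, Real.sqrt_mul (by positivity), Real.sqrt_mul (by positivity)]
      have : 0 < √(Real.log n) := Real.sqrt_pos.2 hL0
      have h5 : (0 : ℝ) < (n : ℝ) ^ t := by positivity
      rw [← ht]
      field_simp
    rw [e]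
    exact mul_le_mul_of_nonneg_right hlo hq.le
  · have h1 : √(Real.log r) / (r : ℝ) ^ ex s ≤ √(s * Real.log ((n : ℝ) + 1)) / ((n : ℝ) + -1) ^ t :=
      div_le_div₀ (Real.sqrt_nonneg _) g2 (by positivity) f1
    refine le_trans h1 ?_
    have e : √(s * Real.log ((n : ℝ) + 1)) / ((n : ℝ) + -1) ^ t =
        (√(Real.log ((n : ℝ) + 1) / Real.log n) * ((n : ℝ) / (n + -1)) ^ t) * q1 s n := by
      unfold q1
      have hlp : 0 < Real.log ((n : ℝ) + 1) := Real.log_pos (by linarith)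
      rw [Real.div_rpow hn0.le hm0.le, Real.sqrt_div hlp.le, Real.sqrt_mul (by positivity), Real.sqrt_mul (by positivity)]
      have : 0 < √(Real.log n) := Real.sqrt_pos.2 hL0
      have h5 : (0 : ℝ) < (n : ℝ) ^ t := by positivity
      rw [← ht]
      field_simp
    rw [e]
    exact mul_le_mul_of_nonneg_right hup hq.le

lemma Ls_cast {s : ℕ} (hs : 2 ≤ s) (n : ℕ) : (Ls s n : ℝ) = ((n : ℝ) + 1) ^ s - (n : ℝ) ^ s - 1 := by
  have h1 : n ^ s + 1 ≤ (n + 1) ^ s := Nat.pow_lt_pow_left (by omega) (by omega)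
  unfold Ls
  rw [Nat.sub_sub, Nat.cast_sub h1]
  push_cast
  ring

lemma Ls_lim {s : ℕ} (hs : 2 ≤ s) : Tendsto (fun n : ℕ => (Ls s n : ℝ) / (n : ℝ) ^ (s - 1)) atTop (𝓝 s) := by
  have lo : Tendsto (fun n : ℕ => (s : ℝ) - 1 / (n : ℝ) ^ (s - 1)) atTop (𝓝 (s - 0)) := by
    refine tendsto_const_nhds.sub (Tendsto.const_div_atTop ?_ 1)
    exact (tendsto_pow_atTop (by omega)).comp tendsto_natCast_atTop_atTop
  rw [sub_zero] at lo
  have up : Tendsto (fun n : ℕ => (s : ℝ) * (((n : ℝ) / (n + 1)) ^ (s - 1))⁻¹) atTop (𝓝 (s * (1 ^ (s - 1))⁻¹)) :=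
    (((k_lim 1).pow (s - 1)).inv₀ (by simp)).const_mul _
  rw [one_pow, inv_one, mul_one] at up
  refine tendsto_of_tendsto_of_tendsto_of_le_of_le' lo up ?_ ?_
  · filter_upwards [eventually_gt_atTop 0] with n hn
    have hn' : (0 : ℝ) < n := by exact_mod_cast hn
    rw [Ls_cast hs, le_div_iff₀ (by positivity), sub_mul, one_div_mul_cancel (by positivity)]
    have h0 : (0 : ℝ) ≤ 1 / n := by positivity
    have h1 := one_add_mul_le_pow (show (-2 : ℝ) ≤ 1 / n by linarith) s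
    have h2 := mul_le_mul_of_nonneg_left h1 (show (0 : ℝ) ≤ (n : ℝ) ^ s by positivity)
    rw [← mul_pow] at h2
    have e1 : (n : ℝ) * (1 + 1 / n) = n + 1 := by field_simp
    have e2 : (n : ℝ) ^ s * (1 + s * (1 / n)) = (n : ℝ) ^ s + s * (n : ℝ) ^ (s - 1) := by
      have : (n : ℝ) ^ s = (n : ℝ) ^ (s - 1) * n := by rw [← pow_succ]; congr 1; omega
      rw [this]
      field_simp
    rw [e1, e2] at h2
    linarith
  · filter_upwards [eventually_gt_atTop 0] with n hn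
    have hn' : (0 : ℝ) < n := by exact_mod_cast hn
    rw [Ls_cast hs, div_le_iff₀ (by positivity), div_pow, inv_div]
    have e0 : (s : ℝ) * (((n : ℝ) + 1) ^ (s - 1) / (n : ℝ) ^ (s - 1)) * (n : ℝ) ^ (s - 1) = s * ((n : ℝ) + 1) ^ (s - 1) := by
      field_simp
    rw [e0]
    have h1 := one_add_mul_le_pow (show (-2 : ℝ) ≤ -(1 / ((n : ℝ) + 1)) by
      have : 1 / ((n : ℝ) + 1) ≤ 1 := by
        rw [div_le_one (by positivity)]
        linarith
      linarith) s
    have h2 := mul_le_mul_of_nonneg_left h1 (show (0 : ℝ) ≤ ((n : ℝ) + 1) ^ s by positivity)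
    rw [← mul_pow] at h2
    have e1 : ((n : ℝ) + 1) * (1 + -(1 / ((n : ℝ) + 1))) = n := by field_simp; ring
    have e2 : ((n : ℝ) + 1) ^ s * (1 + s * -(1 / ((n : ℝ) + 1))) = ((n : ℝ) + 1) ^ s - s * ((n : ℝ) + 1) ^ (s - 1) := by
      have : ((n : ℝ) + 1) ^ s = ((n : ℝ) + 1) ^ (s - 1) * (n + 1) := by rw [← pow_succ]; congr 1; omega
      rw [this]
      field_simp
      ring
    rw [e1, e2] at h2
    linarith

lemma q1_pos (s : ℕ) (hs : 2 ≤ s) : ∀ᶠ n : ℕ in atTop, 0 < q1 s n := by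
  filter_upwards [tendsto_logN.eventually_ge_atTop 1, eventually_gt_atTop 0] with n hL hn
  have hn' : (0 : ℝ) < n := by exact_mod_cast hn
  have hs' : (0 : ℝ) < s := by exact_mod_cast (by omega : 0 < s)
  unfold q1
  have : 0 < √(s * Real.log n) := Real.sqrt_pos.2 (by positivity)
  positivity

lemma q1_sq {s : ℕ} (hs : 2 ≤ s) {n : ℕ} (hn : 0 < n) (hL : 0 ≤ Real.log n) :
    q1 s n ^ 2 = s * Real.log n / (n : ℝ) ^ (s - 1) := by
  have hn' : (0 : ℝ) < n := by exact_mod_cast hn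
  unfold q1
  rw [div_pow, Real.sq_sqrt (by positivity), ← Real.rpow_natCast ((n : ℝ) ^ (((s : ℝ) - 1) / 2)), ← Real.rpow_mul hn'.le]
  congr 1
  rw [← Real.rpow_natCast (n : ℝ) (s - 1), Nat.cast_sub (by omega)]
  congr 1
  push_cast
  ring

lemma q1_lim {s : ℕ} (hs : 2 ≤ s) : Tendsto (q1 s) atTop (𝓝 0) := by
  have hlk : Tendsto (fun n : ℕ => s * (Real.log n / n)) atTop (𝓝 0) := by
    have h : Tendsto (fun x : ℝ => Real.log x / x) atTop (𝓝 0) := Real.isLittleO_log_id_atTop.tendsto_div_nhds_zero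
    have := (h.comp tendsto_natCast_atTop_atTop).const_mul (s : ℝ)
    rwa [mul_zero] at this
  have h2 : Tendsto (fun n : ℕ => q1 s n ^ 2) atTop (𝓝 0) := by
    refine tendsto_of_tendsto_of_tendsto_of_le_of_le' tendsto_const_nhds hlk ?_ ?_
    · filter_upwards with n
      positivity
    · filter_upwards [tendsto_logN.eventually_ge_atTop 1, eventually_gt_atTop 0] with n hL hn
      rw [q1_sq hs hn (by linarith), mul_div_assoc]
      have hn' : (1 : ℝ) ≤ n := by exact_mod_cast hn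
      apply mul_le_mul_of_nonneg_left _ (Nat.cast_nonneg s)
      apply div_le_div_of_nonneg_left (by linarith) (by linarith)
      exact le_self_pow₀ hn' (by omega)
  have h3 := h2.sqrt
  rw [Real.sqrt_zero] at h3
  refine h3.congr' ?_
  filter_upwards [q1_pos s hs] with n hn
  exact Real.sqrt_sq hn.le

lemma Lq2_lim {s : ℕ} (hs : 2 ≤ s) : Tendsto (fun n : ℕ => Ls s n * q1 s n ^ 2 / Real.log n) atTop (𝓝 ((s : ℝ) ^ 2)) := by
  have h := (Ls_lim hs).const_mul (s : ℝ)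
  rw [← sq] at h
  refine h.congr' ?_
  filter_upwards [tendsto_logN.eventually_ge_atTop 1, eventually_gt_atTop 0] with n hL hn
  have hn' : (0 : ℝ) < n := by exact_mod_cast hn
  rw [q1_sq hs hn (by linarith)]
  have hL0 : 0 < Real.log n := by linarith
  field_simp

end Pool.Agent.N417.CL
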