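import Mathlib
import Pool.Agent.N417.CL.S1

/-!
# Consecutive chosen integers with a given difference: the compensator
-/

set_option autoImplicit false
set_option linter.unusedSectionVars false

open MeasureTheory Filter Set
open scoped ENNReal Topology

namespace Pool.Agent.N417.CL

open Pool.Agent.R528.RM Pool.Agent.N740.HK Pool.Agent.N417.LD

variable {Ω : Type} {m0 : MeasurableSpace Ω} {μ : Measure Ω} [IsProbabilityMeasure μ]
  {ℱ : Filtration ℕ m0} {A : ℕ → Set Ω}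

open Classical in
/-- `t + 1 - h` is chosen and nothing between this and `t + 1` -/
def WH (h : ℕ) (A : ℕ → Set Ω) (t : ℕ) : Set Ω :=
  if h ≤ t + 1 then A (t + 1 - h) ∩ ⋂ i ∈ Finset.Ioo 0 h, (A (t + 1 - i))ᶜ else ∅

/-- the larger member of a pair of consecutive chosen integers with difference `h` -/
def BH (h : ℕ) (A : ℕ → Set Ω) : ℕ → Set Ω
  | 0 => ∅
  | n + 1 => A (n + 1) ∩ WH h A n

lemma WH_meas (hA : ∀ n, MeasurableSet[ℱ n] (A n)) {h : ℕ} (hh : 1 ≤ h) (t : ℕ) : MeasurableSet[ℱ t] (WH h A t) := by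
  unfold WH
  split_ifs with h1
  · refine (ℱ.mono (by omega) _ (hA (t + 1 - h))).inter (Finset.measurableSet_biInter _ fun i hi => ?_)
    have := Finset.mem_Ioo.1 hi
    exact (ℱ.mono (by omega) _ (hA (t + 1 - i))).compl
  · exact @MeasurableSet.empty _ (ℱ t)

lemma BH_meas (hA : ∀ n, MeasurableSet[ℱ n] (A n)) {h : ℕ} (hh : 1 ≤ h) (n : ℕ) : MeasurableSet[ℱ n] (BH h A n) := by
  cases n with
  | zero => exact @MeasurableSet.empty _ (ℱ 0)
  | succ n => exact (hA (n + 1)).inter (ℱ.mono (by omega) _ (WH_meas hA hh n))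

lemma ind_upper {h t : ℕ} (ω : Ω) : (WH h A t).indicator (fun _ => (1 : ℝ)) ω ≤ J1 A (t + 1 - h) ω := by
  by_cases h1 : ω ∈ WH h A t
  · rw [indicator_of_mem h1]
    unfold WH at h1
    split_ifs at h1 with h2
    · unfold J1
      rw [indicator_of_mem h1.1]
    · exact absurd h1 (notMem_empty _)
  · rw [indicator_of_notMem h1]
    exact (J1_01 _ _).1

lemma ind_lower {h t : ℕ} (ht : h ≤ t + 1) (ω : Ω) :
    J1 A (t + 1 - h) ω - ∑ j ∈ Finset.Ioo 0 h, J1 A (t + 1 - h) ω * J1 A (t + 1 - j) ω ≤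
      (WH h A t).indicator (fun _ => (1 : ℝ)) ω := by
  have h0 : ∀ j, 0 ≤ J1 A (t + 1 - h) ω * J1 A (t + 1 - j) ω := fun j => mul_nonneg (J1_01 _ _).1 (J1_01 _ _).1
  by_cases h1 : ω ∈ WH h A t
  · rw [indicator_of_mem h1]
    have := Finset.sum_nonneg (s := Finset.Ioo 0 h) fun j _ => h0 j
    linarith [(J1_01 (A := A) (t + 1 - h) ω).2]
  · rw [indicator_of_notMem h1]
    by_cases h2 : ω ∈ A (t + 1 - h)
    · -- some `j` is chosen
      have h3 : ∃ j ∈ Finset.Ioo 0 h, ω ∈ A (t + 1 - j) := by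
        by_contra hcon
        push Not at hcon
        apply h1
        unfold WH
        rw [if_pos ht]
        refine ⟨h2, ?_⟩
        simp only [mem_iInter, mem_compl_iff]
        exact hcon
      obtain ⟨j, hj, hj2⟩ := h3
      have h4 : J1 A (t + 1 - h) ω * J1 A (t + 1 - j) ω = 1 := by
        unfold J1
        rw [indicator_of_mem h2, indicator_of_mem hj2, one_mul]
      have h5 := Finset.single_le_sum (f := fun j => J1 A (t + 1 - h) ω * J1 A (t + 1 - j) ω) (fun j _ => h0 j) hj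
      simp only [h4] at h5
      linarith [(J1_01 (A := A) (t + 1 - h) ω).2]
    · have h4 : J1 A (t + 1 - h) ω = 0 := by
        unfold J1
        rw [indicator_of_notMem h2]
      have := Finset.sum_nonneg (s := Finset.Ioo 0 h) fun j _ => h0 j
      linarith

lemma CV_BH_ae (hA : ∀ n, MeasurableSet[ℱ n] (A n)) {h : ℕ} (hh : 1 ≤ h) : ∀ᵐ ω ∂μ, ∀ T H : ℕ, CV μ ℱ (BH h A) T H ω =
    ∑ i ∈ Finset.range H, (WH h A (T + i)).indicator (fun _ => (1 : ℝ)) ω * DD' μ ℱ A (T + i) ω := by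
  filter_upwards [DD_select (μ := μ) hA (BH_meas hA hh) (WH_meas hA hh) (fun n => rfl)] with ω hω T H
  unfold CV
  refine Finset.sum_congr rfl fun i _ => ?_
  rw [hω]
  by_cases h : ω ∈ WH h A (T + i)
  · rw [indicator_of_mem h, indicator_of_mem h, one_mul]
  · rw [indicator_of_notMem h, indicator_of_notMem h, zero_mul]

lemma DD_BH_le (hA : ∀ n, MeasurableSet[ℱ n] (A n)) {h : ℕ} (hh : 1 ≤ h) :
    ∀ᵐ ω ∂μ, ∀ n : ℕ, DD' μ ℱ (BH h A) n ω ≤ DD' μ ℱ A n ω := by
  filter_upwards [DD_select (μ := μ) hA (BH_meas hA hh) (WH_meas hA hh) (fun n => rfl)] with ω hω n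
  rw [hω]
  exact indicator_le_self' (fun _ _ => (DD'_bd _ _).1) ω

/-- close pairs of chosen integers are few -/
lemma close_pairs (hA : ∀ n, MeasurableSet[ℱ n] (A n)) {h j : ℕ} (hj : 0 < j) (hjh : j < h) {T H : ℕ → ℕ} (hT : ∀ᶠ k in atTop, h ≤ T k) :
    ∀ᵐ ω ∂μ, ∀ᶠ k : ℕ in atTop, ∀ ε : ℝ, (∀ i, i < H k + h → DD' μ ℱ A (T k - h + i) ω ≤ ε) →
      ∑ i ∈ Finset.range (H k), J1 A (T k + i + 1 - h) ω * J1 A (T k + i + 1 - j) ω ≤
        2 * (ε * CN A (T k - h) (H k) ω) + 2 * Real.log k := by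
  classical
  have h1 : ∀ᵐ ω ∂μ, ∀ᶠ n : ℕ in atTop,
      |∑ t ∈ Finset.range (T n - j + H n), (if T n - j ≤ t then J1 A (t + 1 - (h - j)) ω else 0) * J1 A (t + 1) ω -
        ∑ t ∈ Finset.range (T n - j + H n), (if T n - j ≤ t then J1 A (t + 1 - (h - j)) ω else 0) * dens μ ℱ A t ω| ≤
        1 * (∑ t ∈ Finset.range (T n - j + H n), (if T n - j ≤ t then J1 A (t + 1 - (h - j)) ω else 0) * dens μ ℱ A t ω) +
          (2 / min 1 1) * Real.log n := by
    refine conc hA one_pos (fun n t ω => if T n - j ≤ t then J1 A (t + 1 - (h - j)) ω else 0) (fun n => T n - j + H n) ?_ ?_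
    · intro n t
      by_cases h2 : T n - j ≤ t
      · simp only [if_pos h2]
        exact (J1_meas hA (t + 1 - (h - j))).mono (ℱ.mono (by omega))
      · simp only [if_neg h2]
        exact stronglyMeasurable_const
    · intro n t ω
      split_ifs
      · exact J1_01 _ _
      · norm_num
  have key : ∀ (a b : ℕ) (f g : ℕ → ℝ), ∑ t ∈ Finset.range (a + b), (if a ≤ t then g t else 0) * f t =
      ∑ i ∈ Finset.range b, g (a + i) * f (a + i) := by
    intro a b f g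
    rw [Finset.sum_range_add]
    have e1 : ∑ x ∈ Finset.range a, (if a ≤ x then g x else 0) * f x = 0 := by
      refine Finset.sum_eq_zero fun i hi => ?_
      have := Finset.mem_range.1 hi
      rw [if_neg (by omega), zero_mul]
    rw [e1, zero_add]
    refine Finset.sum_congr rfl fun i _ => ?_
    rw [if_pos (by omega)]
  filter_upwards [h1, DD'_ae (μ := μ) hA] with ω h1 h2
  filter_upwards [h1, hT] with k h3 hTk ε hε
  rw [key (T k - j) (H k) (fun t => J1 A (t + 1) ω) (fun t => J1 A (t + 1 - (h - j)) ω),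
    key (T k - j) (H k) (fun t => dens μ ℱ A t ω) (fun t => J1 A (t + 1 - (h - j)) ω)] at h3
  have e1 : ∑ i ∈ Finset.range (H k), J1 A (T k - j + i + 1 - (h - j)) ω * J1 A (T k - j + i + 1) ω =
      ∑ i ∈ Finset.range (H k), J1 A (T k + i + 1 - h) ω * J1 A (T k + i + 1 - j) ω := by
    refine Finset.sum_congr rfl fun i _ => ?_
    rw [show T k - j + i + 1 - (h - j) = T k + i + 1 - h by omega, show T k - j + i + 1 = T k + i + 1 - j by omega]
  have e2 : ∑ i ∈ Finset.range (H k), J1 A (T k - j + i + 1 - (h - j)) ω * dens μ ℱ A (T k - j + i) ω ≤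
      ε * CN A (T k - h) (H k) ω := by
    unfold CN
    rw [Finset.mul_sum]
    refine Finset.sum_le_sum fun i hi => ?_
    have hi := Finset.mem_range.1 hi
    rw [show T k - j + i + 1 - (h - j) = T k - h + i + 1 by omega, mul_comm, ← h2]
    have h4 := hε (h - j + i) (by omega)
    rw [show T k - h + (h - j + i) = T k - j + i by omega] at h4
    exact mul_le_mul_of_nonneg_right h4 (J1_01 _ _).1
  rw [e1] at h3
  have h5 := (abs_le.1 h3).2
  rw [min_self, div_one, one_mul] at h5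
  linarith

/-- bounds of the compensator for given bounds `ql ≤ dens ≤ ε` -/
lemma CV_BH_lower (hA : ∀ n, MeasurableSet[ℱ n] (A n)) {h : ℕ} (hh : 1 ≤ h) {T H : ℕ → ℕ} (hT : ∀ᶠ k in atTop, h ≤ T k) :
    ∀ᵐ ω ∂μ, ∀ᶠ k : ℕ in atTop, ∀ ql ε : ℝ, 0 ≤ ql →
      (∀ i, i < H k + h → ql ≤ DD' μ ℱ A (T k - h + i) ω ∧ DD' μ ℱ A (T k - h + i) ω ≤ ε) →
      ql * (CN A (T k - h) (H k) ω - h * (2 * (ε * CN A (T k - h) (H k) ω) + 2 * Real.log k)) ≤
        CV μ ℱ (BH h A) (T k) (H k) ω := by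
  have h1 : ∀ᵐ ω ∂μ, ∀ j : ℕ, 0 < j → j < h → ∀ᶠ k : ℕ in atTop, ∀ ε : ℝ, (∀ i, i < H k + h → DD' μ ℱ A (T k - h + i) ω ≤ ε) →
      ∑ i ∈ Finset.range (H k), J1 A (T k + i + 1 - h) ω * J1 A (T k + i + 1 - j) ω ≤
        2 * (ε * CN A (T k - h) (H k) ω) + 2 * Real.log k := by
    rw [ae_all_iff]
    intro j
    by_cases hj : 0 < j ∧ j < h
    · filter_upwards [close_pairs (μ := μ) hA hj.1 hj.2 (H := H) hT] with ω hω _ _
      exact hω
    · filter_upwards with ω h2 h3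
      exact absurd ⟨h2, h3⟩ hj
  filter_upwards [h1, CV_BH_ae (μ := μ) hA hh] with ω h1 h2
  have h3 : ∀ᶠ k : ℕ in atTop, ∀ j ∈ Finset.Ioo 0 h, ∀ ε : ℝ, (∀ i, i < H k + h → DD' μ ℱ A (T k - h + i) ω ≤ ε) →
      ∑ i ∈ Finset.range (H k), J1 A (T k + i + 1 - h) ω * J1 A (T k + i + 1 - j) ω ≤
        2 * (ε * CN A (T k - h) (H k) ω) + 2 * Real.log k := by
    rw [eventually_all_finset]
    intro j hj
    have := Finset.mem_Ioo.1 hj
    exact h1 j this.1 this.2
  filter_upwards [h3, hT, tendsto_logN.eventually_ge_atTop 0] with k h4 hTk hLk ql ε hql hq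
  rw [h2]
  have hM0 : 0 ≤ CN A (T k - h) (H k) ω := (CN_bd _ _ _).1
  have hε0 : 0 ≤ ε ∨ H k + h = 0 := by
    left
    have := hq 0 (by omega)
    linarith [this.1, this.2]
  have hε0' : 0 ≤ ε := by
    rcases hε0 with h5 | h5
    · exact h5
    · omega
  set M := CN A (T k - h) (H k) ω with hM
  have hB0 : 0 ≤ 2 * (ε * M) + 2 * Real.log k := by positivity
  have h5 : M - h * (2 * (ε * M) + 2 * Real.log k) ≤ ∑ i ∈ Finset.range (H k), (WH h A (T k + i)).indicator (fun _ => (1 : ℝ)) ω := by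
    have h6 : ∑ i ∈ Finset.range (H k), (J1 A (T k + i + 1 - h) ω -
        ∑ j ∈ Finset.Ioo 0 h, J1 A (T k + i + 1 - h) ω * J1 A (T k + i + 1 - j) ω) ≤
        ∑ i ∈ Finset.range (H k), (WH h A (T k + i)).indicator (fun _ => (1 : ℝ)) ω :=
      Finset.sum_le_sum fun i _ => ind_lower (by omega) ω
    refine le_trans ?_ h6
    rw [Finset.sum_sub_distrib, Finset.sum_comm]
    have e1 : ∑ i ∈ Finset.range (H k), J1 A (T k + i + 1 - h) ω = M := by
      rw [hM]
      unfold CN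
      refine Finset.sum_congr rfl fun i _ => ?_
      rw [show T k + i + 1 - h = T k - h + i + 1 by omega]
    rw [e1]
    have h7 : ∑ j ∈ Finset.Ioo 0 h, ∑ i ∈ Finset.range (H k), J1 A (T k + i + 1 - h) ω * J1 A (T k + i + 1 - j) ω ≤
        ∑ j ∈ Finset.Ioo 0 h, (2 * (ε * M) + 2 * Real.log k) :=
      Finset.sum_le_sum fun j hj => h4 j hj ε fun i hi => (hq i hi).2
    rw [Finset.sum_const, nsmul_eq_mul] at h7
    have h8 : ((Finset.Ioo 0 h).card : ℝ) ≤ h := by
      rw [Nat.card_Ioo]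
      exact_mod_cast (by omega : h - 0 - 1 ≤ h)
    have h9 := mul_le_mul_of_nonneg_right h8 hB0
    linarith
  have h6 := mul_le_mul_of_nonneg_left h5 hql
  refine h6.trans ?_
  rw [Finset.mul_sum]
  refine Finset.sum_le_sum fun i hi => ?_
  have hi := Finset.mem_range.1 hi
  rw [mul_comm]
  have h7 := (hq (h + i) (by omega)).1
  rw [show T k - h + (h + i) = T k + i by omega] at h7
  exact mul_le_mul_of_nonneg_left h7 (indicator_nonneg (fun _ _ => zero_le_one) _)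

lemma CV_BH_upper (hA : ∀ n, MeasurableSet[ℱ n] (A n)) {h : ℕ} (hh : 1 ≤ h) {T H : ℕ → ℕ} (hT : ∀ᶠ k in atTop, h ≤ T k) :
    ∀ᵐ ω ∂μ, ∀ᶠ k : ℕ in atTop, ∀ ε : ℝ, 0 ≤ ε → (∀ i, i < H k + h → DD' μ ℱ A (T k - h + i) ω ≤ ε) →
      CV μ ℱ (BH h A) (T k) (H k) ω ≤ ε * CN A (T k - h) (H k) ω := by
  filter_upwards [CV_BH_ae (μ := μ) hA hh] with ω h2
  filter_upwards [hT] with k hTk ε hε0 hε
  rw [h2]
  unfold CN
  rw [Finset.mul_sum]
  refine Finset.sum_le_sum fun i hi => ?_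
  have hi := Finset.mem_range.1 hi
  have h3 := ind_upper (A := A) (h := h) (t := T k + i) ω
  rw [show T k + i + 1 - h = T k - h + i + 1 by omega] at h3
  have h4 := hε (h + i) (by omega)
  rw [show T k - h + (h + i) = T k + i by omega] at h4
  calc _ ≤ J1 A (T k - h + i + 1) ω * ε := mul_le_mul h3 h4 (DD'_bd _ _).1 (J1_01 _ _).1
    _ = _ := mul_comm _ _

end Pool.Agent.N417.CL
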