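import Mathlib
import Pool.Agent.N417.CL.S2

/-!
# Consecutive chosen integers with a given difference between consecutive powers
-/

set_option autoImplicit false
set_option linter.unusedSectionVars false

open MeasureTheory Filter Set
open scoped ENNReal Topology

namespace Pool.Agent.N417.CL

open Pool.Agent.R528.RM Pool.Agent.N740.HK Pool.Agent.N417.LD

variable {Ω : Type} {m0 : MeasurableSpace Ω} {μ : Measure Ω} [IsProbabilityMeasure μ]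
  {ℱ : Filtration ℕ m0} {A : ℕ → Set Ω}

/-- windows with many successes -/
theorem gt_all (hA : ∀ n, MeasurableSet[ℱ n] (A n)) {T H : ℕ → ℕ} {c : ℝ} (hc1 : 1 < c)
    (hg : ∀ᵐ ω ∂μ, ∀ᶠ k : ℕ in atTop, c * Real.log k ≤ CV μ ℱ A (T k) (H k) ω) :
    ∀ᵐ ω ∂μ, ∀ m : ℕ, ∀ᶠ k : ℕ in atTop, (m : ℝ) < CN A (T k) (H k) ω := by
  rw [ae_all_iff]
  intro m
  obtain ⟨x, hx, hxc⟩ : ∃ x : ℝ, x < 0 ∧ 1 < (1 - Real.exp x) * c := by
    have m1 : Tendsto (fun x : ℝ => (1 - Real.exp x) * c) atBot (𝓝 ((1 - 0) * c)) :=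
      (tendsto_const_nhds.sub Real.tendsto_exp_atBot).mul_const c
    rw [sub_zero, one_mul] at m1
    obtain ⟨x, a1, a2⟩ := ((m1.eventually_const_lt hc1).and (eventually_lt_atBot 0)).exists
    exact ⟨x, a2, a1⟩
  set δ : ℝ := (1 - Real.exp x) * c with hδ
  have hex : Real.exp x < 1 := by rw [← Real.exp_zero]; exact Real.exp_lt_exp.2 hx
  set E : ℕ → Set Ω := fun k => {ω | x * m ≤ x * CN A (T k) (H k) ω ∧
    (Real.exp x - 1) * CV μ ℱ A (T k) (H k) ω ≤ (Real.exp x - 1) * (c * Real.log k)} with hE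
  have hbd : ∀ᶠ k : ℕ in atTop, μ.real (E k) ≤ Real.exp (-(x * m)) * (k : ℝ) ^ (-δ) := by
    filter_upwards [eventually_ge_atTop 2] with k q5
    have hk0 : (0 : ℝ) < k := by exact_mod_cast (by omega : 0 < k)
    have h1 := cl_upper (μ := μ) (ℱ := ℱ) (A := A) hA (T k) (H k) x m (c * Real.log k)
    refine h1.trans ?_
    rw [Real.rpow_def_of_pos hk0, ← Real.exp_add]
    apply Real.exp_le_exp.2
    rw [hδ]
    apply le_of_eq
    ring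
  have hsum : ∑' k : ℕ, μ (E k) ≠ ∞ := by
    have h1 : Summable (fun k : ℕ => Real.exp (-(x * m)) * (k : ℝ) ^ (-δ)) := (Real.summable_nat_rpow.2 (by linarith)).mul_left _
    have h2 : Summable (fun k : ℕ => μ.real (E k)) := by
      refine Summable.of_norm_bounded_eventually_nat h1 ?_
      filter_upwards [hbd] with k hk
      rw [Real.norm_of_nonneg measureReal_nonneg]
      exact hk
    have h3 : ∑' n : ℕ, μ (E n) = ENNReal.ofReal (∑' n : ℕ, μ.real (E n)) := by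
      rw [ENNReal.ofReal_tsum_of_nonneg (fun _ => measureReal_nonneg) h2]
      congr 1
      funext i
      exact (ofReal_measureReal (measure_ne_top _ _)).symm
    rw [h3]
    exact ENNReal.ofReal_ne_top
  filter_upwards [ae_eventually_notMem hsum, hg] with ω h1 h2
  filter_upwards [h1, h2] with k h5 h6
  by_contra hcon
  push Not at hcon
  apply h5
  exact ⟨mul_le_mul_of_nonpos_left hcon hx.le, mul_le_mul_of_nonpos_left h6 (by linarith)⟩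

/-- one sided bounds for the densities near powers -/
lemma pow_lower (hA : ∀ n, MeasurableSet[ℱ n] (A n)) {s : ℕ} (hs : 2 ≤ s) {κ κ' : ℝ} (hκ : 0 < κ) (hκ' : κ < κ')
    (hd : ∀ᵐ ω ∂μ, ∀ᶠ n : ℕ in atTop, κ' ≤ dens μ ℱ A n ω * (n : ℝ) ^ ex s / √(Real.log n)) :
    ∀ᵐ ω ∂μ, ∀ᶠ k : ℕ in atTop, ∀ r : ℕ, (k - 1) ^ s ≤ r → r ≤ (k + 1) ^ s → κ * q1 s k ≤ DD' μ ℱ A r ω := by
  filter_upwards [hd, DD'_ae (μ := μ) hA] with ω h1 h2
  obtain ⟨n0, hn0⟩ := eventually_atTop.1 h1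
  have hη : 0 < 1 - κ / κ' := by
    rw [sub_pos, div_lt_one (by linarith)]
    exact hκ'
  filter_upwards [near_pow hs hη, eventually_ge_atTop (n0 + 3)] with k hq hk r hr1 hr2
  rw [h2 r]
  have hkk : k - 1 ≤ (k - 1) ^ s := Nat.le_self_pow (by omega) _
  have h3 := hn0 r (by omega)
  obtain ⟨g1, g2, _⟩ := hq r hr1 hr2
  have hr0 : (1 : ℝ) < r := by exact_mod_cast g1
  have hs' : 0 < (r : ℝ) ^ ex s := by positivity
  have hl : 0 < √(Real.log r) := Real.sqrt_pos.2 (Real.log_pos hr0)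
  rw [le_div_iff₀ hl] at h3
  have h4 : κ' * (√(Real.log r) / (r : ℝ) ^ ex s) ≤ dens μ ℱ A r ω := by
    rw [mul_div_assoc', div_le_iff₀ hs']
    exact h3
  refine le_trans ?_ h4
  have h5 := mul_le_mul_of_nonneg_left g2 (by linarith : 0 ≤ κ')
  refine le_trans (le_of_eq ?_) h5
  have : κ' ≠ 0 := by linarith
  field_simp
  ring

lemma pow_upper (hA : ∀ n, MeasurableSet[ℱ n] (A n)) {s : ℕ} (hs : 2 ≤ s) {κ κ' : ℝ} (hκ' : 0 < κ') (hκ : κ' < κ)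
    (hd : ∀ᵐ ω ∂μ, ∀ᶠ n : ℕ in atTop, dens μ ℱ A n ω * (n : ℝ) ^ ex s / √(Real.log n) ≤ κ') :
    ∀ᵐ ω ∂μ, ∀ᶠ k : ℕ in atTop, ∀ r : ℕ, (k - 1) ^ s ≤ r → r ≤ (k + 1) ^ s → DD' μ ℱ A r ω ≤ κ * q1 s k := by
  filter_upwards [hd, DD'_ae (μ := μ) hA] with ω h1 h2
  obtain ⟨n0, hn0⟩ := eventually_atTop.1 h1
  have hη : 0 < κ / κ' - 1 := by
    rw [sub_pos, one_lt_div hκ']
    exact hκ
  filter_upwards [near_pow hs hη, eventually_ge_atTop (n0 + 3)] with k hq hk r hr1 hr2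
  rw [h2 r]
  have hkk : k - 1 ≤ (k - 1) ^ s := Nat.le_self_pow (by omega) _
  have h3 := hn0 r (by omega)
  obtain ⟨g1, _, g2⟩ := hq r hr1 hr2
  have hr0 : (1 : ℝ) < r := by exact_mod_cast g1
  have hs' : 0 < (r : ℝ) ^ ex s := by positivity
  have hl : 0 < √(Real.log r) := Real.sqrt_pos.2 (Real.log_pos hr0)
  rw [div_le_iff₀ hl] at h3
  have h4 : dens μ ℱ A r ω ≤ κ' * (√(Real.log r) / (r : ℝ) ^ ex s) := by
    rw [mul_div_assoc', le_div_iff₀ hs']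
    exact h3
  refine le_trans h4 ?_
  have h5 := mul_le_mul_of_nonneg_left g2 hκ'.le
  refine le_trans h5 (le_of_eq ?_)
  field_simp
  ring

lemma win_idx {s : ℕ} (hs : 2 ≤ s) (h : ℕ) : ∀ᶠ k : ℕ in atTop, h ≤ k ^ s ∧ ∀ i, i < Ls s k + h →
    (k - 1) ^ s ≤ k ^ s - h + i ∧ k ^ s - h + i ≤ (k + 1) ^ s := by
  filter_upwards [eventually_ge_atTop (h + 2)] with k hk
  have h1 : k ≤ k ^ s := Nat.le_self_pow (by omega) _
  have h2 : k ^ s + 1 ≤ (k + 1) ^ s := Nat.pow_lt_pow_left (by omega) (by omega)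
  have h3 : (k - 1) ^ s + h ≤ k ^ s := by
    obtain ⟨t, rfl⟩ : ∃ t, s = t + 1 := ⟨s - 1, by omega⟩
    have a1 : (k - 1) ^ t ≤ k ^ t := Nat.pow_le_pow_left (by omega) _
    have a2 : k - 1 ≤ k ^ t := (by omega : k - 1 ≤ k).trans (Nat.le_self_pow (by omega) _)
    calc (k - 1) ^ (t + 1) + h ≤ k ^ t * (k - 1) + k ^ t := by
          rw [pow_succ]
          exact add_le_add (Nat.mul_le_mul_right _ a1) (by omega)
      _ = k ^ t * ((k - 1) + 1) := by ring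
      _ = k ^ (t + 1) := by rw [Nat.sub_add_cancel (by omega), pow_succ]
  refine ⟨by omega, fun i hi => ⟨by omega, ?_⟩⟩
  have : Ls s k = (k + 1) ^ s - k ^ s - 1 := rfl
  omega

lemma Ls_disj {s : ℕ} (hs : 2 ≤ s) (k : ℕ) : k ^ s + Ls s k ≤ (k + 1) ^ s := by
  have h2 : k ^ s + 1 ≤ (k + 1) ^ s := Nat.pow_lt_pow_left (by omega) (by omega)
  have : Ls s k = (k + 1) ^ s - k ^ s - 1 := rfl
  omega

/-- the compensator, lower bound -/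
lemma BV_lower (hA : ∀ n, MeasurableSet[ℱ n] (A n)) {s h : ℕ} (hs : 2 ≤ s) (hh : 1 ≤ h) {κ : ℝ} (hκ : 0 < κ)
    (hq : ∀ᵐ ω ∂μ, ∀ᶠ k : ℕ in atTop, ∀ r : ℕ, (k - 1) ^ s ≤ r → r ≤ (k + 1) ^ s → κ * q1 s k ≤ DD' μ ℱ A r ω)
    (h0 : ∀ᵐ ω ∂μ, Tendsto (fun n => DD' μ ℱ A n ω) atTop (𝓝 0)) :
    ∀ᵐ ω ∂μ, ∀ ε : ℝ, 0 < ε → ∀ᶠ k : ℕ in atTop,
      ((s : ℝ) ^ 2 * κ ^ 2 - ε) * Real.log k ≤ CV μ ℱ (BH h A) (k ^ s) (Ls s k) ω := by
  have hTh : ∀ᶠ k : ℕ in atTop, h ≤ k ^ s := (win_idx hs h).mono fun k hk => hk.1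
  filter_upwards [hq, h0, cnt_conc (μ := μ) hA (fun k => k ^ s - h) (fun k => Ls s k),
    CV_BH_lower (μ := μ) hA hh (T := fun k => k ^ s) (H := fun k => Ls s k) hTh] with ω h1 h2 h3 h4 ε hε
  -- the parameter
  obtain ⟨δ, hδ, hδh, hδ1, hδ2⟩ : ∃ δ : ℝ, 0 < δ ∧ 2 * h * δ ≤ 1 ∧ δ ≤ 1 ∧
      (s : ℝ) ^ 2 * κ ^ 2 - ε < (1 - 2 * h * δ) * (1 - δ) * (κ ^ 2 * (s : ℝ) ^ 2) := by
    have m1 : Tendsto (fun δ : ℝ => (1 - 2 * h * δ) * (1 - δ) * (κ ^ 2 * (s : ℝ) ^ 2)) (𝓝 0) (𝓝 (κ ^ 2 * (s : ℝ) ^ 2)) := by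
      have : Continuous (fun δ : ℝ => (1 - 2 * h * δ) * (1 - δ) * (κ ^ 2 * (s : ℝ) ^ 2)) := by fun_prop
      have h := this.tendsto 0
      simpa using h
    have m2 : Tendsto (fun δ : ℝ => 2 * h * δ) (𝓝 0) (𝓝 0) := by
      have : Continuous (fun δ : ℝ => 2 * h * δ) := by fun_prop
      have h := this.tendsto 0
      simpa using h
    have j1 : ∀ᶠ δ : ℝ in 𝓝[>] 0, 0 < δ := eventually_mem_nhdsWithin
    have j2 := (m2.eventually_le_const (show (0 : ℝ) < 1 by norm_num)).filter_mono (nhdsWithin_le_nhds (s := Ioi (0 : ℝ)))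
    have j3 : ∀ᶠ δ : ℝ in 𝓝[>] 0, δ < 1 := (eventually_lt_nhds (by norm_num)).filter_mono nhdsWithin_le_nhds
    have j4 := (m1.eventually_const_lt (show (s : ℝ) ^ 2 * κ ^ 2 - ε < κ ^ 2 * (s : ℝ) ^ 2 by nlinarith)).filter_mono
      (nhdsWithin_le_nhds (s := Ioi (0 : ℝ)))
    obtain ⟨δ, a1, a2, a3, a4⟩ := (j1.and (j2.and (j3.and j4))).exists
    exact ⟨δ, a1, a2, a3.le, a4⟩
  obtain ⟨C, hC, h5⟩ := h3 δ hδ
  have hE : Tendsto (fun k : ℕ => (1 - 2 * h * δ) * (1 - δ) * (κ ^ 2 * (Ls s k * q1 s k ^ 2 / Real.log k)) -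
      κ * q1 s k * (C + 2 * h)) atTop (𝓝 ((1 - 2 * h * δ) * (1 - δ) * (κ ^ 2 * (s : ℝ) ^ 2) - κ * 0 * (C + 2 * h))) :=
    (((Lq2_lim hs).const_mul _).const_mul _).sub (((q1_lim hs).const_mul κ).mul_const _)
  rw [mul_zero, zero_mul, sub_zero] at hE
  obtain ⟨n0, hn0⟩ := eventually_atTop.1 (h2.eventually_le_const hδ)
  filter_upwards [h1, h4, h5, win_idx hs h, hE.eventually_const_lt hδ2, q1_pos s hs, tendsto_logN.eventually_gt_atTop 0,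
    eventually_ge_atTop (n0 + 2)] with k g1 g2 g3 g4 g5 g6 g7 g8
  have hql : 0 ≤ κ * q1 s k := by positivity
  have hbnd : ∀ i, i < Ls s k + h → κ * q1 s k ≤ DD' μ ℱ A (k ^ s - h + i) ω ∧ DD' μ ℱ A (k ^ s - h + i) ω ≤ δ := by
    intro i hi
    obtain ⟨b1, b2⟩ := g4.2 i hi
    refine ⟨g1 _ b1 b2, hn0 _ ?_⟩
    have : k - 1 ≤ (k - 1) ^ s := Nat.le_self_pow (by omega) _
    omega
  have g9 := g2 (κ * q1 s k) δ hql hbnd
  set M := CN A (k ^ s - h) (Ls s k) ω with hM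
  have hV0 : Ls s k * (κ * q1 s k) ≤ CV μ ℱ A (k ^ s - h) (Ls s k) ω := by
    unfold CV
    have e : ∑ i ∈ Finset.range (Ls s k), κ * q1 s k = Ls s k * (κ * q1 s k) := by simp
    rw [← e]
    exact Finset.sum_le_sum fun i hi => (hbnd i (by have := Finset.mem_range.1 hi; omega)).1
  have hM1 : (1 - δ) * (Ls s k * (κ * q1 s k)) - C * Real.log k ≤ M := by
    have h6 := (abs_le.1 g3).1
    have h7 := mul_le_mul_of_nonneg_left hV0 (show 0 ≤ 1 - δ by linarith)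
    linarith
  have hM2 : (1 - 2 * h * δ) * M - 2 * h * Real.log k = M - h * (2 * (δ * M) + 2 * Real.log k) := by ring
  have hM3 : (1 - 2 * h * δ) * ((1 - δ) * (Ls s k * (κ * q1 s k)) - C * Real.log k) ≤ (1 - 2 * h * δ) * M :=
    mul_le_mul_of_nonneg_left hM1 (by linarith)
  refine le_trans ?_ g9
  rw [← hM2]
  have hM4 : (κ * q1 s k) * ((1 - 2 * h * δ) * ((1 - δ) * (Ls s k * (κ * q1 s k)) - C * Real.log k) - 2 * h * Real.log k) ≤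
      (κ * q1 s k) * ((1 - 2 * h * δ) * M - 2 * h * Real.log k) := mul_le_mul_of_nonneg_left (by linarith) hql
  refine le_trans ?_ hM4
  have h8 := mul_lt_mul_of_pos_right g5 g7
  have e1 : ((1 - 2 * h * δ) * (1 - δ) * (κ ^ 2 * (Ls s k * q1 s k ^ 2 / Real.log k)) - κ * q1 s k * (C + 2 * h)) * Real.log k =
      (1 - 2 * h * δ) * (1 - δ) * (κ ^ 2 * (Ls s k * q1 s k ^ 2)) - κ * q1 s k * (C + 2 * h) * Real.log k := by
    field_simp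
  rw [e1] at h8
  have h9 : (1 - 2 * h * δ) * C * (κ * q1 s k * Real.log k) ≤ 1 * C * (κ * q1 s k * Real.log k) := by
    apply mul_le_mul_of_nonneg_right _ (by positivity)
    apply mul_le_mul_of_nonneg_right _ hC.le
    have : 0 ≤ 2 * (h : ℝ) * δ := by positivity
    linarith
  have e2 : (κ * q1 s k) * ((1 - 2 * h * δ) * ((1 - δ) * (Ls s k * (κ * q1 s k)) - C * Real.log k) - 2 * h * Real.log k) =
      (1 - 2 * h * δ) * (1 - δ) * (κ ^ 2 * (Ls s k * q1 s k ^ 2)) - (1 - 2 * h * δ) * C * (κ * q1 s k * Real.log k) -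
        2 * h * (κ * q1 s k * Real.log k) := by ring
  rw [e2]
  linarith

/-- the compensator, upper bound -/
lemma BV_upper (hA : ∀ n, MeasurableSet[ℱ n] (A n)) {s h : ℕ} (hs : 2 ≤ s) (hh : 1 ≤ h) {κ : ℝ} (hκ : 0 < κ)
    (hq : ∀ᵐ ω ∂μ, ∀ᶠ k : ℕ in atTop, ∀ r : ℕ, (k - 1) ^ s ≤ r → r ≤ (k + 1) ^ s → DD' μ ℱ A r ω ≤ κ * q1 s k) :
    ∀ᵐ ω ∂μ, ∀ ε : ℝ, 0 < ε → ∀ᶠ k : ℕ in atTop,
      CV μ ℱ (BH h A) (k ^ s) (Ls s k) ω ≤ ((s : ℝ) ^ 2 * κ ^ 2 + ε) * Real.log k := by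
  have hTh : ∀ᶠ k : ℕ in atTop, h ≤ k ^ s := (win_idx hs h).mono fun k hk => hk.1
  filter_upwards [hq, cnt_conc (μ := μ) hA (fun k => k ^ s - h) (fun k => Ls s k),
    CV_BH_upper (μ := μ) hA hh (T := fun k => k ^ s) (H := fun k => Ls s k) hTh] with ω h1 h3 h4 ε hε
  obtain ⟨δ, hδ, hδ2⟩ : ∃ δ : ℝ, 0 < δ ∧ (1 + δ) * (κ ^ 2 * (s : ℝ) ^ 2) < (s : ℝ) ^ 2 * κ ^ 2 + ε := by
    have m1 : Tendsto (fun δ : ℝ => (1 + δ) * (κ ^ 2 * (s : ℝ) ^ 2)) (𝓝 0) (𝓝 (κ ^ 2 * (s : ℝ) ^ 2)) := by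
      have : Continuous (fun δ : ℝ => (1 + δ) * (κ ^ 2 * (s : ℝ) ^ 2)) := by fun_prop
      have h := this.tendsto 0
      simpa using h
    have j1 : ∀ᶠ δ : ℝ in 𝓝[>] 0, 0 < δ := eventually_mem_nhdsWithin
    have j4 := (m1.eventually_lt_const (show κ ^ 2 * (s : ℝ) ^ 2 < (s : ℝ) ^ 2 * κ ^ 2 + ε by nlinarith)).filter_mono
      (nhdsWithin_le_nhds (s := Ioi (0 : ℝ)))
    obtain ⟨δ, a1, a4⟩ := (j1.and j4).exists
    exact ⟨δ, a1, a4⟩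
  obtain ⟨C, hC, h5⟩ := h3 δ hδ
  have hE : Tendsto (fun k : ℕ => (1 + δ) * (κ ^ 2 * (Ls s k * q1 s k ^ 2 / Real.log k)) + κ * q1 s k * C) atTop
      (𝓝 ((1 + δ) * (κ ^ 2 * (s : ℝ) ^ 2) + κ * 0 * C)) :=
    (((Lq2_lim hs).const_mul _).const_mul _).add (((q1_lim hs).const_mul κ).mul_const _)
  rw [mul_zero, zero_mul, add_zero] at hE
  filter_upwards [h1, h4, h5, win_idx hs h, hE.eventually_lt_const hδ2, q1_pos s hs, tendsto_logN.eventually_gt_atTop 0]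
    with k g1 g2 g3 g4 g5 g6 g7
  have hql : 0 ≤ κ * q1 s k := by positivity
  have hbnd : ∀ i, i < Ls s k + h → DD' μ ℱ A (k ^ s - h + i) ω ≤ κ * q1 s k := by
    intro i hi
    obtain ⟨b1, b2⟩ := g4.2 i hi
    exact g1 _ b1 b2
  have g9 := g2 (κ * q1 s k) hql hbnd
  set M := CN A (k ^ s - h) (Ls s k) ω with hM
  have hV0 : CV μ ℱ A (k ^ s - h) (Ls s k) ω ≤ Ls s k * (κ * q1 s k) := by
    unfold CV
    have e : ∑ i ∈ Finset.range (Ls s k), κ * q1 s k = Ls s k * (κ * q1 s k) := by simp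
    rw [← e]
    exact Finset.sum_le_sum fun i hi => hbnd i (by have := Finset.mem_range.1 hi; omega)
  have hM1 : M ≤ (1 + δ) * (Ls s k * (κ * q1 s k)) + C * Real.log k := by
    have h6 := (abs_le.1 g3).2
    have h7 := mul_le_mul_of_nonneg_left hV0 (show 0 ≤ 1 + δ by linarith)
    linarith
  refine g9.trans ((mul_le_mul_of_nonneg_left hM1 hql).trans ?_)
  have h8 := mul_lt_mul_of_pos_right g5 g7
  have e1 : ((1 + δ) * (κ ^ 2 * (Ls s k * q1 s k ^ 2 / Real.log k)) + κ * q1 s k * C) * Real.log k =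
      (1 + δ) * (κ ^ 2 * (Ls s k * q1 s k ^ 2)) + κ * q1 s k * C * Real.log k := by
    field_simp
  rw [e1] at h8
  refine le_trans (le_of_eq ?_) h8.le
  ring

/-- above the critical density -/
theorem gap_inf (hA : ∀ n, MeasurableSet[ℱ n] (A n)) {s h : ℕ} (hs : 2 ≤ s) (hh : 1 ≤ h) {κ' : ℝ} (hκ0 : 0 < κ')
    (hκ : 1 < (s : ℝ) ^ 2 * κ' ^ 2)
    (hd : ∀ᵐ ω ∂μ, ∀ᶠ n : ℕ in atTop, κ' ≤ dens μ ℱ A n ω * (n : ℝ) ^ ex s / √(Real.log n))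
    (h0 : ∀ᵐ ω ∂μ, Tendsto (fun n => dens μ ℱ A n ω) atTop (𝓝 0)) :
    ∀ᵐ ω ∂μ, ∀ m : ℕ, ∀ᶠ k : ℕ in atTop, (m : ℝ) < CN (BH h A) (k ^ s) (Ls s k) ω := by
  obtain ⟨κ, k1, k2, k3⟩ : ∃ κ : ℝ, 0 < κ ∧ κ < κ' ∧ 1 < (s : ℝ) ^ 2 * κ ^ 2 := by
    have m1 : Tendsto (fun κ : ℝ => (s : ℝ) ^ 2 * κ ^ 2) (𝓝 κ') (𝓝 ((s : ℝ) ^ 2 * κ' ^ 2)) := by
      have : Continuous (fun κ : ℝ => (s : ℝ) ^ 2 * κ ^ 2) := by fun_prop
      exact this.tendsto κ'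
    have j1 : ∀ᶠ κ : ℝ in 𝓝[<] κ', κ < κ' := eventually_mem_nhdsWithin
    have j2 : ∀ᶠ κ : ℝ in 𝓝[<] κ', 0 < κ := (eventually_gt_nhds hκ0).filter_mono nhdsWithin_le_nhds
    have j3 := (m1.eventually_const_lt hκ).filter_mono (nhdsWithin_le_nhds (s := Iio κ'))
    obtain ⟨κ, a1, a2, a3⟩ := (j1.and (j2.and j3)).exists
    exact ⟨κ, a2, a1, a3⟩
  have h0' : ∀ᵐ ω ∂μ, Tendsto (fun n => DD' μ ℱ A n ω) atTop (𝓝 0) := by
    filter_upwards [h0, DD'_ae (μ := μ) hA] with ω h1 h2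
    simp_rw [h2]
    exact h1
  set ε : ℝ := ((s : ℝ) ^ 2 * κ ^ 2 - 1) / 2 with hε
  have hε0 : 0 < ε := by rw [hε]; linarith
  refine gt_all (T := fun k => k ^ s) (H := fun k => Ls s k) (BH_meas hA hh) (c := (s : ℝ) ^ 2 * κ ^ 2 - ε) (by rw [hε]; linarith) ?_
  filter_upwards [BV_lower hA hs hh k1 (pow_lower hA hs k1 k2 hd) h0'] with ω hω
  exact hω ε hε0

/-- below the critical density -/
theorem gap_zero (hA : ∀ n, MeasurableSet[ℱ n] (A n)) {s h : ℕ} (hs : 2 ≤ s) (hh : 1 ≤ h) {κ' : ℝ} (hκ0 : 0 < κ')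
    (hκ : (s : ℝ) ^ 2 * κ' ^ 2 < 1)
    (hd : ∀ᵐ ω ∂μ, ∀ᶠ n : ℕ in atTop, dens μ ℱ A n ω * (n : ℝ) ^ ex s / √(Real.log n) ≤ κ') :
    ∀ᵐ ω ∂μ, ∀ K : ℕ, ∃ k, K ≤ k ∧ CN (BH h A) (k ^ s) (Ls s k) ω = 0 := by
  obtain ⟨κ, k2, k3⟩ : ∃ κ : ℝ, κ' < κ ∧ (s : ℝ) ^ 2 * κ ^ 2 < 1 := by
    have m1 : Tendsto (fun κ : ℝ => (s : ℝ) ^ 2 * κ ^ 2) (𝓝 κ') (𝓝 ((s : ℝ) ^ 2 * κ' ^ 2)) := by
      have : Continuous (fun κ : ℝ => (s : ℝ) ^ 2 * κ ^ 2) := by fun_prop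
      exact this.tendsto κ'
    have j1 : ∀ᶠ κ : ℝ in 𝓝[>] κ', κ' < κ := eventually_mem_nhdsWithin
    have j3 := (m1.eventually_lt_const hκ).filter_mono (nhdsWithin_le_nhds (s := Ioi κ'))
    obtain ⟨κ, a1, a3⟩ := (j1.and j3).exists
    exact ⟨κ, a1, a3⟩
  have k1 : 0 < κ := by linarith
  have hs' : (0 : ℝ) < s := by exact_mod_cast (by omega : 0 < s)
  set ε : ℝ := (1 - (s : ℝ) ^ 2 * κ ^ 2) / 2 with hε
  have hε0 : 0 < ε := by rw [hε]; linarith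
  refine zero_io (T := fun k => k ^ s) (H := fun k => Ls s k) (BH_meas hA hh) (c := (s : ℝ) ^ 2 * κ ^ 2 + ε) (by positivity)
    (by rw [hε]; linarith) (fun k => Ls_disj hs k) ?_
  filter_upwards [BV_upper hA hs hh k1 (pow_upper hA hs hκ0 k2 hd), pow_upper hA hs hκ0 k2 hd, DD_BH_le (μ := μ) hA hh]
    with ω hω h2 h3
  refine ⟨hω ε hε0, ?_⟩
  intro η hη
  have hq0 : Tendsto (fun k : ℕ => κ * q1 s k) atTop (𝓝 0) := by
    have := (q1_lim hs).const_mul κ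
    rwa [mul_zero] at this
  filter_upwards [h2, hq0.eventually_le_const hη, win_idx hs 0] with k g1 g2 g3 i hi
  have hi' : i < Ls s k := hi
  obtain ⟨b1, b2⟩ := g3.2 i (by omega)
  rw [Nat.sub_zero] at b1 b2
  exact (h3 _).trans ((g1 _ b1 b2).trans g2)

/-- at the critical density -/
theorem gap_law (hA : ∀ n, MeasurableSet[ℱ n] (A n)) {s h : ℕ} (hs : 2 ≤ s) (hh' : 1 ≤ h) {κ : ℝ} (hκ : 0 < κ)
    (hd : ∀ᵐ ω ∂μ, Tendsto (fun n : ℕ => dens μ ℱ A n ω * (n : ℝ) ^ ex s / √(Real.log n)) atTop (𝓝 κ)) :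
    ∀ᵐ ω ∂μ, (∀ x : ℝ, 0 ≤ x → (s : ℝ) ^ 2 * κ ^ 2 * hh x ≤ 1 → ∀ ε : ℝ, 0 < ε → ∀ K : ℕ, ∃ k, K ≤ k ∧
        |CN (BH h A) (k ^ s) (Ls s k) ω / Real.log k - (s : ℝ) ^ 2 * κ ^ 2 * x| < ε) ∧
      ∀ ε : ℝ, 0 < ε → ∀ᶠ k : ℕ in atTop, ∃ x : ℝ, 0 ≤ x ∧ (s : ℝ) ^ 2 * κ ^ 2 * hh x ≤ 1 ∧
        |CN (BH h A) (k ^ s) (Ls s k) ω / Real.log k - (s : ℝ) ^ 2 * κ ^ 2 * x| < ε := by
  have hs' : (0 : ℝ) < s := by exact_mod_cast (by omega : 0 < s)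
  refine cl_law (T := fun k => k ^ s) (H := fun k => Ls s k) (c := (s : ℝ) ^ 2 * κ ^ 2) (BH_meas hA hh') (by positivity)
    (fun k => Ls_disj hs k) ?_
  have sm : ∀ᵐ ω ∂μ, ∀ᶠ k : ℕ in atTop, ∀ r : ℕ, (k - 1) ^ s ≤ r → r ≤ (k + 1) ^ s → DD' μ ℱ A r ω ≤ (2 * κ) * q1 s k := by
    refine pow_upper hA hs (κ' := 3 / 2 * κ) (by positivity) (by linarith) ?_
    filter_upwards [hd] with ω hω
    refine hω.eventually_le_const ?_
    linarith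
  have h0' : ∀ᵐ ω ∂μ, Tendsto (fun n => DD' μ ℱ A n ω) atTop (𝓝 0) := by
    filter_upwards [hd, DD'_ae (μ := μ) hA] with ω h1 h2
    simp_rw [h2]
    -- `√(log n) / n ^ ex → 0`
    have e1 : Tendsto (fun x : ℝ => Real.log x ^ (1 / 2 : ℝ) / x ^ ex s) atTop (𝓝 0) :=
      (isLittleO_log_rpow_rpow_atTop (1 / 2) (ex_pos hs)).tendsto_div_nhds_zero
    have e2 := h1.mul (e1.comp tendsto_natCast_atTop_atTop)
    rw [mul_zero] at e2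
    refine e2.congr' ?_
    filter_upwards [tendsto_logN.eventually_gt_atTop 0, eventually_gt_atTop 0] with n hn hn0
    have hn' : (0 : ℝ) < n := by exact_mod_cast hn0
    have a1 : 0 < (n : ℝ) ^ ex s := by positivity
    have a2 : 0 < √(Real.log n) := Real.sqrt_pos.2 hn
    simp only [Function.comp]
    rw [← Real.sqrt_eq_rpow]
    field_simp
  have lo : ∀ᵐ ω ∂μ, ∀ m : ℕ, ∀ ε : ℝ, 0 < ε → ∀ᶠ k : ℕ in atTop,
      ((s : ℝ) ^ 2 * (κ * (1 - 1 / ((m : ℝ) + 3))) ^ 2 - ε) * Real.log k ≤ CV μ ℱ (BH h A) (k ^ s) (Ls s k) ω := by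
    rw [ae_all_iff]
    intro m
    have hm1 : (1 : ℝ) / ((m : ℝ) + 3) ≤ 1 / 2 := one_div_le_one_div_of_le (by norm_num) (by
      have : (0 : ℝ) ≤ m := Nat.cast_nonneg m
      linarith)
    have hm0 : (0 : ℝ) < 1 / ((m : ℝ) + 3) := by positivity
    have hx0 : 0 < κ * (1 - 1 / ((m : ℝ) + 3)) := mul_pos hκ (by linarith)
    have hx1 : κ * (1 - 1 / ((m : ℝ) + 3)) < κ * (1 - 1 / ((m : ℝ) + 3) / 2) := mul_lt_mul_of_pos_left (by linarith) hκ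
    refine BV_lower hA hs hh' hx0 (pow_lower hA hs hx0 hx1 ?_) h0'
    filter_upwards [hd] with ω hω
    refine hω.eventually_const_le ?_
    nlinarith
  have hi : ∀ᵐ ω ∂μ, ∀ m : ℕ, ∀ ε : ℝ, 0 < ε → ∀ᶠ k : ℕ in atTop,
      CV μ ℱ (BH h A) (k ^ s) (Ls s k) ω ≤ ((s : ℝ) ^ 2 * (κ * (1 + 1 / ((m : ℝ) + 3))) ^ 2 + ε) * Real.log k := by
    rw [ae_all_iff]
    intro m
    have hm0 : (0 : ℝ) < 1 / ((m : ℝ) + 3) := by positivity
    have hx0 : 0 < κ * (1 + 1 / ((m : ℝ) + 3)) := by positivity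
    have hx2 : 0 < κ * (1 + 1 / ((m : ℝ) + 3) / 2) := by positivity
    have hx1 : κ * (1 + 1 / ((m : ℝ) + 3) / 2) < κ * (1 + 1 / ((m : ℝ) + 3)) := mul_lt_mul_of_pos_left (by linarith) hκ
    refine BV_upper hA hs hh' hx0 (pow_upper hA hs hx2 hx1 ?_)
    filter_upwards [hd] with ω hω
    refine hω.eventually_le_const ?_
    nlinarith
  filter_upwards [lo, hi, sm, DD_BH_le (μ := μ) hA hh'] with ω h1 h2 h3 h4
  constructor
  · rw [Metric.tendsto_nhds]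
    intro ε hε
    have m1 : Tendsto (fun t : ℝ => (s : ℝ) ^ 2 * (κ * (1 - t)) ^ 2 - t) (𝓝 0) (𝓝 ((s : ℝ) ^ 2 * κ ^ 2)) := by
      have : Continuous (fun t : ℝ => (s : ℝ) ^ 2 * (κ * (1 - t)) ^ 2 - t) := by fun_prop
      have h := this.tendsto 0
      simpa using h
    have m2 : Tendsto (fun t : ℝ => (s : ℝ) ^ 2 * (κ * (1 + t)) ^ 2 + t) (𝓝 0) (𝓝 ((s : ℝ) ^ 2 * κ ^ 2)) := by
      have : Continuous (fun t : ℝ => (s : ℝ) ^ 2 * (κ * (1 + t)) ^ 2 + t) := by fun_prop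
      have h := this.tendsto 0
      simpa using h
    have hseq : Tendsto (fun m : ℕ => 1 / ((m : ℝ) + 3)) atTop (𝓝 0) :=
      Tendsto.const_div_atTop (tendsto_atTop_add_const_right _ _ tendsto_natCast_atTop_atTop) 1
    obtain ⟨m, q1, q2⟩ := (((m1.comp hseq).eventually_const_lt (show (s : ℝ) ^ 2 * κ ^ 2 - ε < (s : ℝ) ^ 2 * κ ^ 2 by linarith)).and
      ((m2.comp hseq).eventually_lt_const (show (s : ℝ) ^ 2 * κ ^ 2 < (s : ℝ) ^ 2 * κ ^ 2 + ε by linarith))).exists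
    simp only [Function.comp] at q1 q2
    have hm0 : (0 : ℝ) < 1 / ((m : ℝ) + 3) := by positivity
    filter_upwards [h1 m _ hm0, h2 m _ hm0, tendsto_logN.eventually_gt_atTop 0] with k g1 g2 g3
    rw [Real.dist_eq, abs_lt]
    have f1 := (le_div_iff₀ g3).2 g1
    have f2 := (div_le_iff₀ g3).2 g2
    constructor <;> linarith
  · intro η hη
    have hq0 : Tendsto (fun k : ℕ => 2 * κ * q1 s k) atTop (𝓝 0) := by
      have := (q1_lim hs).const_mul (2 * κ)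
      rwa [mul_zero] at this
    filter_upwards [h3, hq0.eventually_le_const hη, win_idx hs 0] with k g1 g2 g3 i hi
    have hi' : i < Ls s k := hi
    obtain ⟨b1, b2⟩ := g3.2 i (by omega)
    rw [Nat.sub_zero] at b1 b2
    exact (h4 _).trans ((g1 _ b1 b2).trans g2)

end Pool.Agent.N417.CL
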